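import Pool.Agent.Lib.MP_d26cd8_an.D5.Spec

section
/-!
# MP_d26cd8_an, D5, module M8: the multiplier is a coboundary (Fubini)
-/
set_option autoImplicit false

open MeasureTheory ProbabilityTheory Filter Topology
open scoped ComplexConjugate ENNReal

namespace MPd26.HK

namespace FubM

lemma ec_add (s t : ℝ) : ((ec (s + t) : Circle) : ℂ) = (ec s : ℂ) * (ec t : ℂ) := by
  have : ec (s + t) = ec s * ec t := by unfold ec; rw [mul_add, Circle.exp_add]
  rw [this]; rfl

lemma unit_conj {u : ℂ} (h : ‖u‖ = 1) : u * conj u = 1 := by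
  rw [Complex.mul_conj, Complex.normSq_eq_norm_sq, h]; simp

lemma norm_ec (t : ℝ) : ‖((ec t : Circle) : ℂ)‖ = 1 := Circle.norm_coe _

lemma ec_conj (t : ℝ) : ((ec t : Circle) : ℂ) * conj ((ec t : Circle) : ℂ) = 1 :=
  unit_conj (norm_ec t)

lemma exists_ec {u : ℂ} (h : ‖u‖ = 1) : ∃ t : ℝ, u = ec t := by
  refine ⟨Complex.arg u / (2 * Real.pi), ?_⟩
  unfold ec
  have hpi : (2 * Real.pi) ≠ 0 := by positivity
  rw [mul_div_cancel₀ _ hpi, Circle.coe_exp]
  have h1 := Complex.norm_mul_exp_arg_mul_I u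
  rw [h, Complex.ofReal_one, one_mul] at h1
  exact h1.symm

lemma measurable_ec : Measurable (fun t : ℝ => ((ec t : Circle) : ℂ)) := by
  have : Continuous (fun t : ℝ => ((ec t : Circle) : ℂ)) := by
    unfold ec
    exact continuous_subtype_val.comp (Circle.exp.continuous.comp (continuous_const.mul continuous_id))
  exact this.measurable

end FubM

open FubM

theorem specFub (hV : SpecVol) : SpecFub := by
  intro d A c hc F hF hRPh hmul
  have hmc : Measurable (fun q : (Fin d → ℝ) × (Fin d → ℝ) => A.mul q.1 q.2) :=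
    A.continuous_mul'.measurable
  have hcm : Measurable (fun q : (Fin d → ℝ) × (Fin d → ℝ) => c q.1 q.2) := hc.cont.measurable
  have hFn : ∀ g z, ‖F g z‖ = 1 := fun g z => (hRPh g).1.2 z
  -- step 1: a good base point
  have hS : MeasurableSet {q : ((Fin d → ℝ) × (Fin d → ℝ)) × (Fin d → ℝ) |
      F q.1.1 (A.mul q.1.2 q.2) * F q.1.2 q.2
        = (ec (c q.1.1 q.1.2) : ℂ) * F (A.mul q.1.1 q.1.2) q.2} := by
    refine measurableSet_eq_fun ?_ ?_
    · refine (hF.comp (g := fun q : (Fin d → ℝ) × (Fin d → ℝ) => F q.1 q.2)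
        (f := fun q : ((Fin d → ℝ) × (Fin d → ℝ)) × (Fin d → ℝ) => (q.1.1, A.mul q.1.2 q.2)) ?_).mul
        (hF.comp (g := fun q : (Fin d → ℝ) × (Fin d → ℝ) => F q.1 q.2)
        (f := fun q : ((Fin d → ℝ) × (Fin d → ℝ)) × (Fin d → ℝ) => (q.1.2, q.2)) ?_)
      · exact (measurable_fst.comp measurable_fst).prodMk
          (hmc.comp ((measurable_snd.comp measurable_fst).prodMk measurable_snd))
      · exact (measurable_snd.comp measurable_fst).prodMk measurable_snd
    · refine (measurable_ec.comp (hcm.comp measurable_fst)).mul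
        (hF.comp (g := fun q : (Fin d → ℝ) × (Fin d → ℝ) => F q.1 q.2)
        (f := fun q : ((Fin d → ℝ) × (Fin d → ℝ)) × (Fin d → ℝ) => (A.mul q.1.1 q.1.2, q.2)) ?_)
      exact (hmc.comp measurable_fst).prodMk measurable_snd
  have h1 : ∀ᵐ z : Fin d → ℝ, ∀ᵐ q : (Fin d → ℝ) × (Fin d → ℝ),
      F q.1 (A.mul q.2 z) * F q.2 z = (ec (c q.1 q.2) : ℂ) * F (A.mul q.1 q.2) z := by
    have h2 : ∀ᵐ q : (Fin d → ℝ) × (Fin d → ℝ), ∀ᵐ z : Fin d → ℝ,
        F q.1 (A.mul q.2 z) * F q.2 z = (ec (c q.1 q.2) : ℂ) * F (A.mul q.1 q.2) z :=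
      Eventually.of_forall (fun q => hmul q.1 q.2)
    exact (Measure.ae_ae_comm hS).mp h2
  obtain ⟨z0, hz0⟩ := h1.exists
  have hz1 : ∀ᵐ g : Fin d → ℝ, ∀ᵐ h : Fin d → ℝ,
      F g (A.mul h z0) * F h z0 = (ec (c g h) : ℂ) * F (A.mul g h) z0 := by
    have h2 : ∀ᵐ q ∂((volume : Measure (Fin d → ℝ)).prod (volume : Measure (Fin d → ℝ))),
      F q.1 (A.mul q.2 z0) * F q.2 z0 = (ec (c q.1 q.2) : ℂ) * F (A.mul q.1 q.2) z0 := hz0
    exact Measure.ae_ae_of_ae_prod h2
  -- the function f
  let w : Fin d → ℝ := A.inv z0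
  let f0 : (Fin d → ℝ) → ℂ := fun h => F h z0
  have hf0 : Measurable f0 := hF.comp (measurable_id.prodMk measurable_const)
  have hf0n : ∀ h, ‖f0 h‖ = 1 := fun h => hFn h z0
  let f : (Fin d → ℝ) → ℂ := fun z => (ec (c z w) : ℂ) * f0 (A.mul z w)
  have hfm : Measurable f := by
    refine (measurable_ec.comp (hcm.comp (measurable_id.prodMk measurable_const))).mul
      (hf0.comp (hmc.comp (measurable_id.prodMk measurable_const)))
  have hfn : ∀ z, ‖f z‖ = 1 := by
    intro z
    show ‖(ec (c z w) : ℂ) * f0 (A.mul z w)‖ = 1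
    rw [norm_mul, norm_ec, hf0n, one_mul]
  -- step 1, conclusion
  have hgood : ∀ᵐ g : Fin d → ℝ, ∀ᵐ z : Fin d → ℝ,
      F g z = (ec (c g z) : ℂ) * f (A.mul g z) * conj (f z) := by
    filter_upwards [hz1] with g hg
    have hg2 : ∀ᵐ z : Fin d → ℝ, F g (A.mul (A.mul z w) z0) * F (A.mul z w) z0
        = (ec (c g (A.mul z w)) : ℂ) * F (A.mul g (A.mul z w)) z0 :=
      (hV d A w).2.quasiMeasurePreserving.ae hg
    filter_upwards [hg2] with z hz
    have e1 : A.mul (A.mul z w) z0 = z := by rw [A.assoc, A.inv_mul, A.mul_zero]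
    rw [e1] at hz
    have e2 : A.mul (A.mul g z) w = A.mul g (A.mul z w) := A.assoc _ _ _
    have hu : f0 (A.mul z w) * conj (f0 (A.mul z w)) = 1 := unit_conj (hf0n _)
    have h3 := ec_conj (c z w)
    have h12 : (ec (c g z) : ℂ) * (ec (c (A.mul g z) w) : ℂ)
        = (ec (c g (A.mul z w)) : ℂ) * (ec (c z w) : ℂ) := by
      rw [← ec_add, ← ec_add, hc.coc]
    have hzz : F g z * f0 (A.mul z w) = (ec (c g (A.mul z w)) : ℂ) * f0 (A.mul g (A.mul z w)) := hz
    show F g z = (ec (c g z) : ℂ) * ((ec (c (A.mul g z) w) : ℂ) * f0 (A.mul (A.mul g z) w))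
      * conj ((ec (c z w) : ℂ) * f0 (A.mul z w))
    rw [e2, map_mul]
    linear_combination (-(F g z)) * hu + conj (f0 (A.mul z w)) * hzz
      + (-((ec (c g (A.mul z w)) : ℂ) * f0 (A.mul g (A.mul z w)) * conj (f0 (A.mul z w)))) * h3
      + (-(f0 (A.mul g (A.mul z w)) * conj ((ec (c z w) : ℂ)) * conj (f0 (A.mul z w)))) * h12
  -- step 2: every g
  have hall : ∀ g : Fin d → ℝ, ∀ᵐ z : Fin d → ℝ,
      F g z = (ec (c g z) : ℂ) * f (A.mul g z) * conj (f z) := by
    intro g
    have hgood2 : ∀ᵐ g1 : Fin d → ℝ, ∀ᵐ z : Fin d → ℝ,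
        F (A.mul g1 g) z = (ec (c (A.mul g1 g) z) : ℂ) * f (A.mul (A.mul g1 g) z) * conj (f z) :=
      (hV d A g).2.quasiMeasurePreserving.ae hgood
    obtain ⟨g1, hg1, hg2⟩ := (hgood.and hgood2).exists
    have hg3 : ∀ᵐ z : Fin d → ℝ, F g1 (A.mul g z)
        = (ec (c g1 (A.mul g z)) : ℂ) * f (A.mul g1 (A.mul g z)) * conj (f (A.mul g z)) :=
      (hV d A g).1.quasiMeasurePreserving.ae hg1
    filter_upwards [hg2, hg3, hmul g1 g] with z hz2 hz3 hz4
    rw [hz3, hz2, A.assoc] at hz4
    have hP := unit_conj (hfn (A.mul g1 (A.mul g z)))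
    have hQ := unit_conj (hfn (A.mul g z))
    have hE := ec_conj (c g1 (A.mul g z))
    have hcc : (ec (c g1 g) : ℂ) * (ec (c (A.mul g1 g) z) : ℂ)
        = (ec (c g1 (A.mul g z)) : ℂ) * (ec (c g z) : ℂ) := by
      rw [← ec_add, ← ec_add, hc.coc]
    -- multiply hz4 by the conjugates
    have key : F g z * ((ec (c g1 (A.mul g z)) : ℂ) * conj ((ec (c g1 (A.mul g z)) : ℂ)))
        * (f (A.mul g1 (A.mul g z)) * conj (f (A.mul g1 (A.mul g z))))
        * (f (A.mul g z) * conj (f (A.mul g z)))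
        = ((ec (c g1 (A.mul g z)) : ℂ) * conj ((ec (c g1 (A.mul g z)) : ℂ)))
          * (f (A.mul g1 (A.mul g z)) * conj (f (A.mul g1 (A.mul g z))))
          * ((ec (c g z) : ℂ) * f (A.mul g z) * conj (f z)) := by
      linear_combination (conj ((ec (c g1 (A.mul g z)) : ℂ)) * conj (f (A.mul g1 (A.mul g z)))
          * f (A.mul g z)) * hz4
        + (conj ((ec (c g1 (A.mul g z)) : ℂ)) * conj (f (A.mul g1 (A.mul g z)))
          * f (A.mul g z) * f (A.mul g1 (A.mul g z)) * conj (f z)) * hcc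
    rw [hE, hP, hQ] at key
    simpa using key
  refine ⟨f, ⟨hfm, hfn⟩, hall, ?_⟩
  -- step 3
  intro γ hγ
  let R : (Fin d → ℝ) → ℂ := fun z => (ec (c z γ) : ℂ) * f (A.mul z γ) * conj (f z)
  have hRm : Measurable R := by
    refine ((measurable_ec.comp (hcm.comp (measurable_id.prodMk measurable_const))).mul
      (hfm.comp (hmc.comp (measurable_id.prodMk measurable_const)))).mul ?_
    exact Complex.continuous_conj.measurable.comp hfm
  have hR : ∀ g : Fin d → ℝ, ∀ᵐ z : Fin d → ℝ, R (A.mul g z) = R z := by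
    intro g
    have h2 : ∀ᵐ z : Fin d → ℝ, F g (A.mul z γ)
        = (ec (c g (A.mul z γ)) : ℂ) * f (A.mul g (A.mul z γ)) * conj (f (A.mul z γ)) :=
      (hV d A γ).2.quasiMeasurePreserving.ae (hall g)
    filter_upwards [hall g, h2] with z hz1 hz2
    rw [(hRPh g).2 z γ hγ, hz1] at hz2
    have e1 : A.mul (A.mul g z) γ = A.mul g (A.mul z γ) := A.assoc _ _ _
    show (ec (c (A.mul g z) γ) : ℂ) * f (A.mul (A.mul g z) γ) * conj (f (A.mul g z))
      = (ec (c z γ) : ℂ) * f (A.mul z γ) * conj (f z)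
    rw [e1]
    have hcc : (ec (c g z) : ℂ) * (ec (c (A.mul g z) γ) : ℂ)
        = (ec (c g (A.mul z γ)) : ℂ) * (ec (c z γ) : ℂ) := by
      rw [← ec_add, ← ec_add, hc.coc]
    have hE := ec_conj (c g z)
    have hQ := unit_conj (hfn (A.mul g z))
    have hU := unit_conj (hfn (A.mul z γ))
    have key : (ec (c (A.mul g z) γ) : ℂ) * f (A.mul g (A.mul z γ)) * conj (f (A.mul g z))
        * ((ec (c g z) : ℂ) * conj ((ec (c g z) : ℂ))) * (f (A.mul z γ) * conj (f (A.mul z γ)))
        = (ec (c z γ) : ℂ) * f (A.mul z γ) * conj (f z)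
          * ((ec (c g z) : ℂ) * conj ((ec (c g z) : ℂ)))
          * (f (A.mul g z) * conj (f (A.mul g z))) := by
      linear_combination (conj ((ec (c g z) : ℂ)) * f (A.mul g (A.mul z γ)) * conj (f (A.mul g z))
          * f (A.mul z γ) * conj (f (A.mul z γ))) * hcc
        - (conj ((ec (c g z) : ℂ)) * conj (f (A.mul g z)) * f (A.mul z γ) * (ec (c z γ) : ℂ)) * hz2
    rw [hE, hQ, hU] at key
    simpa using key
  have hRS : MeasurableSet {q : (Fin d → ℝ) × (Fin d → ℝ) | R (A.mul q.1 q.2) = R q.2} :=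
    measurableSet_eq_fun (hRm.comp hmc) (hRm.comp measurable_snd)
  have hR2 : ∀ᵐ z : Fin d → ℝ, ∀ᵐ g : Fin d → ℝ, R (A.mul g z) = R z :=
    (Measure.ae_ae_comm hRS).mp (Eventually.of_forall hR)
  obtain ⟨z1, hz1⟩ := hR2.exists
  have hR3 : ∀ᵐ z : Fin d → ℝ, R (A.mul (A.mul z (A.inv z1)) z1) = R z1 :=
    (hV d A (A.inv z1)).2.quasiMeasurePreserving.ae hz1
  have hR1n : ‖R z1‖ = 1 := by
    show ‖(ec (c z1 γ) : ℂ) * f (A.mul z1 γ) * conj (f z1)‖ = 1
    rw [norm_mul, norm_mul, norm_ec, hfn, RCLike.norm_conj, hfn]; norm_num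
  obtain ⟨χ, hχ⟩ := exists_ec hR1n
  refine ⟨χ, ?_⟩
  filter_upwards [hR3] with z hz
  have e1 : A.mul (A.mul z (A.inv z1)) z1 = z := by rw [A.assoc, A.inv_mul, A.mul_zero]
  rw [e1, hχ] at hz
  have hz' : (ec (c z γ) : ℂ) * f (A.mul z γ) * conj (f z) = (ec χ : ℂ) := hz
  have e2 : (ec (χ - c z γ) : ℂ) * (ec (c z γ) : ℂ) = (ec χ : ℂ) := by
    rw [← ec_add]; congr 2; ring
  have hE := ec_conj (c z γ)
  have hQ := unit_conj (hfn z)
  have key : f (A.mul z γ) * ((ec (c z γ) : ℂ) * conj ((ec (c z γ) : ℂ))) * (f z * conj (f z))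
      = f z * (ec (χ - c z γ) : ℂ) * ((ec (c z γ) : ℂ) * conj ((ec (c z γ) : ℂ))) := by
    linear_combination (conj ((ec (c z γ) : ℂ)) * f z) * hz'
      - (f z * conj ((ec (c z γ) : ℂ))) * e2
  rw [hE, hQ] at key
  simpa using key

end MPd26.HK
end

section
set_option autoImplicit false

open MeasureTheory Filter Topology
open scoped ComplexConjugate ENNReal

namespace MPd26.HK.Jm

lemma integrable_bdd {β : Type} [MeasurableSpace β] (μ : Measure β) [IsFiniteMeasure μ]
    {w : β → ℂ} (hw : Measurable w) (h1 : ∀ y, ‖w y‖ ≤ 1) : Integrable w μ :=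
  Integrable.of_bound hw.aestronglyMeasurable 1 (Eventually.of_forall h1)

/-- A sequence dense in the unit ball of `L^∞` for the `L¹` distance. -/
lemma exists_dense (β : Type) [MeasurableSpace β] [StandardBorelSpace β] (μ : Measure β)
    [IsFiniteMeasure μ] : ∃ w : ℕ → β → ℂ, (∀ j, Measurable (w j)) ∧ (∀ j y, ‖w j y‖ ≤ 1) ∧
      ∀ R : β → ℂ, Measurable R → (∀ y, ‖R y‖ ≤ 1) → ∀ ε : ℝ, 0 < ε →
        ∃ j, ∫ y, ‖R y - w j y‖ ∂μ < ε := by
  let S : Set (β →₁[μ] ℂ) :=
    {f | ∃ (w : β → ℂ) (hw : Measurable w) (h1 : ∀ y, ‖w y‖ ≤ 1),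
      f = (integrable_bdd μ hw h1).toL1 w}
  have hne : Nonempty S := ⟨⟨_, fun _ => 0, measurable_const, fun _ => by simp, rfl⟩⟩
  have hf : Fact ((1 : ℝ≥0∞) ≠ ∞) := ⟨ENNReal.one_ne_top⟩
  have hsec : SecondCountableTopology (β →₁[μ] ℂ) := inferInstance
  let u : ℕ → S := TopologicalSpace.denseSeq S
  have hu : DenseRange u := TopologicalSpace.denseRange_denseSeq S
  choose w hw h1 hwu using fun j => (u j).2
  refine ⟨w, hw, h1, fun R hR hR1 ε hε => ?_⟩
  let r : S := ⟨(integrable_bdd μ hR hR1).toL1 R, R, hR, hR1, rfl⟩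
  obtain ⟨j, hj⟩ := Metric.denseRange_iff.1 hu r ε hε
  refine ⟨j, ?_⟩
  have h2 : dist r (u j) = ∫ y, ‖R y - w j y‖ ∂μ := by
    rw [Subtype.dist_eq, hwu j, dist_eq_norm, ← Integrable.toL1_sub,
      L1.norm_of_fun_eq_integral_norm]
    rfl
  rw [← h2]
  exact hj

end MPd26.HK.Jm

namespace MPd26.HK
open Jm

theorem specJM : SpecJM := by
  intro α β _ _ _ μ _ R hR hR1 hmeas
  classical
  obtain ⟨w, hw, hw1, hdense⟩ := exists_dense β μ
  let p : ℕ → α → ℕ → Prop := fun k a j => ∫ y, ‖R a y - w j y‖ ∂μ < (1 / 2 : ℝ) ^ k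
  have hp : ∀ k a, ∃ j, p k a j := fun k a => hdense (R a) (hR a) (hR1 a) _ (by positivity)
  have hpm : ∀ k j, MeasurableSet {a | p k a j} := fun k j =>
    (hmeas (w j) (hw j) (hw1 j)) measurableSet_Iio
  let J : ℕ → α → ℕ := fun k a => Nat.find (hp k a)
  have hJ : ∀ k, Measurable (J k) := fun k => measurable_find (hp k) (hpm k)
  have hJs : ∀ k a, ∫ y, ‖R a y - w (J k a) y‖ ∂μ < (1 / 2 : ℝ) ^ k := fun k a =>
    Nat.find_spec (hp k a)
  let G : ℕ → α × β → ℂ := fun k q => w (J k q.1) q.2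
  have hw' : Measurable fun q : ℕ × β => w q.1 q.2 := measurable_from_prod_countable_right
    (fun j => hw j)
  have hG : ∀ k, Measurable (G k) := fun k =>
    hw'.comp (((hJ k).comp measurable_fst).prodMk measurable_snd)
  have hconv : ∀ a, ∀ᵐ y ∂μ, Tendsto (fun k => G k (a, y)) atTop (𝓝 (R a y)) := by
    intro a
    have h1 : ∀ k, ∫⁻ y, ‖R a y - G k (a, y)‖ₑ ∂μ ≤ (2⁻¹ : ℝ≥0∞) ^ k := by
      intro k
      have hm : Measurable fun y => R a y - G k (a, y) :=
        (hR a).sub ((hG k).comp (measurable_const.prodMk measurable_id))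
      have hi : Integrable (fun y => R a y - G k (a, y)) μ :=
        (integrable_bdd μ (hR a) (hR1 a)).sub (integrable_bdd μ (hw (J k a)) (hw1 (J k a)))
      have h2 : ∫⁻ y, ‖R a y - G k (a, y)‖ₑ ∂μ =
          ENNReal.ofReal (∫ y, ‖R a y - G k (a, y)‖ ∂μ) := by
        rw [ofReal_integral_norm_eq_lintegral_enorm hi]
      rw [h2]
      have h3 := (hJs k a).le
      calc ENNReal.ofReal (∫ y, ‖R a y - G k (a, y)‖ ∂μ)
          ≤ ENNReal.ofReal ((1 / 2 : ℝ) ^ k) := ENNReal.ofReal_le_ofReal h3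
        _ = (2⁻¹ : ℝ≥0∞) ^ k := by
            rw [ENNReal.ofReal_pow (by norm_num), one_div,
              ENNReal.ofReal_inv_of_pos (by norm_num)]
            norm_num
    have h4 : ∫⁻ y, ∑' k, ‖R a y - G k (a, y)‖ₑ ∂μ < ∞ := by
      rw [lintegral_tsum]
      · refine lt_of_le_of_lt (ENNReal.tsum_le_tsum h1) ?_
        rw [ENNReal.tsum_geometric]
        simp
      · intro k
        exact ((hR a).sub ((hG k).comp
          (measurable_const.prodMk measurable_id))).enorm.aemeasurable
    have h5 : ∀ᵐ y ∂μ, ∑' k, ‖R a y - G k (a, y)‖ₑ < ∞ := by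
      refine ae_lt_top ?_ h4.ne
      exact Measurable.tsum fun k => ((hR a).sub ((hG k).comp
        (measurable_const.prodMk measurable_id))).enorm
    filter_upwards [h5] with y hy
    have h6 := ENNReal.tendsto_atTop_zero_of_tsum_ne_top hy.ne
    rw [tendsto_iff_edist_tendsto_0]
    refine h6.congr fun k => ?_
    rw [edist_comm, edist_eq_enorm_sub]
  refine ⟨fun a y => ((limsup (fun k => (G k (a, y)).re) atTop : ℝ) : ℂ) +
    ((limsup (fun k => (G k (a, y)).im) atTop : ℝ) : ℂ) * Complex.I, ?_, ?_⟩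
  · have m1 : Measurable fun q : α × β => limsup (fun k => (G k q).re) atTop :=
      Measurable.limsup fun k => Complex.measurable_re.comp (hG k)
    have m2 : Measurable fun q : α × β => limsup (fun k => (G k q).im) atTop :=
      Measurable.limsup fun k => Complex.measurable_im.comp (hG k)
    exact (Complex.measurable_ofReal.comp m1).add
      ((Complex.measurable_ofReal.comp m2).mul_const _)
  · intro a
    filter_upwards [hconv a] with y hy
    have h1 : Tendsto (fun k => (G k (a, y)).re) atTop (𝓝 (R a y).re) :=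
      (Complex.continuous_re.tendsto _).comp hy
    have h2 : Tendsto (fun k => (G k (a, y)).im) atTop (𝓝 (R a y).im) :=
      (Complex.continuous_im.tendsto _).comp hy
    rw [h1.limsup_eq, h2.limsup_eq]
    exact Complex.re_add_im _

end MPd26.HK
end

section
set_option autoImplicit false

open MeasureTheory Filter Topology
open scoped ComplexConjugate ENNReal

namespace MPd26.HK.LiftGrp

variable {d : ℕ} {A : PG d} {L : (Fin d → ℝ) → ((Fin d → ℝ) → ℂ) → Prop}

/-- Lebesgue measure on the box. -/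
noncomputable abbrev vb (d : ℕ) : Measure (Fin d → ℝ) := volume.restrict (box d)

lemma box_eq_pi (d : ℕ) : box d = Set.univ.pi fun _ : Fin d => Set.Ico (0 : ℝ) 1 := by
  ext x; simp [box, Set.mem_pi]

lemma measurableSet_box (d : ℕ) : MeasurableSet (box d) := by
  rw [box_eq_pi]
  exact MeasurableSet.univ_pi fun _ => measurableSet_Ico

lemma volume_box (d : ℕ) : volume (box d) = 1 := by
  rw [box_eq_pi, volume_pi_pi]
  simp

instance (d : ℕ) : IsProbabilityMeasure (vb d) :=
  ⟨by rw [Measure.restrict_apply_univ]; exact volume_box d⟩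

lemma integrable_of_phase {F : (Fin d → ℝ) → ℂ} (hF : IsPhase F) : Integrable F (vb d) :=
  Integrable.of_bound hF.1.aestronglyMeasurable 1 (Eventually.of_forall fun z => (hF.2 z).le)

/-- class in `L¹` -/
noncomputable def cl (F : (Fin d → ℝ) → ℂ) (hF : IsPhase F) : (Fin d → ℝ) →₁[vb d] ℂ :=
  (integrable_of_phase hF).toL1 F

lemma dist_cl {F F' : (Fin d → ℝ) → ℂ} (hF : IsPhase F) (hF' : IsPhase F') :
    dist (cl F hF) (cl F' hF') = bd F F' := by
  unfold cl bd
  rw [dist_eq_norm, ← Integrable.toL1_sub, L1.norm_of_fun_eq_integral_norm]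
  rfl

lemma bd_nonneg (F F' : (Fin d → ℝ) → ℂ) : 0 ≤ bd F F' :=
  integral_nonneg fun _ => norm_nonneg _

/-- Box integrals of right-invariant functions are translation invariant. -/
lemma bd_trans (hB : SpecPGBox) (A : PG d) (h : Fin d → ℝ) {F F' : (Fin d → ℝ) → ℂ}
    (hF : A.RPh F) (hF' : A.RPh F') :
    bd (fun z => F (A.mul h z)) (fun z => F' (A.mul h z)) = bd F F' := by
  have hm : Measurable fun z => ‖F z - F' z‖ₑ := (hF.1.1.sub hF'.1.1).enorm
  have h1 := hB d A h (fun z => ‖F z - F' z‖ₑ) hm (fun z γ hγ => by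
    simp only [hF.2 z γ hγ, hF'.2 z γ hγ])
  unfold bd
  have hmul : Measurable (A.mul h) :=
    (A.continuous_mul'.comp (continuous_const.prodMk continuous_id)).measurable
  have e : ∀ f : (Fin d → ℝ) → ℂ, Measurable f →
      ∫ z in box d, ‖f z‖ = (∫⁻ z in box d, ‖f z‖ₑ).toReal := fun f hf =>
    integral_norm_eq_lintegral_enorm hf.aestronglyMeasurable
  have m1 : Measurable fun z => F (A.mul h z) - F' (A.mul h z) :=
    (hF.1.1.comp hmul).sub (hF'.1.1.comp hmul)
  have m2 : Measurable fun z => F z - F' z := hF.1.1.sub hF'.1.1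
  show ∫ z in box d, ‖F (A.mul h z) - F' (A.mul h z)‖ = ∫ z in box d, ‖F z - F' z‖
  rw [e _ m1, e _ m2, h1]

/-- Right-invariant functions equal a.e. on the box are equal a.e. -/
lemma ae_of_box (hV : SpecVol) (A : PG d) {F F' : (Fin d → ℝ) → ℂ} (hF : A.RPh F)
    (hF' : A.RPh F') (h : ∀ᵐ z ∂(vb d), F z = F' z) : F =ᵐ[volume] F' := by
  have hS : volume ({z | F z ≠ F' z} ∩ box d) = 0 := by
    have h1 := ae_iff.1 h
    rw [Measure.restrict_apply' (measurableSet_box d)] at h1
    exact h1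
  let S : Set (Fin d → ℝ) := {z | F z ≠ F' z} ∩ box d
  have hcov : {z | F z ≠ F' z} ⊆ ⋃ n : Fin d → ℤ,
      (fun x => A.mul x (A.inv (fun i => (n i : ℝ)))) ⁻¹' S := by
    intro z hz
    obtain ⟨hb, γ, hγ, hzγ⟩ := A.rep_spec z
    have h1 : ∀ i, ∃ n : ℤ, γ i = n := hγ
    choose n hn using h1
    have h2 : γ = fun i => (n i : ℝ) := funext hn
    rw [Set.mem_iUnion]
    refine ⟨n, ?_⟩
    have h3 : A.mul z (A.inv γ) = A.rep z := by
      conv_lhs => rw [← hzγ]
      rw [A.assoc, A.mul_inv, A.mul_zero]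
    show A.mul z (A.inv fun i => (n i : ℝ)) ∈ S
    rw [← h2, h3]
    refine ⟨?_, hb⟩
    have h4 := hF.2 (A.rep z) γ hγ
    have h5 := hF'.2 (A.rep z) γ hγ
    rw [hzγ] at h4 h5
    show F (A.rep z) ≠ F' (A.rep z)
    rw [← h4, ← h5]
    exact hz
  rw [Filter.EventuallyEq, ae_iff]
  refine measure_mono_null hcov (measure_iUnion_null fun n => ?_)
  exact (hV d A _).2.quasiMeasurePreserving.preimage_null hS

/-- Pairs `(g,F)`. -/
structure E0 (hL : LiftData A L) where
  /-- the group element -/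
  g : Fin d → ℝ
  /-- the phase -/
  F : (Fin d → ℝ) → ℂ
  h : L g F

namespace E0
variable {hL : LiftData A L}

@[ext] lemma ext' {x y : E0 hL} (h1 : x.g = y.g) (h2 : x.F = y.F) : x = y := by
  cases x; cases y; simp only at h1 h2; subst h1; subst h2; rfl

lemma rph (x : E0 hL) : A.RPh x.F := hL.ph _ _ x.h

lemma ph (x : E0 hL) : IsPhase x.F := x.rph.1

noncomputable instance : Group (E0 hL) where
  mul x y := ⟨A.mul x.g y.g, fun z => x.F (A.mul y.g z) * y.F z, hL.mul _ _ _ _ x.h y.h⟩
  one := ⟨0, fun _ => 1, hL.const 1 (by simp)⟩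
  inv x := ⟨A.inv x.g, fun z => conj (x.F (A.mul (A.inv x.g) z)), hL.inv _ _ x.h⟩
  mul_assoc x y w := by
    refine ext' (A.assoc _ _ _) ?_
    funext z
    show x.F (A.mul y.g (A.mul w.g z)) * y.F (A.mul w.g z) * w.F z =
      x.F (A.mul (A.mul y.g w.g) z) * (y.F (A.mul w.g z) * w.F z)
    rw [A.assoc, mul_assoc]
  one_mul x := by
    refine ext' (A.zero_mul _) ?_
    funext z
    show (1 : ℂ) * x.F z = x.F z
    rw [one_mul]
  mul_one x := by
    refine ext' (A.mul_zero _) ?_
    funext z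
    show x.F (A.mul 0 z) * 1 = x.F z
    rw [A.zero_mul, mul_one]
  inv_mul_cancel x := by
    refine ext' (A.inv_mul _) ?_
    funext z
    show conj (x.F (A.mul (A.inv x.g) (A.mul x.g z))) * x.F z = 1
    rw [← A.assoc, A.inv_mul, A.zero_mul, Complex.conj_mul', x.ph.2 z]
    simp

lemma mul_g (x y : E0 hL) : (x * y).g = A.mul x.g y.g := rfl
lemma mul_F (x y : E0 hL) : (x * y).F = fun z => x.F (A.mul y.g z) * y.F z := rfl
lemma one_g : (1 : E0 hL).g = 0 := rfl
lemma one_F : (1 : E0 hL).F = fun _ => 1 := rfl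
lemma inv_g (x : E0 hL) : (x⁻¹).g = A.inv x.g := rfl
lemma inv_F (x : E0 hL) : (x⁻¹).F = fun z => conj (x.F (A.mul (A.inv x.g) z)) := rfl

/-- The map defining the topology. -/
noncomputable def Φ (x : E0 hL) : (Fin d → ℝ) × ((Fin d → ℝ) →₁[vb d] ℂ) := (x.g, cl x.F x.ph)

noncomputable instance : TopologicalSpace (E0 hL) := TopologicalSpace.induced Φ inferInstance

lemma inducing : Topology.IsInducing (Φ : E0 hL → _) := ⟨rfl⟩

lemma continuous_g : Continuous fun x : E0 hL => x.g := continuous_fst.comp inducing.continuous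
lemma continuous_cl : Continuous fun x : E0 hL => cl x.F x.ph :=
  continuous_snd.comp inducing.continuous

lemma tendsto_bd (x₀ : E0 hL) : Tendsto (fun x : E0 hL => bd x.F x₀.F) (𝓝 x₀) (𝓝 0) := by
  have h : Tendsto (fun x : E0 hL => dist (cl x.F x.ph) (cl x₀.F x₀.ph)) (𝓝 x₀) (𝓝 0) :=
    tendsto_iff_dist_tendsto_zero.1 (continuous_cl.tendsto x₀)
  simpa [dist_cl] using h

lemma continuous_of {β : Type} [TopologicalSpace β] (σ : β → E0 hL)
    (h1 : Continuous fun t => (σ t).g)
    (h2 : ∀ t₀, Tendsto (fun t => bd (σ t).F (σ t₀).F) (𝓝 t₀) (𝓝 0)) : Continuous σ := by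
  rw [inducing.continuous_iff]
  refine h1.prodMk (continuous_iff_continuousAt.2 fun t₀ => ?_)
  refine tendsto_iff_dist_tendsto_zero.2 ?_
  simpa [dist_cl] using h2 t₀

lemma meas_mul (A : PG d) (h : Fin d → ℝ) : Measurable (A.mul h) :=
  (A.continuous_mul'.comp (continuous_const.prodMk continuous_id)).measurable

lemma int_aux {F F' : (Fin d → ℝ) → ℂ} (hF : Measurable F) (hF' : Measurable F')
    (h1 : ∀ z, ‖F z‖ = 1) (h2 : ∀ z, ‖F' z‖ = 1) : Integrable (fun z => ‖F z - F' z‖) (vb d) := by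
  refine Integrable.of_bound (hF.sub hF').norm.aestronglyMeasurable 2
    (Eventually.of_forall fun z => ?_)
  rw [norm_norm]
  calc ‖F z - F' z‖ ≤ ‖F z‖ + ‖F' z‖ := norm_sub_le _ _
    _ = 2 := by rw [h1, h2]; norm_num

/-- The basic estimate for products. -/
lemma bd_mul_le (hB : SpecPGBox) (x y x₀ y₀ : E0 hL) :
    bd (x * y).F (x₀ * y₀).F ≤ bd x.F x₀.F +
      (∫ z in box d, ‖x₀.F (A.mul y.g z) - x₀.F (A.mul y₀.g z)‖) + bd y.F y₀.F := by
  have h1 := bd_trans hB A y.g x.rph x₀.rph
  have i1 : Integrable (fun z => ‖x.F (A.mul y.g z) - x₀.F (A.mul y.g z)‖) (vb d) :=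
    int_aux (x.ph.1.comp (meas_mul A _)) (x₀.ph.1.comp (meas_mul A _)) (fun z => x.ph.2 _)
      (fun z => x₀.ph.2 _)
  have i2 : Integrable (fun z => ‖x₀.F (A.mul y.g z) - x₀.F (A.mul y₀.g z)‖) (vb d) :=
    int_aux (x₀.ph.1.comp (meas_mul A _)) (x₀.ph.1.comp (meas_mul A _)) (fun z => x₀.ph.2 _)
      (fun z => x₀.ph.2 _)
  have i3 : Integrable (fun z => ‖y.F z - y₀.F z‖) (vb d) :=
    int_aux y.ph.1 y₀.ph.1 y.ph.2 y₀.ph.2
  have i12 : Integrable (fun z => ‖x.F (A.mul y.g z) - x₀.F (A.mul y.g z)‖ +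
      ‖x₀.F (A.mul y.g z) - x₀.F (A.mul y₀.g z)‖) (vb d) := i1.add i2
  rw [← h1]
  unfold bd
  rw [← integral_add i1 i2, ← integral_add i12 i3]
  refine integral_mono_of_nonneg (Eventually.of_forall fun z => norm_nonneg _)
    (i12.add i3) (Eventually.of_forall fun z => ?_)
  show ‖x.F (A.mul y.g z) * y.F z - x₀.F (A.mul y₀.g z) * y₀.F z‖ ≤
    ‖x.F (A.mul y.g z) - x₀.F (A.mul y.g z)‖ + ‖x₀.F (A.mul y.g z) - x₀.F (A.mul y₀.g z)‖ +
      ‖y.F z - y₀.F z‖
  have e : x.F (A.mul y.g z) * y.F z - x₀.F (A.mul y₀.g z) * y₀.F z =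
      (x.F (A.mul y.g z) - x₀.F (A.mul y.g z)) * y.F z +
      (x₀.F (A.mul y.g z) - x₀.F (A.mul y₀.g z)) * y.F z +
      x₀.F (A.mul y₀.g z) * (y.F z - y₀.F z) := by ring
  rw [e]
  refine (norm_add_le _ _).trans (add_le_add ((norm_add_le _ _).trans ?_) ?_)
  · rw [norm_mul, norm_mul, y.ph.2, mul_one, mul_one]
  · rw [norm_mul, x₀.ph.2, one_mul]

lemma bd_inv_le (hB : SpecPGBox) (x x₀ : E0 hL) :
    bd (x⁻¹).F (x₀⁻¹).F ≤ bd x.F x₀.F +
      ∫ z in box d, ‖x₀.F (A.mul (A.inv x.g) z) - x₀.F (A.mul (A.inv x₀.g) z)‖ := by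
  have h1 := bd_trans hB A (A.inv x.g) x.rph x₀.rph
  have i1 : Integrable (fun z => ‖x.F (A.mul (A.inv x.g) z) - x₀.F (A.mul (A.inv x.g) z)‖)
      (vb d) :=
    int_aux (x.ph.1.comp (meas_mul A _)) (x₀.ph.1.comp (meas_mul A _)) (fun z => x.ph.2 _)
      (fun z => x₀.ph.2 _)
  have i2 : Integrable (fun z => ‖x₀.F (A.mul (A.inv x.g) z) - x₀.F (A.mul (A.inv x₀.g) z)‖)
      (vb d) :=
    int_aux (x₀.ph.1.comp (meas_mul A _)) (x₀.ph.1.comp (meas_mul A _)) (fun z => x₀.ph.2 _)
      (fun z => x₀.ph.2 _)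
  rw [← h1]
  unfold bd
  rw [← integral_add i1 i2]
  refine integral_mono_of_nonneg (Eventually.of_forall fun z => norm_nonneg _)
    (i1.add i2) (Eventually.of_forall fun z => ?_)
  show ‖conj (x.F (A.mul (A.inv x.g) z)) - conj (x₀.F (A.mul (A.inv x₀.g) z))‖ ≤
    ‖x.F (A.mul (A.inv x.g) z) - x₀.F (A.mul (A.inv x.g) z)‖ +
      ‖x₀.F (A.mul (A.inv x.g) z) - x₀.F (A.mul (A.inv x₀.g) z)‖
  rw [← map_sub, RCLike.norm_conj]
  have e : x.F (A.mul (A.inv x.g) z) - x₀.F (A.mul (A.inv x₀.g) z) =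
      (x.F (A.mul (A.inv x.g) z) - x₀.F (A.mul (A.inv x.g) z)) +
      (x₀.F (A.mul (A.inv x.g) z) - x₀.F (A.mul (A.inv x₀.g) z)) := by ring
  rw [e]
  exact norm_add_le _ _

/-- The group is a topological group. -/
lemma topGroup (hB : SpecPGBox) (hT : SpecTrans) : IsTopologicalGroup (E0 hL) where
  continuous_mul := by
    refine continuous_of _ ?_ ?_
    · exact A.continuous_mul'.comp ((continuous_g.comp continuous_fst).prodMk
        (continuous_g.comp continuous_snd))
    · intro q₀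
      have h1 : Tendsto (fun q : E0 hL × E0 hL => bd q.1.F q₀.1.F) (𝓝 q₀) (𝓝 0) :=
        (tendsto_bd q₀.1).comp continuous_fst.continuousAt
      have h3 : Tendsto (fun q : E0 hL × E0 hL => bd q.2.F q₀.2.F) (𝓝 q₀) (𝓝 0) :=
        (tendsto_bd q₀.2).comp continuous_snd.continuousAt
      have h2 : Tendsto (fun q : E0 hL × E0 hL =>
          ∫ z in box d, ‖q₀.1.F (A.mul q.2.g z) - q₀.1.F (A.mul q₀.2.g z)‖) (𝓝 q₀) (𝓝 0) :=
        (hT d A q₀.1.F q₀.1.rph q₀.2.g).comp
          (continuous_g.comp continuous_snd).continuousAt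
      have h4 := (h1.add h2).add h3
      simp only [add_zero] at h4
      exact squeeze_zero (fun q => bd_nonneg _ _) (fun q => bd_mul_le hB q.1 q.2 q₀.1 q₀.2) h4
  continuous_inv := by
    refine continuous_of _ ?_ ?_
    · exact A.continuous_inv'.comp continuous_g
    · intro x₀
      have h1 := tendsto_bd x₀
      have h2 : Tendsto (fun x : E0 hL =>
          ∫ z in box d, ‖x₀.F (A.mul (A.inv x.g) z) - x₀.F (A.mul (A.inv x₀.g) z)‖)
          (𝓝 x₀) (𝓝 0) :=
        (hT d A x₀.F x₀.rph (A.inv x₀.g)).comp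
          (A.continuous_inv'.comp continuous_g).continuousAt
      have h4 := h1.add h2
      simp only [add_zero] at h4
      exact squeeze_zero (fun q => bd_nonneg _ _) (fun q => bd_inv_le hB q x₀) h4

end E0

/-! ### The quotient -/

section Quot
variable (hL : LiftData A L) [IsTopologicalGroup (E0 hL)]

/-- The group of lifts. -/
abbrev EE : Type := SeparationQuotient (E0 hL)

lemma insep_iff {x y : E0 hL} : Inseparable x y ↔ x.g = y.g ∧ cl x.F x.ph = cl y.F y.ph := by
  rw [← E0.inducing.inseparable_iff, inseparable_iff_eq]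
  exact Prod.ext_iff

lemma cl_eq_iff {F F' : (Fin d → ℝ) → ℂ} (hF : IsPhase F) (hF' : IsPhase F') :
    cl F hF = cl F' hF' ↔ F =ᵐ[vb d] F' := Integrable.toL1_eq_toL1_iff _ _ _ _

/-- The projection. -/
noncomputable def prj : EE hL →* A.Gp where
  toFun := SeparationQuotient.lift (fun x : E0 hL => (x.g : A.Gp))
    (fun x y h => ((insep_iff hL).1 h).1)
  map_one' := rfl
  map_mul' x y := by
    obtain ⟨x, rfl⟩ := SeparationQuotient.surjective_mk x
    obtain ⟨y, rfl⟩ := SeparationQuotient.surjective_mk y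
    rfl

lemma prj_mk (x : E0 hL) : prj hL (SeparationQuotient.mk x) = x.g := rfl

/-- The circle in `E0`. -/
noncomputable def cst (u : Circle) : E0 hL := ⟨0, fun _ => u, hL.const u (Circle.norm_coe u)⟩

/-- The central circle. -/
noncomputable def iot : Circle →* EE hL where
  toFun u := SeparationQuotient.mk (cst hL u)
  map_one' := by
    show SeparationQuotient.mk (cst hL 1) = SeparationQuotient.mk 1
    congr 1
  map_mul' u v := by
    show SeparationQuotient.mk (cst hL (u * v)) = SeparationQuotient.mk (cst hL u * cst hL v)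
    congr 1
    refine E0.ext' ?_ ?_
    · exact (A.mul_zero 0).symm
    · funext z
      show ((u * v : Circle) : ℂ) = u * v
      simp

lemma cph (d : ℕ) (u : Circle) : IsPhase (fun _ : Fin d → ℝ => (u : ℂ)) :=
  ⟨measurable_const, fun _ => Circle.norm_coe u⟩

omit [IsTopologicalGroup (E0 hL)] in
lemma cl_const_cont (d : ℕ) : Continuous fun u : Circle =>
    cl (fun _ : Fin d → ℝ => (u : ℂ)) (cph d u) := by
  rw [continuous_iff_continuousAt]
  intro u₀
  refine tendsto_iff_dist_tendsto_zero.2 ?_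
  have h1 : ∀ u : Circle, dist (cl (fun _ : Fin d → ℝ => (u : ℂ)) (cph d u))
      (cl (fun _ : Fin d → ℝ => (u₀ : ℂ)) (cph d u₀)) = ‖(u : ℂ) - (u₀ : ℂ)‖ := by
    intro u
    rw [dist_cl]
    unfold bd
    rw [integral_const]
    simp [measureReal_def]
  have h0 : Continuous fun u : Circle => (u : ℂ) := continuous_subtype_val
  have h : Continuous fun u : Circle => ‖(u : ℂ) - (u₀ : ℂ)‖ :=
    continuous_norm.comp (h0.sub continuous_const)
  have h2 := h.tendsto u₀
  rw [sub_self, norm_zero] at h2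
  exact h2.congr fun u => (h1 u).symm

lemma cst_cont : Continuous (cst hL) := by
  rw [E0.inducing.continuous_iff]
  exact continuous_const.prodMk (cl_const_cont d)

lemma int_cont : Continuous fun x : E0 hL => ∫ z in box d, x.F z := by
  have h : (fun x : E0 hL => ∫ z in box d, x.F z) =
      fun x : E0 hL => ∫ z in box d, (cl x.F x.ph) z := by
    funext x
    exact integral_congr_ae (Integrable.coeFn_toL1 (integrable_of_phase x.ph)).symm
  rw [h]
  exact continuous_integral.comp E0.continuous_cl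

lemma mk_eq_iff {x y : E0 hL} : (SeparationQuotient.mk x : EE hL) = SeparationQuotient.mk y ↔
    x.g = y.g ∧ x.F =ᵐ[vb d] y.F := by
  rw [SeparationQuotient.mk_eq_mk, insep_iff, cl_eq_iff]

/-- The central extension. -/
noncomputable def KK : CExt A (EE hL) where
  p := prj hL
  ι := iot hL
  I := SeparationQuotient.lift (fun x : E0 hL => ∫ z in box d, x.F z) (fun x y h => by
    have h1 := ((insep_iff hL).1 h).2
    rw [cl_eq_iff] at h1
    exact integral_congr_ae h1)
  p_cont := SeparationQuotient.continuous_lift E0.continuous_g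
  ι_cont := SeparationQuotient.continuous_mk.comp (cst_cont hL)
  I_cont := SeparationQuotient.continuous_lift (int_cont hL)
  central u l := by
    obtain ⟨x, rfl⟩ := SeparationQuotient.surjective_mk l
    show (SeparationQuotient.mk (cst hL u * x) : EE hL) = SeparationQuotient.mk (x * cst hL u)
    congr 1
    refine E0.ext' ?_ ?_
    · show A.mul 0 x.g = A.mul x.g 0
      rw [A.zero_mul, A.mul_zero]
    · funext z
      show (u : ℂ) * x.F z = x.F (A.mul 0 z) * u
      rw [A.zero_mul, mul_comm]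
  p_ι u := rfl
  I_ι u l := by
    obtain ⟨x, rfl⟩ := SeparationQuotient.surjective_mk l
    show ∫ z in box d, (u : ℂ) * x.F z = u * ∫ z in box d, x.F z
    exact integral_const_mul _ _
  I_one := by
    show ∫ z in box d, (1 : ℂ) = 1
    rw [integral_const]
    simp [measureReal_def]
  isOpen W hW := by
    have h1 : SeparationQuotient.mk ⁻¹' W ∈ 𝓝 (1 : E0 hL) :=
      SeparationQuotient.continuous_mk.continuousAt (by
        show W ∈ 𝓝 (SeparationQuotient.mk (1 : E0 hL))
        exact hW)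
    rw [E0.inducing.nhds_eq_comap, mem_comap] at h1
    obtain ⟨V, hV, hVs⟩ := h1
    have hV' : V ∈ 𝓝 (((1 : E0 hL).g), (cl (1 : E0 hL).F (1 : E0 hL).ph)) := hV
    rw [nhds_prod_eq, mem_prod_iff] at hV'
    obtain ⟨U, hU, B, hB, hUB⟩ := hV'
    obtain ⟨ε, hε, hεB⟩ := Metric.mem_nhds_iff.1 hB
    obtain ⟨U', hU', hsm⟩ := hL.small (ε / 2) (by linarith)
    have hUU : U ∩ U' ∈ 𝓝 (1 : A.Gp) := inter_mem hU hU'
    refine mem_of_superset hUU ?_
    rintro g ⟨hg1, hg2⟩
    obtain ⟨F, hF, hbd⟩ := hsm g hg2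
    let x : E0 hL := ⟨g, F, hF⟩
    refine ⟨SeparationQuotient.mk x, ?_, rfl⟩
    refine hVs (hUB ⟨hg1, hεB ?_⟩)
    show dist (cl F x.ph) (cl (1 : E0 hL).F (1 : E0 hL).ph) < ε
    rw [dist_cl]
    have : bd F (1 : E0 hL).F = bd F (fun _ => 1) := rfl
    rw [this]; linarith
  sep := by
    obtain ⟨η, hη, hs⟩ := hL.sep
    let J : EE hL → ℝ := SeparationQuotient.lift (fun x : E0 hL => bd x.F (fun _ => 1))
      (fun x y h => by
        have h1 := ((insep_iff hL).1 h).2
        rw [cl_eq_iff] at h1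
        refine integral_congr_ae ?_
        filter_upwards [h1] with z hz
        rw [hz])
    have hJ : Continuous J := by
      refine SeparationQuotient.continuous_lift ?_
      have h : (fun x : E0 hL => bd x.F (fun _ => 1)) =
          fun x : E0 hL => dist (cl x.F x.ph) (cl (1 : E0 hL).F (1 : E0 hL).ph) := by
        funext x; rw [dist_cl]; rfl
      rw [h]
      exact E0.continuous_cl.dist continuous_const
    refine ⟨{l | J l < η}, hJ.continuousAt.eventually (Iio_mem_nhds ?_), ?_⟩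
    · show bd (1 : E0 hL).F (fun _ => 1) < η
      have : bd (1 : E0 hL).F (fun _ => 1) = 0 := by
        unfold bd
        simp [E0.one_F]
      rw [this]; exact hη
    · intro l hl hp
      obtain ⟨x, rfl⟩ := SeparationQuotient.surjective_mk l
      have hg : x.g = 0 := hp
      have hx : L 0 x.F := by rw [← hg]; exact x.h
      obtain ⟨c, hc⟩ := hs x.F hx (le_of_lt hl)
      have hc' : ∀ᵐ z ∂(vb d), x.F z = c := ae_restrict_of_ae hc
      obtain ⟨z, hz⟩ := hc'.exists
      have hcn : ‖c‖ = 1 := by rw [← hz]; exact x.ph.2 z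
      refine ⟨⟨c, mem_sphere_zero_iff_norm.2 hcn⟩, ?_⟩
      show (SeparationQuotient.mk _ : EE hL) = SeparationQuotient.mk x
      rw [mk_eq_iff]
      refine ⟨hg.symm, ?_⟩
      filter_upwards [hc'] with z hz
      exact hz.symm

end Quot

end MPd26.HK.LiftGrp

namespace MPd26.HK
open LiftGrp

theorem specLiftGrp (hV : SpecVol) (hB : SpecPGBox) (hT : SpecTrans) : SpecLiftGrp := by
  intro d A L hL
  have : IsTopologicalGroup (E0 hL) := E0.topGroup hB hT
  let out : EE hL → E0 hL := fun l => (SeparationQuotient.surjective_mk l).choose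
  have hout : ∀ l, SeparationQuotient.mk (out l) = l := fun l =>
    (SeparationQuotient.surjective_mk l).choose_spec
  have hp : ∀ l, (KK hL).p l = (out l).g := by
    intro l
    conv_lhs => rw [← hout l]
    rfl
  have key : ∀ (l : EE hL) (x : E0 hL), SeparationQuotient.mk x = l →
      (out l).F =ᵐ[volume] x.F := by
    intro l x h
    have h1 := (mk_eq_iff hL).1 ((hout l).trans h.symm)
    exact ae_of_box hV A (out l).rph x.rph h1.2
  refine ⟨EE hL, inferInstance, inferInstance, inferInstance, inferInstance, KK hL,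
    fun l => (out l).F, ?_, ?_, ?_, ?_, ?_, ?_, ?_⟩
  · intro l
    rw [hp]
    exact (out l).h
  · intro l l'
    have h : SeparationQuotient.mk (out l * out l') = l * l' := by
      show SeparationQuotient.mk (out l) * SeparationQuotient.mk (out l') = l * l'
      rw [hout, hout]
    filter_upwards [key _ _ h] with z hz
    rw [hz, E0.mul_F, hp]
  · intro u
    exact key _ (cst hL u) rfl
  · intro l l' h1 h2
    rw [hp, hp] at h1
    rw [← hout l, ← hout l', mk_eq_iff]
    exact ⟨h1, ae_restrict_of_ae h2⟩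
  · intro g F hF
    let x : E0 hL := ⟨g, F, hF⟩
    exact ⟨SeparationQuotient.mk x, rfl, key _ x rfl⟩
  · intro l₀
    let C : EE hL → ((Fin d → ℝ) →₁[vb d] ℂ) := SeparationQuotient.lift
      (fun x : E0 hL => cl x.F x.ph) (fun x y h => ((insep_iff hL).1 h).2)
    have hC : Continuous C := SeparationQuotient.continuous_lift E0.continuous_cl
    have h1 : Tendsto (fun l => dist (C l) (C l₀)) (𝓝 l₀) (𝓝 0) :=
      tendsto_iff_dist_tendsto_zero.1 (hC.tendsto l₀)
    have h2 : (fun l => bd (out l).F (out l₀).F) = fun l => dist (C l) (C l₀) := by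
      funext l
      have e : ∀ l, C l = cl (out l).F (out l).ph := by
        intro l
        conv_lhs => rw [← hout l]
        rfl
      rw [e, e, dist_cl]
    rw [h2]
    exact h1
  · intro σ h1 h2
    have h3 : Continuous fun t => out (σ t) := by
      refine E0.continuous_of _ ?_ h2
      have : (fun t => (out (σ t)).g) = fun t => (KK hL).p (σ t) := by
        funext t; rw [hp]
      rw [this]
      exact h1
    have h4 : σ = fun t => SeparationQuotient.mk (out (σ t)) := by
      funext t; rw [hout]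
    rw [h4]
    exact SeparationQuotient.continuous_mk.comp h3

end MPd26.HK
end

section
/-!
# MP_d26cd8_an, D5, module M9: normalisation of the lattice
-/
set_option autoImplicit false

open MeasureTheory ProbabilityTheory Filter Topology
open scoped ComplexConjugate ENNReal

namespace MPd26.HK

namespace NormM

lemma ec_add (s t : ℝ) : ec (s + t) = ec s * ec t := by
  unfold ec
  rw [mul_add, Circle.exp_add]

lemma ec_int (n : ℤ) : ec (n : ℝ) = 1 := by
  unfold ec
  rw [Circle.exp_eq_one]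
  exact ⟨n, by ring⟩

lemma ec_eq_one {t : ℝ} (h : ec t = 1) : ∃ n : ℤ, t = n := by
  unfold ec at h
  rw [Circle.exp_eq_one] at h
  obtain ⟨n, hn⟩ := h
  refine ⟨n, ?_⟩
  have hpi : (2 * Real.pi) ≠ 0 := by positivity
  have h2 : (2 * Real.pi) * t = (2 * Real.pi) * n := by rw [hn]; ring
  exact mul_left_cancel₀ hpi h2

lemma ec_eq_iff {s t : ℝ} : ec s = ec t ↔ ∃ n : ℤ, s - t = n := by
  constructor
  · intro h
    apply ec_eq_one
    have h1 : ec s = ec (s - t) * ec t := by rw [← ec_add]; congr 1; ring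
    rw [h] at h1
    have h2 : ec (s - t) * ec t = 1 * ec t := by rw [← h1, one_mul]
    exact mul_right_cancel h2
  · rintro ⟨n, hn⟩
    have : s = t + n := by linarith
    rw [this, ec_add, ec_int, mul_one]

lemma cec_add (s t : ℝ) : ((ec (s + t) : Circle) : ℂ) = (ec s : ℂ) * (ec t : ℂ) := by
  rw [ec_add]; rfl

end NormM

open NormM

theorem specNorm (hV : SpecVol) : SpecNorm := by
  intro d A c hc f hf hχ
  -- the character up to the cocycle
  have hχ' : ∀ γ : Fin d → ℝ, ∃ x : ℝ, IsInt γ →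
      ∀ᵐ z, f (A.mul z γ) = f z * ec (x - c z γ) := by
    intro γ
    by_cases h : IsInt γ
    · obtain ⟨x, hx⟩ := hχ γ h
      exact ⟨x, fun _ => hx⟩
    · exact ⟨0, fun h' => absurd h' h⟩
  choose χ hχ1 using hχ'
  refine ⟨fun i => -χ (A.ax i 1), ?_⟩
  intro ℓ c'
  have hℓadd : ∀ x y, ℓ (x + y) = ℓ x + ℓ y := by
    intro x y
    show ∑ i, _ = (∑ i, _) + ∑ i, _
    rw [← Finset.sum_add_distrib]
    refine Finset.sum_congr rfl (fun i _ => ?_)
    rw [Pi.add_apply]; ring
  have hℓ0 : ℓ 0 = 0 := by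
    show ∑ i, _ = (0 : ℝ)
    exact Finset.sum_eq_zero (fun i _ => by simp)
  have hℓcont : Continuous ℓ := by
    show Continuous (fun x : Fin d → ℝ => ∑ i, _)
    fun_prop
  have hℓax : ∀ i (t : ℝ), ℓ (A.ax i t) = -χ (A.ax i 1) * t := by
    intro i t
    show ∑ j, _ = _
    rw [Finset.sum_eq_single i]
    · show -χ (A.ax i 1) * (Pi.single i t : Fin d → ℝ) i = _
      rw [Pi.single_eq_same]
    · intro j _ hj
      show -χ (A.ax j 1) * (Pi.single i t : Fin d → ℝ) j = 0
      rw [Pi.single_eq_of_ne hj, mul_zero]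
    · intro h; exact absurd (Finset.mem_univ i) h
  have hc'def : ∀ x y, c' x y = c x y + ℓ x + ℓ y - ℓ (A.mul x y) := fun _ _ => rfl
  have hcoc' : A.Coc c' := by
    refine ⟨?_, ?_, ?_, ?_⟩
    · have h1 := hc.cont
      have h2 := A.continuous_mul'
      show Continuous (fun q : (Fin d → ℝ) × (Fin d → ℝ) =>
        c q.1 q.2 + ℓ q.1 + ℓ q.2 - ℓ (A.mul q.1 q.2))
      exact ((h1.add (hℓcont.comp continuous_fst)).add (hℓcont.comp continuous_snd)).sub
        (hℓcont.comp h2)
    · intro x y z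
      have := hc.coc x y z
      simp only [hc'def]
      rw [A.assoc]
      linarith
    · rw [hc'def, hc.zero, A.zero_mul, hℓ0]; ring
    · intro i x y hx hy
      rw [hc'def, hc.nrm i x y hx hy, A.second i x y hx hy, hℓadd]; ring
  -- the twisted function
  let g : (Fin d → ℝ) → ℂ := fun z => f z * ec (ℓ z)
  let χ' : (Fin d → ℝ) → ℝ := fun γ => χ γ + ℓ γ
  have hg : ∀ γ, IsInt γ → ∀ᵐ z, g (A.mul z γ) = g z * ec (χ' γ - c' z γ) := by
    intro γ hγ
    filter_upwards [hχ1 γ hγ] with z hz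
    show f (A.mul z γ) * ec (ℓ (A.mul z γ)) = f z * ec (ℓ z) * ec (χ γ + ℓ γ - c' z γ)
    rw [hz, mul_assoc, mul_assoc, ← cec_add, ← cec_add, hc'def]
    congr 3
    ring
  have hg1 : ∀ z, g z ≠ 0 := by
    intro z
    have h1 : ‖f z‖ = 1 := hf.2 z
    refine mul_ne_zero ?_ (Circle.coe_ne_zero _)
    intro h0
    rw [h0, norm_zero] at h1
    exact zero_ne_one h1
  -- multiplicativity modulo integers
  have hmul : ∀ γ γ', IsInt γ → IsInt γ' →
      ∃ n : ℤ, χ' (A.mul γ γ') - (χ' γ + χ' γ' - c' γ γ') = n := by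
    intro γ γ' hγ hγ'
    have h1 := hg _ (A.int γ γ' hγ hγ')
    have h2 := hg γ hγ
    have h3 : ∀ᵐ z, g (A.mul (A.mul z γ) γ') = g (A.mul z γ) * ec (χ' γ' - c' (A.mul z γ) γ') :=
      (hV d A γ).2.quasiMeasurePreserving.ae (hg γ' hγ')
    obtain ⟨z, hz1, hz2, hz3⟩ := (h1.and (h2.and h3)).exists
    rw [← A.assoc] at hz1
    have hz4 : g z * (ec (χ' (A.mul γ γ') - c' z (A.mul γ γ')) : ℂ)
        = g z * ((ec (χ' γ - c' z γ) : ℂ) * (ec (χ' γ' - c' (A.mul z γ) γ') : ℂ)) := by
      calc g z * (ec (χ' (A.mul γ γ') - c' z (A.mul γ γ')) : ℂ)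
          = g (A.mul (A.mul z γ) γ') := hz1.symm
        _ = g (A.mul z γ) * (ec (χ' γ' - c' (A.mul z γ) γ') : ℂ) := hz3
        _ = (g z * (ec (χ' γ - c' z γ) : ℂ)) * (ec (χ' γ' - c' (A.mul z γ) γ') : ℂ) := by rw [hz2]
        _ = _ := mul_assoc _ _ _
    rw [← cec_add] at hz4
    have h4 := mul_left_cancel₀ (hg1 z) hz4
    have h5 : ec (χ' (A.mul γ γ') - c' z (A.mul γ γ'))
        = ec (χ' γ - c' z γ + (χ' γ' - c' (A.mul z γ) γ')) := Subtype.ext h4
    obtain ⟨n, hn⟩ := ec_eq_iff.mp h5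
    refine ⟨n, ?_⟩
    have h6 := hcoc'.coc z γ γ'
    linarith
  -- vanishing on the axes
  have hsing : ∀ i (n : ℤ), IsInt (A.ax i n) := by
    intro i n j
    by_cases hj : j = i
    · subst hj
      exact ⟨n, by show (Pi.single j (n : ℝ) : Fin d → ℝ) j = n; rw [Pi.single_eq_same]⟩
    · exact ⟨0, by show (Pi.single i (n : ℝ) : Fin d → ℝ) j = _; rw [Pi.single_eq_of_ne hj]; simp⟩
  have hax : ∀ i (m n : ℤ), ∃ k : ℤ, χ' (A.ax i ((m + n : ℤ) : ℝ))
      - (χ' (A.ax i (m : ℝ)) + χ' (A.ax i (n : ℝ))) = k := by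
    intro i m n
    obtain ⟨k, hk⟩ := hmul (A.ax i m) (A.ax i n) (hsing i m) (hsing i n)
    refine ⟨k, ?_⟩
    have h1 : A.mul (A.ax i m) (A.ax i n) = A.ax i ((m + n : ℤ) : ℝ) := by
      push_cast
      exact (A.ax_add i m n).symm
    have h2 : c' (A.ax i m) (A.ax i n) = 0 := by
      refine hcoc'.nrm i _ _ (fun j hj => ?_) (fun j hj => ?_)
      · show (Pi.single i (m : ℝ) : Fin d → ℝ) j = 0
        exact Pi.single_eq_of_ne (ne_of_gt hj) _
      · show (Pi.single i (n : ℝ) : Fin d → ℝ) j = 0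
        exact Pi.single_eq_of_ne (ne_of_lt hj) _
    rw [h1, h2, sub_zero] at hk
    exact hk
  have hax1 : ∀ i, χ' (A.ax i ((1 : ℤ) : ℝ)) = 0 := by
    intro i
    show χ _ + ℓ _ = 0
    rw [Int.cast_one, hℓax]
    ring
  have haxn : ∀ i (n : ℤ), ∃ k : ℤ, χ' (A.ax i (n : ℝ)) = k := by
    intro i n
    induction n using Int.induction_on with
    | zero =>
      obtain ⟨k, hk⟩ := hax i 0 0
      refine ⟨-k, ?_⟩
      rw [add_zero] at hk
      rw [Int.cast_neg]
      linarith
    | succ m ih =>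
      obtain ⟨k, hk⟩ := ih
      obtain ⟨k', hk'⟩ := hax i m 1
      refine ⟨k' + k, ?_⟩
      rw [hax1, hk] at hk'
      push_cast at hk' ⊢
      linarith
    | pred m ih =>
      obtain ⟨k, hk⟩ := ih
      obtain ⟨k', hk'⟩ := hax i (-m - 1) 1
      refine ⟨k - k', ?_⟩
      have e : (-(m : ℤ) - 1 + 1) = -m := by ring
      rw [hax1, e, hk] at hk'
      push_cast at hk' ⊢
      linarith
  -- vanishing everywhere
  have hall : ∀ γ, IsInt γ → ∃ k : ℤ, χ' γ = k := by
    intro γ hγ
    let lo : ℕ → (Fin d → ℝ) := fun m j => if (j : ℕ) < m then γ j else 0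
    have hlo : ∀ m, IsInt (lo m) := by
      intro m j
      by_cases h : (j : ℕ) < m
      · obtain ⟨k, hk⟩ := hγ j
        exact ⟨k, by simp only [lo, h, if_true, hk]⟩
      · exact ⟨0, by simp only [lo, h, if_false]; simp⟩
    have key : ∀ m, m ≤ d → ∃ k : ℤ, χ' (lo m) = k := by
      intro m
      induction m with
      | zero =>
        intro _
        have h0 : lo 0 = 0 := by funext j; simp [lo]
        rw [h0]
        obtain ⟨n, hn⟩ := hmul 0 0 PG.int_zero PG.int_zero
        refine ⟨-n, ?_⟩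
        rw [A.zero_mul, hcoc'.zero] at hn
        push_cast
        linarith
      | succ m ih =>
        intro hm
        obtain ⟨k, hk⟩ := ih (by omega)
        let i : Fin d := ⟨m, hm⟩
        obtain ⟨a, ha⟩ := hγ i
        obtain ⟨k', hk'⟩ := haxn i a
        obtain ⟨n, hn⟩ := hmul (lo m) (A.ax i (a : ℝ)) (hlo m) (hsing i a)
        have hs1 : ∀ j, i < j → lo m j = 0 := by
          intro j hj
          have : m < (j : ℕ) := hj
          simp only [lo]
          rw [if_neg (by omega)]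
        have hs2 : ∀ j, j < i → (A.ax i (a : ℝ) : Fin d → ℝ) j = 0 := fun j hj => by
          show (Pi.single i (a : ℝ) : Fin d → ℝ) j = 0
          exact Pi.single_eq_of_ne (ne_of_lt hj) _
        have h1 : A.mul (lo m) (A.ax i (a : ℝ)) = lo (m + 1) := by
          rw [A.second i _ _ hs1 hs2]
          funext j
          show lo m j + (Pi.single i (a : ℝ) : Fin d → ℝ) j = lo (m + 1) j
          simp only [lo]
          rcases lt_trichotomy (j : ℕ) m with h | h | h
          · rw [if_pos h, if_pos (by omega), Pi.single_eq_of_ne (fun e => by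
              rw [e] at h; exact lt_irrefl _ h), add_zero]
          · have hji : j = i := Fin.ext h
            rw [if_neg (by omega), if_pos (by omega), hji, Pi.single_eq_same, ha, zero_add]
          · rw [if_neg (by omega), if_neg (by omega), Pi.single_eq_of_ne (fun e => by
              rw [e] at h; exact lt_irrefl _ h), add_zero]
        have h2 : c' (lo m) (A.ax i (a : ℝ)) = 0 := hcoc'.nrm i _ _ hs1 hs2
        rw [h1, h2, hk, hk'] at hn
        refine ⟨n + (k + k'), ?_⟩
        push_cast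
        linarith
    obtain ⟨k, hk⟩ := key d le_rfl
    refine ⟨k, ?_⟩
    have : lo d = γ := by funext j; simp [lo]
    rwa [this] at hk
  refine ⟨hcoc', ?_, ?_⟩
  · intro x y hx hy
    obtain ⟨n, hn⟩ := hmul x y hx hy
    obtain ⟨a, ha⟩ := hall x hx
    obtain ⟨b, hb⟩ := hall y hy
    obtain ⟨e, he⟩ := hall _ (A.int x y hx hy)
    refine ⟨n - e + a + b, ?_⟩
    push_cast
    rw [ha, hb, he] at hn
    linarith
  · intro γ hγ
    obtain ⟨k, hk⟩ := hall γ hγ
    filter_upwards [hg γ hγ] with z hz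
    have e : ec (χ' γ - c' z γ) = ec (-(c' z γ)) := ec_eq_iff.mpr ⟨k, by rw [hk]; ring⟩
    have h1 : g (A.mul z γ) = g z * ec (-(c' z γ)) := by
      rw [hz, e]
    exact h1

end MPd26.HK
end

section
set_option autoImplicit false

open MeasureTheory Filter Topology
open scoped ComplexConjugate

namespace MPd26.HK.OnePar

/-! ### Real cocycles near zero -/

/-- A continuous real cocycle near `0` is a coboundary. -/
lemma cob (c : ℝ → ℝ → ℝ) (hc : Continuous fun q : ℝ × ℝ => c q.1 q.2) {D : ℝ} (hD : 0 < D)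
    (hcoc : ∀ s t r, |s| ≤ D → |t| ≤ D → |r| ≤ D → c s t + c (s + t) r = c s (t + r) + c t r) :
    ∃ b : ℝ → ℝ, Continuous b ∧
      ∀ s t, |s| ≤ D / 2 → |t| ≤ D / 2 → c s t = b s + b t - b (s + t) := by
  have c1 : ∀ s, Continuous fun t => c s t := fun s =>
    hc.comp (continuous_const.prodMk continuous_id)
  have c2 : ∀ t, Continuous fun s => c s t := fun t =>
    hc.comp (continuous_id.prodMk continuous_const)
  let B : ℝ → ℝ := fun t => ∫ u in (0 : ℝ)..D, c t u
  let C : ℝ → ℝ := fun t => ∫ w in (0 : ℝ)..t, c w D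
  have hB : Continuous B := by
    exact intervalIntegral.continuous_parametric_intervalIntegral_of_continuous' hc 0 D
  have hC : Continuous C := by
    exact intervalIntegral.continuous_primitive (fun a b => (c2 D).intervalIntegrable a b) 0
  refine ⟨fun t => (B t - C t) / D, (hB.sub hC).div_const D, ?_⟩
  intro s t hs ht
  have hs' : |s| ≤ D := by linarith [hs]
  have ht' : |t| ≤ D := by linarith [ht]
  have e1 : D * c s t + B (s + t) = (∫ u in (0 : ℝ)..D, c s (t + u)) + B t := by
    have h1 : ∫ u in (0 : ℝ)..D, (c s t + c (s + t) u) =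
        ∫ u in (0 : ℝ)..D, (c s (t + u) + c t u) := by
      refine intervalIntegral.integral_congr fun u hu => ?_
      rw [Set.uIcc_of_le hD.le] at hu
      exact hcoc s t u hs' ht' (by rw [abs_of_nonneg hu.1]; exact hu.2)
    have k1 : Continuous fun u => c s (t + u) := (c1 s).comp (continuous_const.add continuous_id)
    rw [intervalIntegral.integral_add (by simp) ((c1 _).intervalIntegrable _ _),
      intervalIntegral.integral_add (k1.intervalIntegrable _ _) ((c1 _).intervalIntegrable _ _),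
      intervalIntegral.integral_const] at h1
    simpa [smul_eq_mul] using h1
  have e2 : (∫ u in (0 : ℝ)..D, c s (t + u)) = ∫ w in t..(t + D), c s w := by
    have := intervalIntegral.integral_comp_add_left (a := 0) (b := D) (fun w => c s w) t
    rw [this, add_zero]
  have e3 : (∫ w in t..(t + D), c s w) = B s + (∫ w in (0 : ℝ)..t, (c s (w + D) - c s w)) := by
    have h1 : (∫ w in t..(t + D), c s w) = (∫ w in (0 : ℝ)..D, c s w) +
        (∫ w in D..(t + D), c s w) - ∫ w in (0 : ℝ)..t, c s w := by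
      have i : ∀ a b, IntervalIntegrable (fun w => c s w) volume a b := fun a b =>
        (c1 s).intervalIntegrable a b
      have h2 := intervalIntegral.integral_add_adjacent_intervals (i 0 t) (i t (t + D))
      have h3 := intervalIntegral.integral_add_adjacent_intervals (i 0 D) (i D (t + D))
      linarith
    have h4 : (∫ w in D..(t + D), c s w) = ∫ w in (0 : ℝ)..t, c s (w + D) := by
      have := intervalIntegral.integral_comp_add_right (a := 0) (b := t) (fun w => c s w) D
      rw [this, zero_add]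
    have k1 : Continuous fun w => c s (w + D) := (c1 s).comp (continuous_id.add continuous_const)
    rw [h1, h4, intervalIntegral.integral_sub (k1.intervalIntegrable _ _)
      ((c1 s).intervalIntegrable _ _)]
    simp only [B]
    ring
  have e4 : (∫ w in (0 : ℝ)..t, (c s (w + D) - c s w)) = C (s + t) - C s - C t := by
    have h1 : (∫ w in (0 : ℝ)..t, (c s (w + D) - c s w)) =
        ∫ w in (0 : ℝ)..t, (c (s + w) D - c w D) := by
      refine intervalIntegral.integral_congr fun w hw => ?_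
      have hw' : |w| ≤ D := by
        rcases Set.mem_uIcc.1 hw with ⟨h1, h2⟩ | ⟨h1, h2⟩
        · rw [abs_of_nonneg h1]; linarith [le_abs_self t]
        · rw [abs_of_nonpos h2]; linarith [neg_abs_le t]
      have := hcoc s w D hs' hw' (by rw [abs_of_pos hD])
      show c s (w + D) - c s w = c (s + w) D - c w D
      linarith
    have i : ∀ a b, IntervalIntegrable (fun w => c w D) volume a b := fun a b =>
      (c2 D).intervalIntegrable a b
    have h2 : (∫ w in (0 : ℝ)..t, c (s + w) D) = ∫ w in s..(s + t), c w D := by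
      have := intervalIntegral.integral_comp_add_left (a := 0) (b := t) (fun w => c w D) s
      rw [this, add_zero]
    have h3 := intervalIntegral.integral_add_adjacent_intervals (i 0 s) (i s (s + t))
    have k1 : Continuous fun w => c (s + w) D := (c2 D).comp (continuous_const.add continuous_id)
    rw [h1, intervalIntegral.integral_sub (k1.intervalIntegrable _ _) (i _ _), h2]
    simp only [C]
    linarith
  rw [e2, e3, e4] at e1
  simp only
  field_simp
  linarith

/-! ### Extension of local homomorphisms -/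

section Ext
variable {E : Type} [Group E]

lemma pow_loc {f : ℝ → E} {D : ℝ} (hD : 0 < D)
    (hf : ∀ s t, |s| ≤ D → |t| ≤ D → |s + t| ≤ D → f (s + t) = f s * f t)
    (n : ℕ) (x : ℝ) (hx : |x| ≤ D) (hn : |(n : ℝ) * x| ≤ D) : f (n * x) = f x ^ n := by
  have f0 : f 0 = 1 := by
    have := hf 0 0 (by simpa using hD.le) (by simpa using hD.le) (by simpa using hD.le)
    simpa using this
  induction n with
  | zero => simp [f0]
  | succ n ih =>
    have h1 : |(n : ℝ) * x| ≤ D := by
      refine le_trans ?_ hn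
      rw [abs_mul, abs_mul]
      refine mul_le_mul_of_nonneg_right ?_ (abs_nonneg _)
      rw [abs_of_nonneg (Nat.cast_nonneg n), abs_of_nonneg (Nat.cast_nonneg _)]
      push_cast; linarith
    have h2 : ((n + 1 : ℕ) : ℝ) * x = n * x + x := by push_cast; ring
    rw [h2, hf _ _ h1 hx (by rw [← h2]; exact hn), ih h1, pow_succ]

/-- A continuous local homomorphism of `ℝ` extends. -/
lemma extend [TopologicalSpace E] [IsTopologicalGroup E] (f : ℝ → E) {D : ℝ} (hD : 0 < D)
    (hf : ∀ s t, |s| ≤ D → |t| ≤ D → |s + t| ≤ D → f (s + t) = f s * f t)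
    (hc : ContinuousAt f 0) :
    ∃ b : ℝ → E, Continuous b ∧ (∀ s t, b (s + t) = b s * b t) ∧
      ∀ t : ℝ, ∃ n : ℕ, 0 < n ∧ |t / (n : ℝ)| ≤ D ∧ b t = f (t / (n : ℝ)) ^ n := by
  let N : ℝ → ℕ := fun t => ⌈|t| / D⌉₊ + 1
  have hN : ∀ t, 0 < N t := fun t => Nat.succ_pos _
  have key : ∀ (t : ℝ) (n : ℕ), |t| / D ≤ n → 0 < n → |t / n| ≤ D := by
    intro t n h1 h2
    have h3 : (0 : ℝ) < n := by exact_mod_cast h2
    rw [abs_div, abs_of_pos h3, div_le_iff₀ h3]
    rw [div_le_iff₀ hD] at h1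
    linarith
  have hND : ∀ t : ℝ, |t| / D ≤ (N t : ℝ) := fun t => by
    have := Nat.le_ceil (|t| / D)
    show |t| / D ≤ ((⌈|t| / D⌉₊ + 1 : ℕ) : ℝ)
    push_cast; linarith
  have indep : ∀ (t : ℝ) (n m : ℕ), |t| / D ≤ n → 0 < n → |t| / D ≤ m → 0 < m →
      f (t / n) ^ n = f (t / m) ^ m := by
    have half : ∀ (t : ℝ) (n m : ℕ), |t| / D ≤ n → 0 < n → 0 < m →
        f (t / n) ^ n = f (t / (n * m : ℕ)) ^ (n * m) := by
      intro t n m h1 h2 h3
      have hn : (n : ℝ) ≠ 0 := by exact_mod_cast h2.ne'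
      have hm : (m : ℝ) ≠ 0 := by exact_mod_cast h3.ne'
      have h4 : t / n = m * (t / (n * m : ℕ)) := by push_cast; field_simp
      have h5 : |t| / D ≤ ((n * m : ℕ) : ℝ) := by
        refine h1.trans ?_
        have : n ≤ n * m := Nat.le_mul_of_pos_right n h3
        exact_mod_cast this
      have h6 : f (t / n) = f (t / (n * m : ℕ)) ^ m := by
        conv_lhs => rw [h4]
        exact pow_loc hD hf m _ (key t _ h5 (Nat.mul_pos h2 h3)) (by rw [← h4]; exact key t n h1 h2)
      rw [h6, ← pow_mul, mul_comm]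
    intro t n m h1 h2 h3 h4
    rw [half t n m h1 h2 h4, half t m n h3 h4 h2, mul_comm n m]
  let b : ℝ → E := fun t => f (t / N t) ^ N t
  have hb : ∀ (t : ℝ) (n : ℕ), |t| / D ≤ n → 0 < n → b t = f (t / n) ^ n := fun t n h1 h2 =>
    indep t (N t) n (hND t) (hN t) h1 h2
  have hadd : ∀ s t, b (s + t) = b s * b t := by
    intro s t
    let n : ℕ := N s + N t
    have hn : 0 < n := Nat.add_pos_left (hN s) _
    have hs : |s| / D ≤ n := by
      have := hND s
      have h2 : (0 : ℝ) ≤ N t := Nat.cast_nonneg _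
      simp only [n]; push_cast; linarith
    have ht : |t| / D ≤ n := by
      have := hND t
      have h2 : (0 : ℝ) ≤ N s := Nat.cast_nonneg _
      simp only [n]; push_cast; linarith
    have hst : |s + t| / D ≤ n := by
      have h1 := hND s
      have h2 := hND t
      have h3 : |s + t| / D ≤ |s| / D + |t| / D := by
        rw [← add_div]
        exact div_le_div_of_nonneg_right (abs_add_le s t) hD.le
      simp only [n]; push_cast; linarith
    have k1 := key s n hs hn
    have k2 := key t n ht hn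
    have k3 := key (s + t) n hst hn
    have e : (s + t) / n = s / n + t / n := by ring
    have e' : (s + t) / n = t / n + s / n := by ring
    have m1 : f ((s + t) / n) = f (s / n) * f (t / n) := by
      rw [e]; exact hf _ _ k1 k2 (by rw [← e]; exact k3)
    have m2 : f ((s + t) / n) = f (t / n) * f (s / n) := by
      rw [e']; exact hf _ _ k2 k1 (by rw [← e']; exact k3)
    have hcomm : Commute (f (s / n)) (f (t / n)) := by
      unfold Commute SemiconjBy
      rw [← m1, m2]
    rw [hb _ n hst hn, hb _ n hs hn, hb _ n ht hn, m1, hcomm.mul_pow]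
  have b0 : b 0 = 1 := by
    have := hadd 0 0
    simpa using this
  have hloc : ∀ t, |t| ≤ D → b t = f t := by
    intro t ht
    have h1 : |t| / D ≤ ((1 : ℕ) : ℝ) := by rw [div_le_iff₀ hD]; simpa using ht
    rw [hb t 1 h1 one_pos]; simp
  have hcont0 : ContinuousAt b 0 := by
    refine hc.congr ?_
    have : Metric.closedBall (0 : ℝ) D ∈ 𝓝 (0 : ℝ) := Metric.closedBall_mem_nhds 0 hD
    filter_upwards [this] with t ht
    refine (hloc t ?_).symm
    simpa [Real.dist_eq] using ht
  refine ⟨b, ?_, hadd, fun t => ⟨N t, hN t, key t _ (hND t) (hN t), rfl⟩⟩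
  rw [continuous_iff_continuousAt]
  intro t₀
  have h1 : b = fun t => b t₀ * b (t - t₀) := by
    funext t
    rw [← hadd]; congr 1; ring
  rw [h1]
  refine continuousAt_const.mul ?_
  have h2 : ContinuousAt (fun t : ℝ => t - t₀) t₀ := by fun_prop
  have h3 : ContinuousAt b ((fun t : ℝ => t - t₀) t₀) := by simpa using hcont0
  exact ContinuousAt.comp (f := fun t : ℝ => t - t₀) h3 h2

end Ext

/-! ### Normalised local lifts -/

lemma ec_add (s t : ℝ) : ec (s + t) = ec s * ec t := by
  unfold ec; rw [mul_add, Circle.exp_add]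

lemma ec_zero : ec 0 = 1 := by unfold ec; simp

lemma ec_eq_one {t : ℝ} (h : ec t = 1) : ∃ n : ℤ, t = n := by
  unfold ec at h
  rw [Circle.exp_eq_one] at h
  obtain ⟨n, hn⟩ := h
  refine ⟨n, ?_⟩
  have h2 : (2 * Real.pi) ≠ 0 := by positivity
  have h3 : (2 * Real.pi) * t = (2 * Real.pi) * n := by rw [hn]; ring
  exact mul_left_cancel₀ h2 h3

lemma continuous_ec : Continuous ec := by
  unfold ec
  exact Circle.exp.continuous.comp (continuous_const.mul continuous_id)

section Main
variable {d : ℕ} {A : PG d} {E : Type} [Group E] [TopologicalSpace E] (K : CExt A E)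

lemma I_iota (u : Circle) : K.I (K.ι u) = u := by
  have := K.I_ι u 1
  simpa [K.I_one] using this

lemma iota_inj {u v : Circle} (h : K.ι u = K.ι v) : u = v := by
  have := congrArg K.I h
  rw [I_iota, I_iota] at this
  exact Circle.ext this

/-- normalisation of a lift -/
noncomputable def nm (l : E) : E := K.ι (Circle.exp (-(Complex.arg (K.I l)))) * l

lemma p_nm (l : E) : K.p (nm K l) = K.p l := by
  unfold nm; rw [map_mul, K.p_ι, one_mul]

lemma I_nm (l : E) : K.I (nm K l) = (‖K.I l‖ : ℂ) := by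
  unfold nm
  rw [K.I_ι, Circle.coe_exp]
  have h := Complex.norm_mul_exp_arg_mul_I (K.I l)
  have : (Complex.exp ((-(Complex.arg (K.I l)) : ℝ) * Complex.I)) *
      Complex.exp (Complex.arg (K.I l) * Complex.I) = 1 := by
    rw [← Complex.exp_add]
    push_cast
    simp
  linear_combination (‖K.I l‖ : ℂ) * this -
    (Complex.exp ((-(Complex.arg (K.I l)) : ℝ) * Complex.I)) * h

lemma nm_one : nm K 1 = 1 := by
  unfold nm; rw [K.I_one]; simp

lemma nm_continuousAt [IsTopologicalGroup E] {l : E} (h : K.I l ∈ Complex.slitPlane) :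
    ContinuousAt (nm K) l := by
  unfold nm
  refine ContinuousAt.mul ?_ continuousAt_id
  refine K.ι_cont.continuousAt.comp (Circle.exp.continuous.continuousAt.comp ?_)
  exact (ContinuousAt.comp (Complex.continuousAt_arg h) K.I_cont.continuousAt).neg

lemma nm_unique {W : Set E} (hsep : ∀ l ∈ W, K.p l = 1 → ∃ u : Circle, K.ι u = l) {l l' : E}
    (hp : K.p l = K.p l') (hl : K.I l ≠ 0) (hl' : K.I l' ≠ 0) (hW : nm K l / nm K l' ∈ W) :
    nm K l = nm K l' := by
  obtain ⟨u, hu⟩ := hsep _ hW (by rw [map_div, p_nm, p_nm, hp, div_self'])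
  have h1 : nm K l = K.ι u * nm K l' := by rw [hu, div_mul_cancel]
  have h2 := congrArg K.I h1
  rw [K.I_ι, I_nm, I_nm] at h2
  have h3 : (u : ℂ) = ((‖K.I l‖ / ‖K.I l'‖ : ℝ) : ℂ) := by
    have : (‖K.I l'‖ : ℂ) ≠ 0 := by
      rw [Ne, Complex.ofReal_eq_zero, norm_eq_zero]; exact hl'
    push_cast
    field_simp
    rw [h2]
  have h4 : ‖K.I l‖ / ‖K.I l'‖ = 1 := by
    have h5 : ‖(u : ℂ)‖ = 1 := Circle.norm_coe u
    rw [h3, Complex.norm_real, Real.norm_eq_abs, abs_of_nonneg (by positivity)] at h5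
    exact h5
  have h6 : u = 1 := by
    apply Circle.ext
    rw [h3, h4]; simp
  rw [h1, h6, map_one, one_mul]

/-- A neighbourhood of `1` where normalised lifts are unique, with a continuous local section. -/
lemma exists_loc [IsTopologicalGroup E] :
    ∃ (W : Set E) (F : A.Gp → E), IsOpen W ∧ (1 : E) ∈ W ∧ (∀ l ∈ W, F (K.p l) = nm K l) ∧
      ∀ l ∈ W, ContinuousAt F (K.p l) := by
  classical
  obtain ⟨W0, hW0, hsep⟩ := K.sep
  obtain ⟨V1, hV1, hV1'⟩ := exists_nhds_split_inv hW0
  have c1 : ContinuousAt (nm K) 1 := nm_continuousAt K (by rw [K.I_one]; simp)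
  have hW2 : {l : E | nm K l ∈ V1 ∧ ‖K.I l - 1‖ < 1 / 2} ∈ 𝓝 (1 : E) := by
    refine inter_mem (c1 (by rw [nm_one]; exact hV1)) ?_
    have : Continuous fun l => ‖K.I l - 1‖ := (K.I_cont.sub continuous_const).norm
    refine this.continuousAt.eventually (Iio_mem_nhds ?_)
    show ‖K.I 1 - 1‖ < 1 / 2
    rw [K.I_one]; norm_num
  obtain ⟨W, hWsub, hWo, h1W⟩ := mem_nhds_iff.1 hW2
  have hslit : ∀ l ∈ W, K.I l ∈ Complex.slitPlane := by
    intro l hl
    have h := (hWsub hl).2
    left
    have h2 := (Complex.abs_re_le_norm (K.I l - 1)).trans_lt h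
    rw [Complex.sub_re, Complex.one_re, abs_lt] at h2
    linarith [h2.1]
  have hne : ∀ l ∈ W, K.I l ≠ 0 := fun l hl => Complex.slitPlane_ne_zero (hslit l hl)
  let F : A.Gp → E := fun g => if h : ∃ l ∈ W, K.p l = g then nm K h.choose else 1
  have hF : ∀ l ∈ W, F (K.p l) = nm K l := by
    intro l hl
    have h : ∃ l' ∈ W, K.p l' = K.p l := ⟨l, hl, rfl⟩
    have : F (K.p l) = nm K h.choose := dif_pos h
    rw [this]
    have h1 := h.choose_spec
    exact nm_unique K hsep h1.2 (hne _ h1.1) (hne _ hl)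
      (hV1' _ (hWsub h1.1).1 _ (hWsub hl).1)
  refine ⟨W, F, hWo, h1W, hF, ?_⟩
  intro l₀ hl₀
  unfold ContinuousAt
  rw [hF l₀ hl₀]
  intro O hO
  have hM : {m : E | m * l₀ ∈ W ∧ nm K (m * l₀) ∈ O} ∈ 𝓝 (1 : E) := by
    have hm : ContinuousAt (fun m : E => m * l₀) 1 := (continuous_mul_const l₀).continuousAt
    have e : (1 : E) * l₀ = l₀ := one_mul l₀
    refine inter_mem (hm (by show W ∈ 𝓝 (1 * l₀); rw [e]; exact hWo.mem_nhds hl₀)) ?_
    have h2 : ContinuousAt (fun m : E => nm K (m * l₀)) 1 :=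
      ContinuousAt.comp (g := nm K) (f := fun m : E => m * l₀)
        (by rw [e]; exact nm_continuousAt K (hslit l₀ hl₀)) hm
    exact h2 (by show O ∈ 𝓝 (nm K (1 * l₀)); rw [e]; exact hO)
  have h3 := K.isOpen _ hM
  have h4 : ContinuousAt (fun g : A.Gp => g * (K.p l₀)⁻¹) (K.p l₀) :=
    (continuous_mul_const _).continuousAt
  have h5 := h4 (show _ ∈ 𝓝 (K.p l₀ * (K.p l₀)⁻¹) by rw [mul_inv_cancel]; exact h3)
  rw [mem_map] at h5 ⊢
  refine mem_of_superset h5 ?_
  rintro g ⟨m, ⟨hm1, hm2⟩, hm3⟩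
  have h6 : g = K.p (m * l₀) := by rw [map_mul, hm3]; simp
  show F g ∈ O
  rw [h6, hF _ hm1]
  exact hm2

/-- The local cocycle on a one-parameter subgroup. -/
lemma local_hom [IsTopologicalGroup E] (a : ℝ → A.Gp) (ha : Continuous a)
    (hadd : ∀ s t, a (s + t) = a s * a t) :
    ∃ (f : ℝ → E) (D : ℝ), 0 < D ∧ ContinuousAt f 0 ∧ (∀ t, |t| ≤ D → K.p (f t) = a t) ∧
      ∀ s t, |s| ≤ D → |t| ≤ D → |s + t| ≤ D → f (s + t) = f s * f t := by
  obtain ⟨W, F, hWo, h1W, hF, hFc⟩ := exists_loc K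
  obtain ⟨W0, hW0, hsep⟩ := K.sep
  have a0 : a 0 = 1 := by
    have := hadd 0 0
    simpa using this
  have hpW : K.p '' W ∈ 𝓝 (1 : A.Gp) := K.isOpen W (hWo.mem_nhds h1W)
  have h1 : ∀ᶠ r in 𝓝 (0 : ℝ), a r ∈ K.p '' W := by
    have : ContinuousAt a 0 := ha.continuousAt
    exact this (by rw [a0]; exact hpW)
  obtain ⟨ε, hε, hε'⟩ := Metric.eventually_nhds_iff.1 h1
  have hWr : ∀ r : ℝ, |r| < ε → ∃ l ∈ W, K.p l = a r := by
    intro r hr
    obtain ⟨l, hl, hl'⟩ := hε' (y := r) (by simpa [Real.dist_eq] using hr)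
    exact ⟨l, hl, hl'⟩
  have hFa : ∀ r : ℝ, |r| < ε → ContinuousAt (fun r => F (a r)) r := by
    intro r hr
    obtain ⟨l, hl, hl'⟩ := hWr r hr
    have h2 : ContinuousAt F (a r) := by rw [← hl']; exact hFc l hl
    exact ContinuousAt.comp (g := F) (f := a) h2 ha.continuousAt
  have hpF : ∀ r : ℝ, |r| < ε → K.p (F (a r)) = a r := by
    intro r hr
    obtain ⟨l, hl, hl'⟩ := hWr r hr
    rw [← hl', hF l hl, p_nm]
  have hF1 : F (a 0) = 1 := by
    rw [a0, ← map_one K.p, hF 1 h1W, nm_one]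
  let Δ : ℝ × ℝ → E := fun q => F (a q.1) * F (a q.2) * (F (a (q.1 + q.2)))⁻¹
  have hΔc : ∀ q : ℝ × ℝ, |q.1| < ε → |q.2| < ε → |q.1 + q.2| < ε → ContinuousAt Δ q := by
    intro q h1 h2 h3
    have k1 : ContinuousAt (fun q : ℝ × ℝ => F (a q.1)) q :=
      ContinuousAt.comp (g := fun r => F (a r)) (f := fun q : ℝ × ℝ => q.1) (hFa _ h1)
        continuousAt_fst
    have k2 : ContinuousAt (fun q : ℝ × ℝ => F (a q.2)) q :=
      ContinuousAt.comp (g := fun r => F (a r)) (f := fun q : ℝ × ℝ => q.2) (hFa _ h2)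
        continuousAt_snd
    have k3 : ContinuousAt (fun q : ℝ × ℝ => F (a (q.1 + q.2))) q :=
      ContinuousAt.comp (g := fun r => F (a r)) (f := fun q : ℝ × ℝ => q.1 + q.2) (hFa _ h3)
        (by fun_prop)
    exact (k1.mul k2).mul k3.inv
  have hΔ0 : Δ (0, 0) = 1 := by
    show F (a 0) * F (a 0) * (F (a (0 + 0)))⁻¹ = 1
    rw [add_zero, hF1]; simp
  have h2 : ∀ᶠ q in 𝓝 ((0 : ℝ), (0 : ℝ)), Δ q ∈ W0 ∧ ‖K.I (Δ q) - 1‖ < 1 / 2 := by
    have hc := hΔc (0, 0) (by simpa using hε) (by simpa using hε) (by simpa using hε)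
    have h0 : ∀ᶠ q in 𝓝 ((0 : ℝ), (0 : ℝ)), Δ q ∈ W0 := hc (by rw [hΔ0]; exact hW0)
    refine h0.and ?_
    have h3 : ContinuousAt (fun q => ‖K.I (Δ q) - 1‖) ((0 : ℝ), (0 : ℝ)) :=
      ((ContinuousAt.comp (g := K.I) (f := Δ) K.I_cont.continuousAt hc).sub
        continuousAt_const).norm
    refine h3.eventually (Iio_mem_nhds ?_)
    show ‖K.I (Δ (0, 0)) - 1‖ < 1 / 2
    rw [hΔ0, K.I_one]; norm_num
  obtain ⟨ε₁, hε₁, hε₁'⟩ := Metric.eventually_nhds_iff.1 h2
  let δ : ℝ := min (ε / 2) ε₁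
  have hδ : 0 < δ := lt_min (by linarith) hε₁
  have hδ1 : δ ≤ ε / 2 := min_le_left _ _
  have hδ2 : δ ≤ ε₁ := min_le_right _ _
  have hΔW : ∀ s t : ℝ, |s| < δ → |t| < δ → Δ (s, t) ∈ W0 ∧ ‖K.I (Δ (s, t)) - 1‖ < 1 / 2 := by
    intro s t hs ht
    refine hε₁' ?_
    rw [Prod.dist_eq]
    refine max_lt ?_ ?_
    · simpa [Real.dist_eq] using lt_of_lt_of_le hs hδ2
    · simpa [Real.dist_eq] using lt_of_lt_of_le ht hδ2
  have hsum : ∀ s t : ℝ, |s| < δ → |t| < δ → |s + t| < ε := by
    intro s t hs ht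
    have := abs_add_le s t
    linarith
  let c : ℝ → ℝ → ℝ := fun s t => Complex.arg (K.I (Δ (s, t))) / (2 * Real.pi)
  have hrel : ∀ s t : ℝ, |s| < δ → |t| < δ →
      F (a s) * F (a t) = K.ι (ec (c s t)) * F (a (s + t)) := by
    intro s t hs ht
    obtain ⟨hW', -⟩ := hΔW s t hs ht
    have hp : K.p (Δ (s, t)) = 1 := by
      show K.p (F (a s) * F (a t) * (F (a (s + t)))⁻¹) = 1
      rw [map_mul, map_mul, map_inv, hpF s (by linarith), hpF t (by linarith),
        hpF (s + t) (hsum s t hs ht), hadd]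
      simp
    obtain ⟨u, hu⟩ := hsep _ hW' hp
    have hu2 : K.I (Δ (s, t)) = u := by rw [← hu, I_iota]
    have hu3 : ec (c s t) = u := by
      show Circle.exp (2 * Real.pi * (Complex.arg (K.I (Δ (s, t))) / (2 * Real.pi))) = u
      have hpi : (2 * Real.pi) ≠ 0 := by positivity
      rw [mul_div_cancel₀ _ hpi, hu2, Circle.exp_arg]
    rw [hu3, hu]
    show _ = F (a s) * F (a t) * (F (a (s + t)))⁻¹ * F (a (s + t))
    rw [inv_mul_cancel_right]
  have hcsmall : ∀ s t : ℝ, |s| < δ → |t| < δ → |c s t| < 1 / 4 := by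
    intro s t hs ht
    obtain ⟨-, h⟩ := hΔW s t hs ht
    have hre : 0 < (K.I (Δ (s, t))).re := by
      have h2 := (Complex.abs_re_le_norm (K.I (Δ (s, t)) - 1)).trans_lt h
      rw [Complex.sub_re, Complex.one_re, abs_lt] at h2
      linarith [h2.1]
    have h3 := Complex.abs_arg_lt_pi_div_two_iff.2 (Or.inl hre)
    show |Complex.arg (K.I (Δ (s, t))) / (2 * Real.pi)| < 1 / 4
    have hpi : 0 < 2 * Real.pi := by positivity
    rw [abs_div, abs_of_pos hpi, div_lt_iff₀ hpi]
    linarith
  have hcc : ∀ s t : ℝ, |s| < δ → |t| < δ →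
      ContinuousAt (fun q : ℝ × ℝ => c q.1 q.2) (s, t) := by
    intro s t hs ht
    obtain ⟨-, h⟩ := hΔW s t hs ht
    have hre : 0 < (K.I (Δ (s, t))).re := by
      have h2 := (Complex.abs_re_le_norm (K.I (Δ (s, t)) - 1)).trans_lt h
      rw [Complex.sub_re, Complex.one_re, abs_lt] at h2
      linarith [h2.1]
    have h3 := hΔc (s, t) (by show |s| < ε; linarith) (by show |t| < ε; linarith)
      (hsum s t hs ht)
    have h4 : ContinuousAt (fun q : ℝ × ℝ => K.I (Δ q)) (s, t) :=
      ContinuousAt.comp (g := K.I) (f := Δ) K.I_cont.continuousAt h3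
    have h5 : ContinuousAt (fun q : ℝ × ℝ => Complex.arg (K.I (Δ q))) (s, t) :=
      ContinuousAt.comp (g := Complex.arg) (f := fun q => K.I (Δ q))
        (Complex.continuousAt_arg (Or.inl hre)) h4
    exact h5.div_const _
  have hccoc : ∀ s t r : ℝ, |s| < δ → |t| < δ → |r| < δ → |s + t| < δ → |t + r| < δ →
      c s t + c (s + t) r = c s (t + r) + c t r := by
    intro s t r hs ht hr hst htr
    have e1 : F (a s) * F (a t) * F (a r) =
        K.ι (ec (c s t + c (s + t) r)) * F (a (s + t + r)) := by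
      rw [hrel s t hs ht, mul_assoc, hrel (s + t) r hst hr, ← mul_assoc, ← map_mul, ← ec_add]
    have e2 : F (a s) * F (a t) * F (a r) =
        K.ι (ec (c s (t + r) + c t r)) * F (a (s + t + r)) := by
      rw [mul_assoc, hrel t r ht hr, ← mul_assoc, ← K.central, mul_assoc, hrel s (t + r) hs htr,
        ← mul_assoc, ← map_mul, ← ec_add, add_comm (c t r), add_assoc s t r]
    have e3 : ec (c s t + c (s + t) r) = ec (c s (t + r) + c t r) :=
      iota_inj K (mul_right_cancel (e1.symm.trans e2))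
    have e4 : ec ((c s t + c (s + t) r) - (c s (t + r) + c t r)) = 1 := by
      have h5 : ec ((c s t + c (s + t) r) - (c s (t + r) + c t r)) * ec (c s (t + r) + c t r)
          = ec (c s t + c (s + t) r) := by rw [← ec_add]; congr 1; ring
      rw [e3] at h5
      exact mul_eq_right.1 h5
    obtain ⟨n, hn⟩ := ec_eq_one e4
    have b1 := abs_lt.1 (hcsmall s t hs ht)
    have b2 := abs_lt.1 (hcsmall (s + t) r hst hr)
    have b3 := abs_lt.1 (hcsmall s (t + r) hs htr)
    have b4 := abs_lt.1 (hcsmall t r ht hr)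
    have h6 : (n : ℝ) < 1 := by rw [← hn]; linarith [b1.2, b2.2, b3.1, b4.1]
    have h7 : (-1 : ℝ) < n := by rw [← hn]; linarith [b1.1, b2.1, b3.2, b4.2]
    have h8 : n < 1 := by exact_mod_cast h6
    have h9 : -1 < n := by exact_mod_cast h7
    have h10 : n = 0 := by omega
    rw [h10] at hn
    push_cast at hn
    linarith
  -- clamp
  let cl : ℝ → ℝ := fun r => max (-(δ / 2)) (min r (δ / 2))
  have hclc : Continuous cl := by
    show Continuous fun r => max (-(δ / 2)) (min r (δ / 2))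
    fun_prop
  have hclb : ∀ r, |cl r| < δ := by
    intro r
    have h1 : cl r ≤ δ / 2 := max_le (by linarith) (min_le_right _ _)
    have h2 : -(δ / 2) ≤ cl r := le_max_left _ _
    rw [abs_lt]; constructor <;> linarith
  have hclid : ∀ r, |r| ≤ δ / 2 → cl r = r := by
    intro r hr
    rw [abs_le] at hr
    show max (-(δ / 2)) (min r (δ / 2)) = r
    rw [min_eq_left hr.2, max_eq_right hr.1]
  let c' : ℝ → ℝ → ℝ := fun s t => c (cl s) (cl t)
  have hc' : Continuous fun q : ℝ × ℝ => c' q.1 q.2 := by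
    rw [continuous_iff_continuousAt]
    intro q
    have h3 : ContinuousAt (fun q : ℝ × ℝ => ((cl q.1, cl q.2) : ℝ × ℝ)) q :=
      ((hclc.comp continuous_fst).prodMk (hclc.comp continuous_snd)).continuousAt
    exact ContinuousAt.comp (g := fun q : ℝ × ℝ => c q.1 q.2)
      (f := fun q : ℝ × ℝ => ((cl q.1, cl q.2) : ℝ × ℝ)) (hcc _ _ (hclb _) (hclb _)) h3
  obtain ⟨b, hb, hb'⟩ := cob c' hc' (D := δ / 4) (by linarith) (by
    intro s t r hs ht hr
    have hst : |s + t| ≤ δ / 2 := (abs_add_le s t).trans (by linarith)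
    have htr : |t + r| ≤ δ / 2 := (abs_add_le t r).trans (by linarith)
    show c (cl s) (cl t) + c (cl (s + t)) (cl r) = c (cl s) (cl (t + r)) + c (cl t) (cl r)
    rw [hclid s (by linarith), hclid t (by linarith), hclid r (by linarith), hclid _ hst,
      hclid _ htr]
    exact hccoc s t r (by linarith) (by linarith) (by linarith) (by linarith) (by linarith))
  refine ⟨fun t => K.ι (ec (-b t)) * F (a t), δ / 8, by linarith, ?_, ?_, ?_⟩
  · refine ContinuousAt.mul ?_ (hFa 0 (by simpa using hε))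
    exact (K.ι_cont.comp (continuous_ec.comp hb.neg)).continuousAt
  · intro t ht
    rw [map_mul, K.p_ι, one_mul, hpF t (by linarith)]
  · intro s t hs ht _
    have h1 : c s t = b s + b t - b (s + t) := by
      have := hb' s t (by linarith) (by linarith)
      rw [← this]
      show c s t = c (cl s) (cl t)
      rw [hclid s (by linarith), hclid t (by linarith)]
    have h2 := hrel s t (by linarith) (by linarith)
    calc K.ι (ec (-b (s + t))) * F (a (s + t))
        = K.ι (ec (-b s + -b t)) * (K.ι (ec (c s t)) * F (a (s + t))) := by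
          rw [← mul_assoc, ← map_mul, ← ec_add, h1]
          congr 3; ring
      _ = K.ι (ec (-b s)) * F (a s) * (K.ι (ec (-b t)) * F (a t)) := by
          rw [← h2, ec_add, map_mul]
          simp only [mul_assoc]
          congr 1
          rw [← mul_assoc, K.central, mul_assoc]

end Main

end MPd26.HK.OnePar

namespace MPd26.HK
open OnePar

theorem specOnePar : SpecOnePar := by
  intro d A E _ _ _ _ K a ha hadd
  obtain ⟨f, D, hD, hf0, hfp, hfa⟩ := local_hom K a ha hadd
  obtain ⟨b, hbc, hba, hbf⟩ := extend f hD hfa hf0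
  refine ⟨b, hbc, hba, fun t => ?_⟩
  obtain ⟨n, hn, hn', hb⟩ := hbf t
  have a0 : a 0 = 1 := by
    have := hadd 0 0
    simpa using this
  have hpow : ∀ (m : ℕ) (x : ℝ), a (m * x) = a x ^ m := by
    intro m x
    induction m with
    | zero => simp [a0]
    | succ m ih =>
      have : ((m + 1 : ℕ) : ℝ) * x = m * x + x := by push_cast; ring
      rw [this, hadd, ih, pow_succ]
  rw [hb, map_pow, hfp _ hn', ← hpow]
  congr 1
  have : (n : ℝ) ≠ 0 := by exact_mod_cast hn.ne'
  field_simp

end MPd26.HK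
end

section
/-!
# MP_d26cd8_an, D5, module M4: the section of a central circle extension over `ℝ^d` and its real
cocycle; one-parameter subgroups in the coordinates of the section.
-/
set_option autoImplicit false

open MeasureTheory ProbabilityTheory Filter Topology
open scoped ComplexConjugate ENNReal

namespace MPd26.HK

namespace SectM

lemma ec_zero : ec 0 = 1 := by unfold ec; simp

lemma ec_add (s t : ℝ) : ec (s + t) = ec s * ec t := by
  unfold ec
  rw [mul_add, Circle.exp_add]

lemma ec_eq_one {t : ℝ} (h : ec t = 1) : ∃ n : ℤ, t = n := by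
  unfold ec at h
  rw [Circle.exp_eq_one] at h
  obtain ⟨n, hn⟩ := h
  refine ⟨n, ?_⟩
  have hpi : (2 * Real.pi) ≠ 0 := by positivity
  have h2 : (2 * Real.pi) * t = (2 * Real.pi) * n := by rw [hn]; ring
  exact mul_left_cancel₀ hpi h2

lemma ec_eq {s t : ℝ} (h : ec s = ec t) : ∃ n : ℤ, s - t = n := by
  apply ec_eq_one
  have h1 : ec s = ec (s - t) * ec t := by rw [← ec_add]; congr 1; ring
  rw [h] at h1
  have h2 : ec (s - t) * ec t = 1 * ec t := by rw [← h1, one_mul]
  exact mul_right_cancel h2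

/-- lifting a circle valued function -/
lemma lift {X : Type} [TopologicalSpace X] [SimplyConnectedSpace X] [LocallyPathConnectedSpace X]
    (u : X → Circle) (hu : Continuous u) (x₀ : X) (h0 : u x₀ = 1) :
    ∃ F : X → ℝ, Continuous F ∧ F x₀ = 0 ∧ ∀ x, u x = ec (F x) := by
  obtain ⟨F, ⟨h1, h2⟩, _⟩ := Circle.isCoveringMap_exp.existsUnique_continuousMap_lifts
    ⟨u, hu⟩ x₀ 0 (by show Circle.exp 0 = u x₀; rw [h0, Circle.exp_zero])
  have hpi : (2 * Real.pi) ≠ 0 := by positivity
  refine ⟨fun x => F x / (2 * Real.pi), F.continuous.div_const _, ?_, fun x => ?_⟩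
  · show F x₀ / _ = 0
    rw [h1, zero_div]
  · have h3 := congrFun h2 x
    show u x = Circle.exp (2 * Real.pi * (F x / (2 * Real.pi)))
    rw [mul_div_cancel₀ _ hpi]
    exact h3.symm

/-- continuous integer valued functions on a connected space are constant -/
lemma int_const {X : Type} [TopologicalSpace X] [PreconnectedSpace X] (h : X → ℝ)
    (hc : Continuous h) (hi : ∀ x, ∃ n : ℤ, h x = n) (x₀ : X) (h0 : h x₀ = 0) (x : X) : h x = 0 := by
  choose n hn using hi
  have hnc : Continuous n := by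
    have e : h = (fun z : ℤ => (z : ℝ)) ∘ n := funext hn
    rw [e] at hc
    exact (Int.isClosedEmbedding_coe_real.isInducing.continuous_iff).mpr hc
  have h1 : n x = n x₀ := PreconnectedSpace.constant inferInstance hnc
  rw [hn x, h1, ← hn x₀, h0]

section ext

variable {d : ℕ} {A : PG d} {E : Type} [Group E] [TopologicalSpace E] [IsTopologicalGroup E]
  [T2Space E] (K : CExt A E)

omit [IsTopologicalGroup E] [T2Space E] in
include K in
lemma ι_inj : Function.Injective K.ι := by
  intro u v h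
  have h1 := K.I_ι u 1
  have h2 := K.I_ι v 1
  rw [mul_one, K.I_one, mul_one] at h1 h2
  rw [h, h2] at h1
  exact (Circle.coe_injective h1).symm

lemma ker_circle {X : Type} [TopologicalSpace X] [PreconnectedSpace X] (k : X → E)
    (hk : Continuous k) (hp : ∀ x, K.p (k x) = 1) (x₀ : X) (h0 : k x₀ = 1) :
    ∃ u : X → Circle, Continuous u ∧ u x₀ = 1 ∧ ∀ x, K.ι (u x) = k x := by
  have hclosed : IsClosed {x | k x ∈ Set.range K.ι} := by
    have : IsCompact (Set.range K.ι) := isCompact_range K.ι_cont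
    exact this.isClosed.preimage hk
  have hopen : IsOpen {x | k x ∈ Set.range K.ι} := by
    rw [isOpen_iff_mem_nhds]
    intro x1 hx1
    obtain ⟨u1, hu1⟩ := hx1
    obtain ⟨W, hW, hW2⟩ := K.sep
    have h1 : Tendsto (fun x => k x * (k x1)⁻¹) (𝓝 x1) (𝓝 1) := by
      have h2 : Continuous (fun x => k x * (k x1)⁻¹) := hk.mul continuous_const
      have h3 := h2.tendsto x1
      rwa [mul_inv_cancel] at h3
    filter_upwards [h1 hW] with x hx
    obtain ⟨u, hu⟩ := hW2 _ hx (by rw [map_mul, map_inv, hp, hp, inv_one, mul_one])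
    refine ⟨u * u1, ?_⟩
    rw [map_mul, hu, hu1, inv_mul_cancel_right]
  have huniv : {x | k x ∈ Set.range K.ι} = Set.univ := by
    refine IsClopen.eq_univ ⟨hclosed, hopen⟩ ⟨x₀, ?_⟩
    exact ⟨1, by rw [map_one, h0]⟩
  have hall : ∀ x, ∃ u, K.ι u = k x := fun x => by
    have : x ∈ {x | k x ∈ Set.range K.ι} := by rw [huniv]; exact Set.mem_univ x
    exact this
  choose u hu using hall
  have huI : ∀ x, (u x : ℂ) = K.I (k x) := by
    intro x
    have h1 := K.I_ι (u x) 1
    rw [mul_one, K.I_one, mul_one, hu] at h1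
    exact h1.symm
  refine ⟨u, ?_, ?_, hu⟩
  · have h2 : Continuous (fun x => ((u x : Circle) : ℂ)) := by
      have : (fun x => ((u x : Circle) : ℂ)) = fun x => K.I (k x) := funext huI
      rw [this]
      exact K.I_cont.comp hk
    exact Topology.IsInducing.subtypeVal.continuous_iff.mpr h2
  · apply ι_inj K
    rw [hu, h0, map_one]

lemma ker_real {X : Type} [TopologicalSpace X] [SimplyConnectedSpace X] [LocallyPathConnectedSpace X]
    [PreconnectedSpace X] (k : X → E)
    (hk : Continuous k) (hp : ∀ x, K.p (k x) = 1) (x₀ : X) (h0 : k x₀ = 1) :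
    ∃ F : X → ℝ, Continuous F ∧ F x₀ = 0 ∧ ∀ x, k x = K.ι (ec (F x)) := by
  obtain ⟨u, hu, hu0, huk⟩ := ker_circle K k hk hp x₀ h0
  obtain ⟨F, hF, hF0, hFu⟩ := lift u hu x₀ hu0
  exact ⟨F, hF, hF0, fun x => by rw [← huk, hFu]⟩

end ext

/-- partial ordered products -/
noncomputable def pr {d : ℕ} {E : Type} [Monoid E] (b : Fin d → ℝ → E) : ℕ → (Fin d → ℝ) → E
  | 0, _ => 1
  | n + 1, x => pr b n x * (if h : n < d then b ⟨n, h⟩ (x ⟨n, h⟩) else 1)

lemma pr_zero {d : ℕ} {E : Type} [Monoid E] (b : Fin d → ℝ → E) (x : Fin d → ℝ) : pr b 0 x = 1 := rfl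

lemma pr_succ {d : ℕ} {E : Type} [Monoid E] (b : Fin d → ℝ → E) (n : ℕ) (h : n < d)
    (x : Fin d → ℝ) : pr b (n + 1) x = pr b n x * b ⟨n, h⟩ (x ⟨n, h⟩) := by
  show pr b n x * (if h : n < d then b ⟨n, h⟩ (x ⟨n, h⟩) else 1) = _
  rw [dif_pos h]

lemma ofFn_prod {d : ℕ} {E : Type} [Monoid E] (b : Fin d → ℝ → E) (x : Fin d → ℝ) (n : ℕ)
    (h : n ≤ d) : (List.ofFn (fun i : Fin n => b (Fin.castLE h i) (x (Fin.castLE h i)))).prod
      = pr b n x := by
  induction n with
  | zero => simp [pr_zero]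
  | succ n ih =>
    rw [List.ofFn_succ', List.concat_eq_append, List.prod_append, List.prod_singleton,
      pr_succ b n (by omega) x]
    congr 1
    exact ih (by omega)

lemma oprod_eq {d : ℕ} {E : Type} [Monoid E] (b : Fin d → ℝ → E) (x : Fin d → ℝ) :
    oprod b x = pr b d x := ofFn_prod b x d le_rfl

lemma pr_continuous {d : ℕ} {E : Type} [Monoid E] [TopologicalSpace E] [ContinuousMul E]
    (b : Fin d → ℝ → E) (hb : ∀ i, Continuous (b i)) (n : ℕ) (h : n ≤ d) :
    Continuous (pr b n) := by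
  induction n with
  | zero => exact continuous_const
  | succ n ih =>
    have h1 : pr b (n + 1) = fun x => pr b n x * b ⟨n, by omega⟩ (x ⟨n, by omega⟩) := by
      funext x; exact pr_succ b n (by omega) x
    rw [h1]
    exact (ih (by omega)).mul ((hb _).comp (continuous_apply _))

lemma pr_hom {d : ℕ} {E F : Type} [Monoid E] [Monoid F] (p : E →* F) (b : Fin d → ℝ → E) (n : ℕ)
    (h : n ≤ d) (x : Fin d → ℝ) : p (pr b n x) = pr (fun i t => p (b i t)) n x := by
  induction n with
  | zero => exact map_one p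
  | succ n ih =>
    rw [pr_succ b n (by omega), pr_succ _ n (by omega), map_mul, ih (by omega)]

/-- the ordered product of the axes -/
lemma pr_ax {d : ℕ} (A : PG d) (x : Fin d → ℝ) (n : ℕ) (h : n ≤ d) :
    pr (fun i t => A.ax i t) n x = (fun j => if (j : ℕ) < n then x j else 0 : Fin d → ℝ) := by
  induction n with
  | zero =>
    rw [pr_zero, PG.one_def]
    funext j
    simp
  | succ n ih =>
    have hn : n < d := by omega
    rw [pr_succ _ n hn, ih (by omega)]
    change A.mul (fun j : Fin d => if (j : ℕ) < n then x j else 0)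
      (Pi.single (⟨n, hn⟩ : Fin d) (x ⟨n, hn⟩) : Fin d → ℝ) = _
    rw [A.second ⟨n, hn⟩]
    · funext j
      show (if (j : ℕ) < n then x j else 0) + (Pi.single (⟨n, hn⟩ : Fin d) (x ⟨n, hn⟩) : Fin d → ℝ) j
        = if (j : ℕ) < n + 1 then x j else 0
      rcases lt_trichotomy (j : ℕ) n with h | h | h
      · rw [if_pos h, if_pos (by omega), Pi.single_eq_of_ne (fun e => by
          rw [e] at h; exact lt_irrefl _ h), add_zero]
      · have hj : j = ⟨n, hn⟩ := Fin.ext h
        subst hj
        rw [if_neg (lt_irrefl _), if_pos (Nat.lt_succ_self _), Pi.single_eq_same, zero_add]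
      · rw [if_neg (by omega), if_neg (by omega), Pi.single_eq_of_ne (fun e => by
          rw [e] at h; exact lt_irrefl _ h), add_zero]
    · intro j hj
      have : n < (j : ℕ) := hj
      show (if (j : ℕ) < n then x j else 0) = 0
      rw [if_neg (by omega)]
    · intro j hj
      show (Pi.single (⟨n, hn⟩ : Fin d) (x ⟨n, hn⟩) : Fin d → ℝ) j = 0
      exact Pi.single_eq_of_ne (ne_of_lt hj) _

lemma pr_ax_all {d : ℕ} (A : PG d) (x : Fin d → ℝ) : pr (fun i t => A.ax i t) d x = x := by
  rw [pr_ax A x d le_rfl]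
  funext j
  exact if_pos j.2

section ordered

variable {d : ℕ} {E : Type} [Group E] (b : Fin d → ℝ → E)
  (hb : ∀ i s t, b i (s + t) = b i s * b i t)

include hb

lemma b_zero (i : Fin d) : b i 0 = 1 := by
  have h := hb i 0 0
  rw [add_zero] at h
  exact mul_eq_left.mp h.symm

/-- `pr` does not change beyond the support -/
lemma pr_stable (x : Fin d → ℝ) (i : ℕ) (hx : ∀ j : Fin d, i < (j : ℕ) → x j = 0) (n : ℕ)
    (hin : i + 1 ≤ n) (hn : n ≤ d) : pr b n x = pr b (i + 1) x := by
  induction n with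
  | zero => omega
  | succ n ih =>
    rcases Nat.lt_or_ge i n with h | h
    · rw [pr_succ b n (by omega), hx ⟨n, by omega⟩ h, b_zero b hb, mul_one]
      exact ih (by omega) (by omega)
    · have : n = i := by omega
      subst this; rfl

lemma pr_low (y : Fin d → ℝ) (i : ℕ) (hy : ∀ j : Fin d, (j : ℕ) < i → y j = 0) (n : ℕ)
    (hin : n ≤ i) (hn : n ≤ d) : pr b n y = 1 := by
  induction n with
  | zero => rfl
  | succ n ih =>
    rw [pr_succ b n (by omega), ih (by omega) (by omega), hy ⟨n, by omega⟩ (by show n < i; omega),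
      b_zero b hb, mul_one]

omit hb in
lemma pr_congr (x y : Fin d → ℝ) (i : ℕ) (hxy : ∀ j : Fin d, (j : ℕ) < i → x j = y j) (n : ℕ)
    (hin : n ≤ i) (hn : n ≤ d) : pr b n x = pr b n y := by
  induction n with
  | zero => rfl
  | succ n ih =>
    rw [pr_succ b n (by omega), pr_succ b n (by omega), ih (by omega) (by omega),
      hxy ⟨n, by omega⟩ (by show n < i; omega)]

/-- ordered supports -/
lemma pr_second (x y : Fin d → ℝ) (i : Fin d) (hx : ∀ j, i < j → x j = 0)
    (hy : ∀ j, j < i → y j = 0) : pr b d x * pr b d y = pr b d (x + y) := by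
  have hi := i.2
  have hx' : ∀ j : Fin d, (i : ℕ) < (j : ℕ) → x j = 0 := fun j hj => hx j hj
  have hy' : ∀ j : Fin d, (j : ℕ) < (i : ℕ) → y j = 0 := fun j hj => hy j hj
  rw [pr_stable b hb x i hx' d (by omega) le_rfl]
  have key : ∀ n, (i : ℕ) + 1 ≤ n → n ≤ d → pr b ((i : ℕ) + 1) x * pr b n y = pr b n (x + y) := by
    intro n hin
    induction n, hin using Nat.le_induction with
    | base =>
      intro _
      rw [pr_succ b i hi x, pr_succ b i hi y, pr_succ b i hi (x + y),
        pr_low b hb y i hy' i le_rfl (by omega), one_mul, mul_assoc, ← hb]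
      congr 1
      refine pr_congr b x (x + y) i (fun j hj => ?_) i le_rfl (by omega)
      rw [Pi.add_apply, hy' j hj, add_zero]
    | succ n hin ih =>
      intro hn
      rw [pr_succ b n (by omega) y, ← mul_assoc, ih (by omega), pr_succ b n (by omega) (x + y)]
      congr 2
      rw [Pi.add_apply, hx' ⟨n, by omega⟩ (by show (i : ℕ) < n; omega), zero_add]
  exact key d (by omega) le_rfl

end ordered

end SectM

open SectM

theorem specSect : SpecSect := by
  intro d A E _ _ _ _ K b hbc hbh hbp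
  have hoprod : oprod b = pr b d := funext (oprod_eq b)
  rw [hoprod]
  have hcont : Continuous (pr b d) := pr_continuous b hbc d le_rfl
  have hproj : ∀ x : Fin d → ℝ, K.p (pr b d x) = x := by
    intro x
    rw [pr_hom K.p b d le_rfl x]
    have : (fun i t => K.p (b i t)) = fun i t => A.ax i t := by funext i t; exact hbp i t
    rw [this]
    exact pr_ax_all A x
  refine ⟨hcont, hproj, ?_⟩
  have hs0 : pr b d 0 = 1 := by
    refine pr_low b hbh 0 d (fun j _ => rfl) d le_rfl le_rfl
  -- the kernel valued function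
  let k : (Fin d → ℝ) × (Fin d → ℝ) → E := fun q =>
    pr b d q.1 * pr b d q.2 * (pr b d (A.mul q.1 q.2))⁻¹
  have hkc : Continuous k := by
    have h1 : Continuous fun q : (Fin d → ℝ) × (Fin d → ℝ) => pr b d (A.mul q.1 q.2) :=
      hcont.comp A.continuous_mul'
    exact ((hcont.comp continuous_fst).mul (hcont.comp continuous_snd)).mul h1.inv
  have hkp : ∀ q, K.p (k q) = 1 := by
    intro q
    show K.p (pr b d q.1 * pr b d q.2 * (pr b d (A.mul q.1 q.2))⁻¹) = 1
    rw [map_mul, map_mul, map_inv, hproj, hproj, hproj]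
    exact mul_inv_cancel (G := A.Gp) _
  have hk0 : k (0, 0) = 1 := by
    show pr b d 0 * pr b d 0 * (pr b d (A.mul 0 0))⁻¹ = 1
    rw [A.zero_mul, hs0]; simp
  obtain ⟨F, hFc, hF0, hF⟩ := ker_real K k hkc hkp (0, 0) hk0
  have hmul : ∀ x y : Fin d → ℝ, pr b d x * pr b d y = K.ι (ec (F (x, y))) * pr b d (A.mul x y) := by
    intro x y
    rw [← hF (x, y)]
    show _ = pr b d x * pr b d y * (pr b d (A.mul x y))⁻¹ * pr b d (A.mul x y)
    rw [inv_mul_cancel_right]
  refine ⟨fun x y => F (x, y), ⟨?_, ?_, hF0, ?_⟩, hmul⟩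
  · exact hFc
  · -- cocycle identity
    have hcomm : ∀ (u : Circle) (l : E), K.ι u * l = l * K.ι u := K.central
    intro x y z
    have hint : ∀ q : (Fin d → ℝ) × (Fin d → ℝ) × (Fin d → ℝ), ∃ n : ℤ,
        (F (q.1, q.2.1) + F (A.mul q.1 q.2.1, q.2.2))
          - (F (q.1, A.mul q.2.1 q.2.2) + F (q.2.1, q.2.2)) = n := by
      rintro ⟨x, y, z⟩
      apply ec_eq
      apply ι_inj K
      have h1 : pr b d x * pr b d y * pr b d z
          = K.ι (ec (F (x, y) + F (A.mul x y, z))) * pr b d (A.mul (A.mul x y) z) := by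
        rw [hmul x y, mul_assoc, hmul (A.mul x y) z, ← mul_assoc, ← map_mul, ← ec_add]
      have h2 : pr b d x * pr b d y * pr b d z
          = K.ι (ec (F (x, A.mul y z) + F (y, z))) * pr b d (A.mul (A.mul x y) z) := by
        rw [mul_assoc, hmul y z, ← mul_assoc, ← hcomm, mul_assoc, hmul x (A.mul y z), ← mul_assoc,
          ← map_mul, ← ec_add, A.assoc, add_comm]
      rw [h1] at h2
      exact mul_right_cancel h2
    have hc2 : Continuous fun q : (Fin d → ℝ) × (Fin d → ℝ) × (Fin d → ℝ) =>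
        (F (q.1, q.2.1) + F (A.mul q.1 q.2.1, q.2.2))
          - (F (q.1, A.mul q.2.1 q.2.2) + F (q.2.1, q.2.2)) := by
      have hm := A.continuous_mul'
      have e1 : Continuous fun q : (Fin d → ℝ) × (Fin d → ℝ) × (Fin d → ℝ) => A.mul q.1 q.2.1 :=
        hm.comp (continuous_fst.prodMk (continuous_fst.comp continuous_snd))
      have e2 : Continuous fun q : (Fin d → ℝ) × (Fin d → ℝ) × (Fin d → ℝ) => A.mul q.2.1 q.2.2 :=
        hm.comp ((continuous_fst.comp continuous_snd).prodMk (continuous_snd.comp continuous_snd))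
      refine ((hFc.comp (continuous_fst.prodMk (continuous_fst.comp continuous_snd))).add
        (hFc.comp (e1.prodMk (continuous_snd.comp continuous_snd)))).sub
        ((hFc.comp (continuous_fst.prodMk e2)).add
        (hFc.comp ((continuous_fst.comp continuous_snd).prodMk
          (continuous_snd.comp continuous_snd))))
    have := int_const _ hc2 hint (0, 0, 0) (by
      show (F (0, 0) + F (A.mul 0 0, 0)) - (F (0, A.mul 0 0) + F (0, 0)) = 0
      rw [A.zero_mul, hF0]; ring) (x, y, z)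
    have h3 : (F (x, y) + F (A.mul x y, z)) - (F (x, A.mul y z) + F (y, z)) = 0 := this
    show F (x, y) + F (A.mul x y, z) = F (x, A.mul y z) + F (y, z)
    linarith
  · -- normalisation
    intro i x y hx hy
    have hint : ∀ t : ℝ, ∃ n : ℤ, F (t • x, t • y) = n := by
      intro t
      apply ec_eq_one
      apply ι_inj K
      have hx' : ∀ j, i < j → (t • x) j = 0 := fun j hj => by
        rw [Pi.smul_apply, hx j hj, smul_zero]
      have hy' : ∀ j, j < i → (t • y) j = 0 := fun j hj => by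
        rw [Pi.smul_apply, hy j hj, smul_zero]
      have h1 := hmul (t • x) (t • y)
      rw [A.second i _ _ hx' hy', pr_second b hbh _ _ i hx' hy'] at h1
      rw [map_one]
      exact mul_eq_right.mp h1.symm
    have hc3 : Continuous fun t : ℝ => F (t • x, t • y) := by
      refine hFc.comp ?_
      exact (continuous_id.smul continuous_const).prodMk (continuous_id.smul continuous_const)
    have := int_const _ hc3 hint 0 (by
      show F ((0 : ℝ) • x, (0 : ℝ) • y) = 0
      rw [zero_smul, zero_smul]; exact hF0) 1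
    have h4 : F ((1 : ℝ) • x, (1 : ℝ) • y) = 0 := this
    rw [one_smul, one_smul] at h4
    exact h4

theorem specFlowC : SpecFlowC := by
  intro d A E _ _ _ _ K sc c hsc hscp hc hmul σ hσ hσh
  have hsc0 : sc 0 = 1 := by
    have h1 := hmul 0 0
    rw [hc.zero, ec_zero, map_one, one_mul, A.zero_mul] at h1
    exact mul_eq_left.mp h1
  have hσ0 : σ 0 = 1 := by
    have h := hσh 0 0
    rw [add_zero] at h
    exact mul_eq_left.mp h.symm
  have hpc : Continuous fun t => K.p (σ t) := K.p_cont.comp hσ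
  let k : ℝ → E := fun t => σ t * (sc (K.p (σ t)))⁻¹
  have hkc : Continuous k := hσ.mul ((hsc.comp hpc).inv)
  have hkp : ∀ t, K.p (k t) = 1 := by
    intro t
    show K.p (σ t * (sc (K.p (σ t)))⁻¹) = 1
    have h : K.p (sc (K.p (σ t))) = K.p (σ t) := hscp _
    rw [map_mul, map_inv, h, mul_inv_cancel]
  have hk0 : k 0 = 1 := by
    show σ 0 * (sc (K.p (σ 0)))⁻¹ = 1
    rw [hσ0, map_one, PG.one_def, hsc0]; simp
  obtain ⟨θ, hθc, hθ0, hθ⟩ := ker_real K k hkc hkp 0 hk0
  have hσθ : ∀ t, σ t = K.ι (ec (θ t)) * sc (K.p (σ t)) := by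
    intro t
    rw [← hθ t]
    show _ = σ t * (sc (K.p (σ t)))⁻¹ * sc (K.p (σ t))
    rw [inv_mul_cancel_right]
  refine ⟨θ, hθc, hθ0, hσθ, ?_⟩
  have hint : ∀ q : ℝ × ℝ, ∃ n : ℤ,
      θ (q.1 + q.2) - (θ q.1 + θ q.2 + c (K.p (σ q.1)) (K.p (σ q.2))) = n := by
    rintro ⟨s, t⟩
    apply ec_eq
    apply ι_inj K
    have h1 : σ (s + t) = K.ι (ec (θ (s + t))) * sc (K.p (σ s * σ t)) := by
      rw [← hσh]; exact hσθ (s + t)
    have h2 : σ (s + t) = K.ι (ec (θ s + θ t + c (K.p (σ s)) (K.p (σ t)))) * sc (K.p (σ s * σ t)) := by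
      rw [hσh]
      have e1 : σ s * σ t = (K.ι (ec (θ s)) * sc (K.p (σ s))) * (K.ι (ec (θ t)) * sc (K.p (σ t))) := by
        rw [← hσθ s, ← hσθ t]
      have e2 : sc (K.p (σ s)) * K.ι (ec (θ t)) = K.ι (ec (θ t)) * sc (K.p (σ s)) :=
        (K.central _ _).symm
      have e3 : K.p (σ s * σ t) = A.mul (K.p (σ s)) (K.p (σ t)) := by rw [map_mul]; rfl
      have e4 : sc (K.p (σ s)) * sc (K.p (σ t)) = K.ι (ec (c (K.p (σ s)) (K.p (σ t))))
          * sc (A.mul (K.p (σ s)) (K.p (σ t))) := hmul _ _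
      rw [e3]
      calc σ s * σ t = (K.ι (ec (θ s)) * sc (K.p (σ s))) * (K.ι (ec (θ t)) * sc (K.p (σ t))) := e1
        _ = K.ι (ec (θ s)) * (sc (K.p (σ s)) * K.ι (ec (θ t))) * sc (K.p (σ t)) := by
            simp only [mul_assoc]
        _ = K.ι (ec (θ s)) * K.ι (ec (θ t)) * (sc (K.p (σ s)) * sc (K.p (σ t))) := by
            rw [e2]; simp only [mul_assoc]
        _ = K.ι (ec (θ s)) * K.ι (ec (θ t)) * (K.ι (ec (c (K.p (σ s)) (K.p (σ t))))
              * sc (A.mul (K.p (σ s)) (K.p (σ t)))) := by rw [e4]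
        _ = K.ι (ec (θ s + θ t + c (K.p (σ s)) (K.p (σ t))))
              * sc (A.mul (K.p (σ s)) (K.p (σ t))) := by
            rw [← mul_assoc, ← map_mul, ← map_mul, ← ec_add, ← ec_add]
    rw [h1] at h2
    exact mul_right_cancel h2
  have hcc : Continuous fun q : ℝ × ℝ =>
      θ (q.1 + q.2) - (θ q.1 + θ q.2 + c (K.p (σ q.1)) (K.p (σ q.2))) := by
    have e1 : Continuous fun q : ℝ × ℝ => c (K.p (σ q.1)) (K.p (σ q.2)) := by
      have h1 : Continuous fun q : ℝ × ℝ => ((K.p (σ q.1) : Fin d → ℝ), (K.p (σ q.2) : Fin d → ℝ)) :=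
        (hpc.comp continuous_fst).prodMk (hpc.comp continuous_snd)
      exact hc.cont.comp h1
    exact (hθc.comp (continuous_fst.add continuous_snd)).sub
      (((hθc.comp continuous_fst).add (hθc.comp continuous_snd)).add e1)
  intro s t
  have h00 : c (K.p (σ 0)) (K.p (σ 0)) = 0 := by
    rw [hσ0, map_one, PG.one_def]; exact hc.zero
  have := int_const _ hcc hint (0, 0) (by
    show θ (0 + 0) - (θ 0 + θ 0 + c (K.p (σ 0)) (K.p (σ 0))) = 0
    rw [h00, add_zero, hθ0]; ring) (s, t)
  have h5 : θ (s + t) - (θ s + θ t + c (K.p (σ s)) (K.p (σ t))) = 0 := this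
  linarith

end MPd26.HK
end

section
set_option autoImplicit false

open MeasureTheory Filter Topology
open scoped ComplexConjugate ENNReal

namespace MPd26.HK.Vol

/-- Triangular unipotent maps preserve Lebesgue measure. -/
lemma tri : ∀ (d : ℕ) (Φ : (Fin d → ℝ) → (Fin d → ℝ)) (h : Fin d → (Fin d → ℝ) → ℝ),
    (∀ j, Measurable (h j)) → (∀ (j : Fin d) (x y : Fin d → ℝ), (∀ i < j, x i = y i) →
      h j x = h j y) → (∀ x j, Φ x j = x j + h j x) → MeasurePreserving Φ volume volume := by
  intro d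
  induction d with
  | zero =>
    intro Φ h _ _ _
    have : Φ = id := by
      funext x
      exact Subsingleton.elim _ _
    rw [this]
    exact MeasurePreserving.id _
  | succ d ih =>
    intro Φ h hm hdep hΦ
    let e := MeasurableEquiv.piFinSuccAbove (fun _ : Fin (d + 1) => ℝ) (Fin.last d)
    have he : MeasurePreserving e volume volume :=
      volume_preserving_piFinSuccAbove (fun _ : Fin (d + 1) => ℝ) (Fin.last d)
    have esymm : ∀ (r : ℝ) (y : Fin d → ℝ), e.symm (r, y) = (Fin.snoc y r : Fin (d + 1) → ℝ) := by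
      intro r y
      show (Fin.last d).insertNth (α := fun _ => ℝ) r y = _
      exact Fin.insertNth_last' r y
    let sn : (Fin d → ℝ) → (Fin (d + 1) → ℝ) := fun y => (Fin.snoc y (0 : ℝ) : Fin (d + 1) → ℝ)
    have hsn : Measurable sn := by
      have h1 : sn = fun y => e.symm ((0 : ℝ), y) := by
        funext y; rw [esymm]
      rw [h1]
      exact e.symm.measurable.comp (measurable_const.prodMk measurable_id)
    let Φ' : (Fin d → ℝ) → (Fin d → ℝ) := fun y j => y j + h j.castSucc (sn y)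
    have hΦ' : MeasurePreserving Φ' volume volume := by
      refine ih Φ' (fun j y => h j.castSucc (sn y)) (fun j => (hm _).comp hsn) ?_
        (fun x j => rfl)
      intro j x y hxy
      refine hdep _ _ _ fun i hi => ?_
      have hi' : i ≠ Fin.last d := ne_of_lt (lt_trans hi (Fin.castSucc_lt_last j))
      obtain ⟨i, rfl⟩ := Fin.exists_castSucc_eq.2 hi'
      show (Fin.snoc x (0 : ℝ) : Fin (d + 1) → ℝ) i.castSucc =
        (Fin.snoc y (0 : ℝ) : Fin (d + 1) → ℝ) i.castSucc
      rw [Fin.snoc_castSucc (α := fun _ => ℝ), Fin.snoc_castSucc (α := fun _ => ℝ)]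
      exact hxy i (Fin.castSucc_lt_castSucc_iff.1 hi)
    let H : (Fin d → ℝ) → ℝ := fun y => h (Fin.last d) (sn y)
    have hH : Measurable H := (hm _).comp hsn
    let Ψ : (Fin d → ℝ) × ℝ → (Fin d → ℝ) × ℝ := fun p => (Φ' p.1, p.2 + H p.1)
    have hΨ : MeasurePreserving Ψ volume volume := by
      refine MeasurePreserving.skew_product (g := fun y r => r + H y) hΦ' ?_ ?_
      · exact measurable_snd.add (hH.comp measurable_fst)
      · refine Eventually.of_forall fun y => ?_
        exact (measurePreserving_add_right volume (H y)).map_eq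
    have hsw : MeasurePreserving (Prod.swap : ℝ × (Fin d → ℝ) → (Fin d → ℝ) × ℝ) volume volume :=
      Measure.measurePreserving_swap
    have hsw' : MeasurePreserving (Prod.swap : (Fin d → ℝ) × ℝ → ℝ × (Fin d → ℝ)) volume volume :=
      Measure.measurePreserving_swap
    have hcomp : Φ = fun x => e.symm (Prod.swap (Ψ (Prod.swap (e x)))) := by
      funext x
      have hx : x = (Fin.snoc (fun i : Fin d => x i.castSucc) (x (Fin.last d)) :
          Fin (d + 1) → ℝ) := (Fin.snoc_init_self x).symm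
      have hex : e x = (x (Fin.last d), fun i : Fin d => x i.castSucc) := by
        rw [← MeasurableEquiv.eq_symm_apply, esymm]
        exact hx
      rw [hex]
      show Φ x = e.symm (x (Fin.last d) + H (fun i : Fin d => x i.castSucc),
        Φ' (fun i : Fin d => x i.castSucc))
      rw [esymm]
      funext j
      refine Fin.lastCases ?_ (fun j => ?_) j
      · rw [Fin.snoc_last, hΦ]
        congr 1
        refine hdep _ _ _ fun i hi => ?_
        obtain ⟨i, rfl⟩ := Fin.exists_castSucc_eq.2 (ne_of_lt hi)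
        show x i.castSucc = (Fin.snoc (fun i : Fin d => x i.castSucc) (0 : ℝ) :
          Fin (d + 1) → ℝ) i.castSucc
        rw [Fin.snoc_castSucc (α := fun _ => ℝ)]
      · rw [Fin.snoc_castSucc (α := fun _ => ℝ), hΦ]
        show _ = x j.castSucc + h j.castSucc (sn fun i : Fin d => x i.castSucc)
        congr 1
        refine hdep _ _ _ fun i hi => ?_
        obtain ⟨i, rfl⟩ := Fin.exists_castSucc_eq.2
          (ne_of_lt (lt_trans hi (Fin.castSucc_lt_last j)))
        show x i.castSucc = (Fin.snoc (fun i : Fin d => x i.castSucc) (0 : ℝ) :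
          Fin (d + 1) → ℝ) i.castSucc
        rw [Fin.snoc_castSucc (α := fun _ => ℝ)]
    rw [hcomp]
    exact (he.symm e).comp (hsw'.comp (hΨ.comp (hsw.comp he)))

variable {d : ℕ} (A : PG d)

lemma meas_left (g : Fin d → ℝ) : Measurable (A.mul g) :=
  (A.continuous_mul'.comp (continuous_const.prodMk continuous_id)).measurable

lemma meas_right (g : Fin d → ℝ) : Measurable (fun x => A.mul x g) :=
  (A.continuous_mul'.comp (continuous_id.prodMk continuous_const)).measurable

lemma mp_left (g : Fin d → ℝ) : MeasurePreserving (A.mul g) volume volume := by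
  refine tri d _ (fun j x => g j + MvPolynomial.eval (Sum.elim g x) (A.P j)) ?_ ?_ ?_
  · intro j
    exact measurable_const.add ((PG.continuous_eval (A.P j)).comp
      (continuous_const.prodMk continuous_id)).measurable
  · intro j x y h
    rw [A.eval_congr j (fun _ _ => rfl) h]
  · intro x j
    rw [A.mul_eq]; ring

lemma mp_right (g : Fin d → ℝ) : MeasurePreserving (fun x => A.mul x g) volume volume := by
  refine tri d _ (fun j x => g j + MvPolynomial.eval (Sum.elim x g) (A.P j)) ?_ ?_ ?_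
  · intro j
    exact measurable_const.add ((PG.continuous_eval (A.P j)).comp
      (continuous_id.prodMk continuous_const)).measurable
  · intro j x y h
    rw [A.eval_congr j h (fun _ _ => rfl)]
  · intro x j
    rw [A.mul_eq]; ring

/-- integer vectors as points -/
def iv (n : Fin d → ℤ) : Fin d → ℝ := fun i => (n i : ℝ)

lemma isInt_iv (n : Fin d → ℤ) : IsInt (iv n) := fun i => ⟨n i, rfl⟩

lemma exists_iv {x : Fin d → ℝ} (h : IsInt x) : ∃ n, iv n = x := by
  choose n hn using h
  exact ⟨n, funext fun i => (hn i).symm⟩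

lemma iv_inj {n m : Fin d → ℤ} (h : iv n = iv m) : n = m := by
  funext i
  have : (n i : ℝ) = (m i : ℝ) := congrFun h i
  exact_mod_cast this

lemma measurableSet_box (d : ℕ) : MeasurableSet (box d) := by
  have : box d = Set.univ.pi fun _ : Fin d => Set.Ico (0 : ℝ) 1 := by
    ext x; simp [box, Set.mem_pi]
  rw [this]
  exact MeasurableSet.univ_pi fun _ => measurableSet_Ico

lemma mul_inv_cancel_right' (x y : Fin d → ℝ) : A.mul (A.mul x (A.inv y)) y = x := by
  rw [A.assoc, A.inv_mul, A.mul_zero]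

lemma mul_cancel_right' (x y : Fin d → ℝ) : A.mul (A.mul x y) (A.inv y) = x := by
  rw [A.assoc, A.mul_inv, A.mul_zero]

lemma inv_inv' (x : Fin d → ℝ) : A.inv (A.inv x) = x := by
  have := mul_inv_cancel_right' A 0 (A.inv x)
  have h2 := mul_cancel_right' A x (A.inv x)
  rw [A.mul_inv, A.zero_mul] at h2
  exact h2

/-- uniqueness of representatives, in group form -/
lemma uniq {z z' γ γ' : Fin d → ℝ} (hz : z ∈ box d) (hz' : z' ∈ box d) (hγ : IsInt γ)
    (hγ' : IsInt γ') (h : A.mul z γ = A.mul z' γ') : z = z' ∧ γ = γ' := by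
  have h1 : A.mul z (A.mul γ (A.inv γ')) = z' := by
    rw [← A.assoc, h, mul_cancel_right']
  obtain ⟨h2, h3⟩ := A.rep_unique hz hz' (A.int _ _ hγ (A.int_inv hγ')) h1
  refine ⟨h2, ?_⟩
  have h4 := mul_inv_cancel_right' A γ γ'
  rw [h3, A.zero_mul] at h4
  exact h4.symm

lemma measurable_rep : Measurable A.rep := by
  intro B hB
  have h : A.rep ⁻¹' B = ⋃ n : Fin d → ℤ,
      (fun x => A.mul x (A.inv (iv n))) ⁻¹' (box d ∩ B) := by
    ext x
    rw [Set.mem_iUnion]
    obtain ⟨hb, γ, hγ, hx⟩ := A.rep_spec x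
    constructor
    · intro hxB
      obtain ⟨n, rfl⟩ := exists_iv hγ
      refine ⟨n, ?_⟩
      have h1 : A.mul x (A.inv (iv n)) = A.rep x := by
        conv_lhs => rw [← hx]
        rw [mul_cancel_right']
      show A.mul x (A.inv (iv n)) ∈ box d ∩ B
      rw [h1]
      exact ⟨hb, hxB⟩
    · rintro ⟨n, hn1, hn2⟩
      have h1 : A.mul (A.rep x) γ = A.mul (A.mul x (A.inv (iv n))) (iv n) := by
        rw [mul_inv_cancel_right', hx]
      obtain ⟨h2, -⟩ := uniq A hb hn1 hγ (isInt_iv n) h1
      show A.rep x ∈ B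
      rw [h2]
      exact hn2
  rw [h]
  exact MeasurableSet.iUnion fun n => (meas_right A _) ((measurableSet_box d).inter hB)

lemma one1 (w : Fin d → ℝ) :
    ∑' n : Fin d → ℤ, (box d).indicator (fun _ => (1 : ℝ≥0∞)) (A.mul w (iv n)) = 1 := by
  obtain ⟨hb, γ, hγ, hx⟩ := A.rep_spec w
  obtain ⟨n₀, hn₀⟩ := exists_iv (A.int_inv hγ)
  rw [tsum_eq_single n₀]
  · have h1 : A.mul w (iv n₀) = A.rep w := by
      rw [hn₀]
      conv_lhs => rw [← hx]
      rw [mul_cancel_right']
    rw [h1, Set.indicator_of_mem hb]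
  · intro n hn
    rw [Set.indicator_of_notMem]
    intro hmem
    apply hn
    have h1 : A.mul (A.rep w) γ = A.mul (A.mul w (iv n)) (A.inv (iv n)) := by
      rw [mul_cancel_right', hx]
    obtain ⟨-, h2⟩ := uniq A hb hmem hγ (A.int_inv (isInt_iv n)) h1
    apply iv_inj
    rw [hn₀, h2, inv_inv']

lemma one2 (w : Fin d → ℝ) :
    ∑' n : Fin d → ℤ, (box d).indicator (fun _ => (1 : ℝ≥0∞)) (A.mul w (A.inv (iv n))) = 1 := by
  obtain ⟨hb, γ, hγ, hx⟩ := A.rep_spec w
  obtain ⟨n₀, hn₀⟩ := exists_iv hγ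
  rw [tsum_eq_single n₀]
  · have h1 : A.mul w (A.inv (iv n₀)) = A.rep w := by
      rw [hn₀]
      conv_lhs => rw [← hx]
      rw [mul_cancel_right']
    rw [h1, Set.indicator_of_mem hb]
  · intro n hn
    rw [Set.indicator_of_notMem]
    intro hmem
    apply hn
    have h1 : A.mul (A.rep w) γ = A.mul (A.mul w (A.inv (iv n))) (iv n) := by
      rw [mul_inv_cancel_right', hx]
    obtain ⟨-, h2⟩ := uniq A hb hmem hγ (isInt_iv n) h1
    apply iv_inj
    rw [hn₀, h2]

/-- Unfolding the Lebesgue integral over the translates of the box. -/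
lemma lsum (G : (Fin d → ℝ) → ℝ≥0∞) (hG : Measurable G) :
    ∫⁻ x, G x = ∑' n : Fin d → ℤ, ∫⁻ y in box d, G (A.mul y (A.inv (iv n))) := by
  have h1 : ∀ x, G x = ∑' n : Fin d → ℤ,
      G x * (box d).indicator (fun _ => (1 : ℝ≥0∞)) (A.mul x (iv n)) := by
    intro x
    rw [ENNReal.tsum_mul_left, one1, mul_one]
  have hind : Measurable ((box d).indicator fun _ => (1 : ℝ≥0∞)) :=
    measurable_const.indicator (measurableSet_box d)
  calc ∫⁻ x, G x = ∫⁻ x, ∑' n : Fin d → ℤ,
        G x * (box d).indicator (fun _ => (1 : ℝ≥0∞)) (A.mul x (iv n)) := lintegral_congr h1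
    _ = ∑' n : Fin d → ℤ, ∫⁻ x, G x * (box d).indicator (fun _ => (1 : ℝ≥0∞))
        (A.mul x (iv n)) := by
        rw [lintegral_tsum]
        intro n
        exact (hG.mul (hind.comp (meas_right A _))).aemeasurable
    _ = ∑' n : Fin d → ℤ, ∫⁻ y in box d, G (A.mul y (A.inv (iv n))) := by
        congr 1
        funext n
        have h2 : (fun x => G x * (box d).indicator (fun _ => (1 : ℝ≥0∞)) (A.mul x (iv n))) =
            fun x => (fun y => G (A.mul y (A.inv (iv n))) *
              (box d).indicator (fun _ => (1 : ℝ≥0∞)) y) (A.mul x (iv n)) := by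
          funext x
          show _ = G (A.mul (A.mul x (iv n)) (A.inv (iv n))) * _
          rw [mul_cancel_right']
        have hm2 : Measurable fun y => G (A.mul y (A.inv (iv n))) *
            (box d).indicator (fun _ => (1 : ℝ≥0∞)) y := (hG.comp (meas_right A _)).mul hind
        rw [h2, (mp_right A (iv n)).lintegral_comp hm2,
          ← lintegral_indicator (measurableSet_box d)]
        refine lintegral_congr fun y => ?_
        by_cases hy : y ∈ box d
        · simp [hy]
        · simp [hy]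

end MPd26.HK.Vol

namespace MPd26.HK
open Vol

theorem specVol : SpecVol := fun _ A g => ⟨mp_left A g, mp_right A g⟩

theorem specRep : SpecRep := fun _ A => measurable_rep A

theorem specPGBox : SpecPGBox := by
  intro d A g F hF hinv
  have hind : Measurable ((box d).indicator fun _ => (1 : ℝ≥0∞)) :=
    measurable_const.indicator (measurableSet_box d)
  have hm0 : Measurable fun x =>
      (box d).indicator (fun _ => (1 : ℝ≥0∞)) (A.mul (A.inv g) x) * F x :=
    (hind.comp (meas_left A _)).mul hF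
  have h1 : ∫⁻ z in box d, F (A.mul g z) = ∫⁻ x,
      (box d).indicator (fun _ => (1 : ℝ≥0∞)) (A.mul (A.inv g) x) * F x := by
    rw [← (mp_left A g).lintegral_comp hm0, ← lintegral_indicator (measurableSet_box d)]
    refine lintegral_congr fun z => ?_
    have h2 : A.mul (A.inv g) (A.mul g z) = z := by
      rw [← A.assoc, A.inv_mul, A.zero_mul]
    rw [h2]
    by_cases hz : z ∈ box d
    · simp [hz]
    · simp [hz]
  rw [h1, lsum A _ hm0]
  have h3 : ∀ (n : Fin d → ℤ) (y : Fin d → ℝ),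
      (box d).indicator (fun _ => (1 : ℝ≥0∞)) (A.mul (A.inv g) (A.mul y (A.inv (iv n)))) *
        F (A.mul y (A.inv (iv n))) =
      (box d).indicator (fun _ => (1 : ℝ≥0∞)) (A.mul (A.mul (A.inv g) y) (A.inv (iv n))) *
        F y := by
    intro n y
    rw [hinv y _ (A.int_inv (isInt_iv n)), A.assoc]
  simp only [h3]
  rw [← lintegral_tsum]
  · refine lintegral_congr fun y => ?_
    rw [ENNReal.tsum_mul_right, one2, one_mul]
  · intro n
    exact ((hind.comp ((meas_right A _).comp (meas_left A _))).mul hF).aemeasurable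

end MPd26.HK
end

section
set_option autoImplicit false

open MeasureTheory Filter Topology
open scoped ComplexConjugate ENNReal

namespace MPd26.HK
open Vol

theorem specTrans : SpecTrans := by
  intro d A F hF h₀
  have hcont := A.continuous_mul'
  have hcbox : IsCompact (Set.Icc (0 : Fin d → ℝ) 1) := isCompact_Icc
  have hbsub : box d ⊆ Set.Icc (0 : Fin d → ℝ) 1 := fun z hz =>
    ⟨fun i => (hz i).1, fun i => (hz i).2.le⟩
  have hfin : volume (box d) < ∞ := (measure_mono hbsub).trans_lt hcbox.measure_lt_top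
  have hprob : IsFiniteMeasure (volume.restrict (box d)) := ⟨by
    rw [Measure.restrict_apply_univ]; exact hfin⟩
  let S : Set (Fin d → ℝ) := (fun q : (Fin d → ℝ) × (Fin d → ℝ) => A.mul q.1 q.2) ''
    (Metric.closedBall h₀ 1 ×ˢ Set.Icc (0 : Fin d → ℝ) 1)
  have hS : IsCompact S := ((isCompact_closedBall h₀ 1).prod hcbox).image hcont
  have hSm : MeasurableSet S := hS.isClosed.measurableSet
  have hFS : Integrable (S.indicator F) volume := by
    rw [integrable_indicator_iff hSm]
    have : IsFiniteMeasure (volume.restrict S) := ⟨by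
      rw [Measure.restrict_apply_univ]; exact hS.measure_lt_top⟩
    exact Integrable.of_bound hF.1.1.aestronglyMeasurable 1
      (Eventually.of_forall fun z => (hF.1.2 z).le)
  have hmem : ∀ h ∈ Metric.closedBall h₀ 1, ∀ z ∈ box d, A.mul h z ∈ S := fun h hh z hz =>
    ⟨(h, z), ⟨hh, hbsub hz⟩, rfl⟩
  rw [Metric.tendsto_nhds]
  intro ε hε
  obtain ⟨ψ, hψc, hψi, hψ, hψint⟩ := hFS.exists_hasCompactSupport_integral_sub_le
    (ε := ε / 4) (by positivity)
  obtain ⟨C, hC⟩ := hψ.bounded_above_of_compact_support hψc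
  have b1 : ∀ h ∈ Metric.closedBall h₀ 1, ∫ z in box d, ‖F (A.mul h z) - ψ (A.mul h z)‖ ≤ ε / 4 := by
    intro h hh
    calc ∫ z in box d, ‖F (A.mul h z) - ψ (A.mul h z)‖
        = ∫ z in box d, ‖S.indicator F (A.mul h z) - ψ (A.mul h z)‖ := by
          refine setIntegral_congr_fun (measurableSet_box d) fun z hz => ?_
          show ‖F (A.mul h z) - ψ (A.mul h z)‖ = ‖S.indicator F (A.mul h z) - ψ (A.mul h z)‖
          rw [Set.indicator_of_mem (hmem h hh z hz)]
      _ ≤ ∫ z, ‖S.indicator F (A.mul h z) - ψ (A.mul h z)‖ := by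
          refine setIntegral_le_integral ?_ (Eventually.of_forall fun z => norm_nonneg _)
          exact ((mp_left A h).integrable_comp_of_integrable (hFS.sub hψint).norm)
      _ = ∫ x, ‖S.indicator F x - ψ x‖ := by
          have hmm : AEStronglyMeasurable (fun x => ‖S.indicator F x - ψ x‖)
              (volume.map (A.mul h)) := by
            rw [(mp_left A h).map_eq]
            exact (hFS.sub hψint).norm.aestronglyMeasurable
          rw [← integral_map (mp_left A h).measurable.aemeasurable hmm, (mp_left A h).map_eq]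
      _ ≤ ε / 4 := hψi
  have hdom : Tendsto (fun h => ∫ z in box d, ‖ψ (A.mul h z) - ψ (A.mul h₀ z)‖) (𝓝 h₀)
      (𝓝 (∫ z in box d, ‖ψ (A.mul h₀ z) - ψ (A.mul h₀ z)‖)) := by
    refine tendsto_integral_filter_of_dominated_convergence (fun _ => 2 * C) ?_ ?_ ?_ ?_
    · refine Eventually.of_forall fun h => ?_
      exact ((hψ.measurable.comp (meas_left A h)).sub
        (hψ.measurable.comp (meas_left A h₀))).norm.aestronglyMeasurable
    · refine Eventually.of_forall fun h => Eventually.of_forall fun z => ?_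
      rw [norm_norm]
      calc ‖ψ (A.mul h z) - ψ (A.mul h₀ z)‖ ≤ ‖ψ (A.mul h z)‖ + ‖ψ (A.mul h₀ z)‖ := norm_sub_le _ _
        _ ≤ 2 * C := by linarith [hC (A.mul h z), hC (A.mul h₀ z)]
    · exact integrable_const _
    · refine Eventually.of_forall fun z => ?_
      have h1 : Continuous fun h => ‖ψ (A.mul h z) - ψ (A.mul h₀ z)‖ :=
        ((hψ.comp (hcont.comp (continuous_id.prodMk continuous_const))).sub
          continuous_const).norm
      exact h1.tendsto h₀
  simp only [sub_self, norm_zero, integral_zero] at hdom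
  rw [Metric.tendsto_nhds] at hdom
  filter_upwards [hdom (ε / 4) (by positivity), Metric.closedBall_mem_nhds h₀ one_pos]
    with h h2 hh
  have hnn : 0 ≤ ∫ z in box d, ‖F (A.mul h z) - F (A.mul h₀ z)‖ :=
    integral_nonneg fun _ => norm_nonneg _
  rw [Real.dist_eq, sub_zero, abs_of_nonneg hnn]
  have hnn2 : 0 ≤ ∫ z in box d, ‖ψ (A.mul h z) - ψ (A.mul h₀ z)‖ :=
    integral_nonneg fun _ => norm_nonneg _
  rw [Real.dist_eq, sub_zero, abs_of_nonneg hnn2] at h2
  have i1 : ∀ g : Fin d → ℝ, Integrable (fun z => ‖F (A.mul g z) - ψ (A.mul g z)‖)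
      (volume.restrict (box d)) := by
    intro g
    refine Integrable.of_bound (((hF.1.1.comp (meas_left A g)).sub
      (hψ.measurable.comp (meas_left A g))).norm.aestronglyMeasurable) (1 + C)
      (Eventually.of_forall fun z => ?_)
    rw [norm_norm]
    refine (norm_sub_le _ _).trans (add_le_add (hF.1.2 _).le (hC _))
  have i2 : Integrable (fun z => ‖ψ (A.mul h z) - ψ (A.mul h₀ z)‖)
      (volume.restrict (box d)) := by
    refine Integrable.of_bound (((hψ.measurable.comp (meas_left A h)).sub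
      (hψ.measurable.comp (meas_left A h₀))).norm.aestronglyMeasurable) (C + C)
      (Eventually.of_forall fun z => ?_)
    rw [norm_norm]
    refine (norm_sub_le _ _).trans (add_le_add (hC _) (hC _))
  have hle : ∫ z in box d, ‖F (A.mul h z) - F (A.mul h₀ z)‖ ≤
      (∫ z in box d, ‖F (A.mul h z) - ψ (A.mul h z)‖) +
      (∫ z in box d, ‖ψ (A.mul h z) - ψ (A.mul h₀ z)‖) +
      ∫ z in box d, ‖F (A.mul h₀ z) - ψ (A.mul h₀ z)‖ := by
    rw [← integral_add (i1 h) i2]
    have i12 : Integrable (fun z => ‖F (A.mul h z) - ψ (A.mul h z)‖ +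
        ‖ψ (A.mul h z) - ψ (A.mul h₀ z)‖) (volume.restrict (box d)) := (i1 h).add i2
    rw [← integral_add i12 (i1 h₀)]
    refine integral_mono_of_nonneg (Eventually.of_forall fun z => norm_nonneg _)
      (i12.add (i1 h₀)) (Eventually.of_forall fun z => ?_)
    show ‖F (A.mul h z) - F (A.mul h₀ z)‖ ≤ ‖F (A.mul h z) - ψ (A.mul h z)‖ +
      ‖ψ (A.mul h z) - ψ (A.mul h₀ z)‖ + ‖F (A.mul h₀ z) - ψ (A.mul h₀ z)‖
    have e : F (A.mul h z) - F (A.mul h₀ z) = (F (A.mul h z) - ψ (A.mul h z)) +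
      (ψ (A.mul h z) - ψ (A.mul h₀ z)) - (F (A.mul h₀ z) - ψ (A.mul h₀ z)) := by ring
    rw [e]
    exact (norm_sub_le _ _).trans (add_le_add (norm_add_le _ _) le_rfl)
  have h3 := b1 h hh
  have h4 := b1 h₀ (Metric.mem_closedBall_self zero_le_one)
  linarith

end MPd26.HK
end

section
/-!
# MP_d26cd8_an, D5, module M10: a polynomial integral cocycle gives a group in one more dimension
-/
set_option autoImplicit false

namespace MPd26.HK

namespace ExtM

lemma coc_zero_right {d : ℕ} {A : PG d} {c : (Fin d → ℝ) → (Fin d → ℝ) → ℝ} (hc : A.Coc c)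
    (x : Fin d → ℝ) : c x 0 = 0 := by
  rcases Nat.eq_zero_or_pos d with hd | hd
  · subst hd
    rw [Subsingleton.elim x 0]; exact hc.zero
  · refine hc.nrm ⟨d - 1, by omega⟩ x 0 (fun j hj => ?_) (fun j _ => rfl)
    have h1 : d - 1 < (j : ℕ) := hj
    have := j.2
    omega

lemma coc_zero_left {d : ℕ} {A : PG d} {c : (Fin d → ℝ) → (Fin d → ℝ) → ℝ} (hc : A.Coc c)
    (x : Fin d → ℝ) : c 0 x = 0 := by
  rcases Nat.eq_zero_or_pos d with hd | hd
  · subst hd
    rw [Subsingleton.elim x 0]; exact hc.zero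
  · refine hc.nrm ⟨0, hd⟩ 0 x (fun j _ => rfl) (fun j hj => ?_)
    have h1 : (j : ℕ) < 0 := hj
    omega

end ExtM

theorem specExt : SpecExt := by
  intro d A c hc hp hint
  obtain ⟨p, hp⟩ := hp
  have hc0r := ExtM.coc_zero_right hc
  -- the product
  let mul' : (Fin (d + 1) → ℝ) → (Fin (d + 1) → ℝ) → (Fin (d + 1) → ℝ) := fun s t =>
    (Fin.snoc (A.mul (fun j => s (Fin.castSucc j)) (fun j => t (Fin.castSucc j)))
      (s (Fin.last d) + t (Fin.last d)
        + c (fun j => s (Fin.castSucc j)) (fun j => t (Fin.castSucc j))) : Fin (d + 1) → ℝ)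
  have hcast : ∀ s t (j : Fin d), mul' s t (Fin.castSucc j)
      = A.mul (fun j => s (Fin.castSucc j)) (fun j => t (Fin.castSucc j)) j := by
    intro s t j
    exact Fin.snoc_castSucc (α := fun _ => ℝ) _ _ j
  have hlast : ∀ s t, mul' s t (Fin.last d) = s (Fin.last d) + t (Fin.last d)
        + c (fun j => s (Fin.castSucc j)) (fun j => t (Fin.castSucc j)) := by
    intro s t
    exact Fin.snoc_last (α := fun _ => ℝ) _ _
  let P' : Fin (d + 1) → MvPolynomial (Fin (d + 1) ⊕ Fin (d + 1)) ℝ :=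
    Fin.lastCases (motive := fun _ => MvPolynomial (Fin (d + 1) ⊕ Fin (d + 1)) ℝ)
      (MvPolynomial.rename (Sum.map Fin.castSucc Fin.castSucc) p)
      (fun j => MvPolynomial.rename (Sum.map Fin.castSucc Fin.castSucc) (A.P j))
  have hPlast : P' (Fin.last d) = MvPolynomial.rename (Sum.map Fin.castSucc Fin.castSucc) p :=
    Fin.lastCases_last
  have hPcast : ∀ j : Fin d, P' (Fin.castSucc j)
      = MvPolynomial.rename (Sum.map Fin.castSucc Fin.castSucc) (A.P j) := fun j =>
    Fin.lastCases_castSucc j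
  have heval : ∀ (s t : Fin (d + 1) → ℝ) (q : MvPolynomial (Fin d ⊕ Fin d) ℝ),
      MvPolynomial.eval (Sum.elim s t) (MvPolynomial.rename (Sum.map Fin.castSucc Fin.castSucc) q)
        = MvPolynomial.eval (Sum.elim (fun j => s (Fin.castSucc j)) (fun j => t (Fin.castSucc j))) q := by
    intro s t q
    rw [MvPolynomial.eval_rename]
    congr 2
    funext i
    rcases i with i | i <;> rfl
  let A' : PG (d + 1) :=
    { mul := mul'
      P := P'
      mul_eq := by
        intro s t j
        refine Fin.lastCases ?_ (fun j => ?_) j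
        · rw [hlast, hPlast, heval, hp]
        · rw [hcast, hPcast, heval, A.mul_eq]
      vars := by
        intro j s hs
        revert hs
        refine Fin.lastCases ?_ (fun j => ?_) j
        · intro hs
          rw [hPlast] at hs
          have h1 := MvPolynomial.vars_rename _ _ hs
          rw [Finset.mem_image] at h1
          obtain ⟨s', _, rfl⟩ := h1
          rcases s' with i | i
          · exact Fin.castSucc_lt_last i
          · exact Fin.castSucc_lt_last i
        · intro hs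
          rw [hPcast] at hs
          have h1 := MvPolynomial.vars_rename _ _ hs
          rw [Finset.mem_image] at h1
          obtain ⟨s', hs', rfl⟩ := h1
          have h2 := A.vars j s' hs'
          rcases s' with i | i
          · exact h2
          · exact h2
      assoc := by
        intro x y z
        funext j
        have e : ∀ s t : Fin (d + 1) → ℝ, (fun j => mul' s t (Fin.castSucc j))
            = A.mul (fun j => s (Fin.castSucc j)) (fun j => t (Fin.castSucc j)) := by
          intro s t; funext j; exact hcast s t j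
        refine Fin.lastCases ?_ (fun j => ?_) j
        · rw [hlast, hlast, hlast, hlast, e, e]
          have := hc.coc (fun j => x (Fin.castSucc j)) (fun j => y (Fin.castSucc j))
            (fun j => z (Fin.castSucc j))
          linarith
        · rw [hcast, hcast, e, e, A.assoc]
      zero_mul := by
        intro x
        funext j
        refine Fin.lastCases ?_ (fun j => ?_) j
        · rw [hlast]
          have : c (fun j => (0 : Fin (d + 1) → ℝ) (Fin.castSucc j)) (fun j => x (Fin.castSucc j)) = 0 :=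
            ExtM.coc_zero_left hc _
          rw [this]; simp
        · rw [hcast]
          exact congrFun (A.zero_mul (fun j => x (Fin.castSucc j))) j
      mul_zero := by
        intro x
        funext j
        refine Fin.lastCases ?_ (fun j => ?_) j
        · rw [hlast]
          have : c (fun j => x (Fin.castSucc j)) (fun j => (0 : Fin (d + 1) → ℝ) (Fin.castSucc j)) = 0 :=
            hc0r _
          rw [this]; simp
        · rw [hcast]
          exact congrFun (A.mul_zero (fun j => x (Fin.castSucc j))) j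
      int := by
        intro x y hx hy j
        refine Fin.lastCases ?_ (fun j => ?_) j
        · rw [hlast]
          obtain ⟨a, ha⟩ := hx (Fin.last d)
          obtain ⟨b, hb⟩ := hy (Fin.last d)
          obtain ⟨n, hn⟩ := hint (fun j => x (Fin.castSucc j)) (fun j => y (Fin.castSucc j))
            (fun j => hx _) (fun j => hy _)
          exact ⟨a + b + n, by rw [ha, hb, hn]; push_cast; ring⟩
        · rw [hcast]
          exact A.int _ _ (fun j => hx _) (fun j => hy _) j
      second := by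
        intro i
        refine Fin.lastCases ?_ (fun i => ?_) i
        · intro x y _ hy
          have hy0 : (fun j => y (Fin.castSucc j)) = (0 : Fin d → ℝ) := by
            funext j
            exact hy _ (Fin.castSucc_lt_last j)
          funext j
          refine Fin.lastCases ?_ (fun j => ?_) j
          · rw [hlast, hy0, hc0r]; simp
          · rw [hcast, hy0, A.mul_zero]
            have := congrFun hy0 j
            simp only [Pi.zero_apply] at this
            rw [Pi.add_apply, this, add_zero]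
        · intro x y hx hy
          have hx1 : ∀ j, i < j → (fun j => x (Fin.castSucc j)) j = 0 := fun j hj =>
            hx _ (Fin.castSucc_lt_castSucc_iff.mpr hj)
          have hy1 : ∀ j, j < i → (fun j => y (Fin.castSucc j)) j = 0 := fun j hj =>
            hy _ (Fin.castSucc_lt_castSucc_iff.mpr hj)
          funext j
          refine Fin.lastCases ?_ (fun j => ?_) j
          · rw [hlast, hc.nrm i _ _ hx1 hy1]; simp
          · rw [hcast, A.second i _ _ hx1 hy1]; rfl }
  refine ⟨A', fun x y u v => ?_⟩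
  show mul' _ _ = _
  funext j
  refine Fin.lastCases ?_ (fun j => ?_) j
  · rw [hlast]
    simp only [Fin.snoc_last, Fin.snoc_castSucc]
  · rw [hcast]
    simp only [Fin.snoc_castSucc]

end MPd26.HK
end

section
/-!
# MP_d26cd8_an, D5, module M11: the nil-map in box coordinates
-/
set_option autoImplicit false

open MeasureTheory ProbabilityTheory Filter Topology
open scoped ComplexConjugate ENNReal

namespace MPd26.HK

namespace NilXM

lemma ec_add (s t : ℝ) : ((ec (s + t) : Circle) : ℂ) = (ec s : ℂ) * (ec t : ℂ) := by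
  have : ec (s + t) = ec s * ec t := by unfold ec; rw [mul_add, Circle.exp_add]
  rw [this]; rfl

lemma ec_int (n : ℤ) : ((ec (n : ℝ) : Circle) : ℂ) = 1 := by
  have : ec (n : ℝ) = 1 := by
    unfold ec
    rw [Circle.exp_eq_one]
    exact ⟨n, by ring⟩
  rw [this]; rfl

lemma ec_inj {s t : ℝ} (h : ((ec s : Circle) : ℂ) = (ec t : ℂ)) : ∃ n : ℤ, s = t + n := by
  have h0 : ec s = ec t := Subtype.ext h
  have h1 : ec (s - t) = 1 := by
    have h2 : ec s = ec (s - t) * ec t := by
      unfold ec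
      rw [← Circle.exp_add]; congr 1; ring
    rw [h0] at h2
    have h3 : ec (s - t) * ec t = 1 * ec t := by rw [← h2, one_mul]
    exact mul_right_cancel h3
  unfold ec at h1
  rw [Circle.exp_eq_one] at h1
  obtain ⟨n, hn⟩ := h1
  refine ⟨n, ?_⟩
  have hpi : (2 * Real.pi) ≠ 0 := by positivity
  have h2 : (2 * Real.pi) * (s - t) = (2 * Real.pi) * n := by rw [hn]; ring
  have h3 := mul_left_cancel₀ hpi h2
  linarith

lemma unit_conj {u : ℂ} (h : ‖u‖ = 1) : u * conj u = 1 := by
  rw [Complex.mul_conj, Complex.normSq_eq_norm_sq, h]; simp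

lemma measurable_ec : Measurable (fun t : ℝ => ((ec t : Circle) : ℂ)) := by
  have : Continuous (fun t : ℝ => ((ec t : Circle) : ℂ)) := by
    unfold ec
    exact continuous_subtype_val.comp (Circle.exp.continuous.comp (continuous_const.mul continuous_id))
  exact this.measurable

/-- the phase in `[0,1)` -/
noncomputable def ph (u : ℂ) : ℝ := Int.fract (Complex.arg u / (2 * Real.pi))

lemma ph_mem (u : ℂ) : 0 ≤ ph u ∧ ph u < 1 := ⟨Int.fract_nonneg _, Int.fract_lt_one _⟩

lemma measurable_ph : Measurable ph := by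
  unfold ph
  exact (measurable_fract).comp (Complex.measurable_arg.div_const _)

lemma ec_ph {u : ℂ} (h : ‖u‖ = 1) : ((ec (ph u) : Circle) : ℂ) = u := by
  have e : Complex.arg u / (2 * Real.pi) = ph u + (⌊Complex.arg u / (2 * Real.pi)⌋ : ℝ) := by
    unfold ph
    rw [Int.fract_add_floor]
  have h1 : ((ec (Complex.arg u / (2 * Real.pi)) : Circle) : ℂ) = ec (ph u) := by
    rw [e, ec_add]
    rw [ec_int, mul_one]
  rw [← h1]
  unfold ec
  have hpi : (2 * Real.pi) ≠ 0 := by positivity
  rw [mul_div_cancel₀ _ hpi, Circle.coe_exp]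
  have h2 := Complex.norm_mul_exp_arg_mul_I u
  rw [h, Complex.ofReal_one, one_mul] at h2
  exact h2

end NilXM

open NilXM

theorem specNilX : SpecNilX := by
  intro d A A' c f θ a ρ hf ha hθ hA' hfγ hρ hρR α _ μ T π φ hT hπm hπb hπn hφ hπT hφT
  have hfn : ∀ z, ‖f z‖ = 1 := hf.2
  let u : α → ℝ := fun x => ph (φ x * conj (f (π x)))
  have hun : ∀ x, ‖φ x * conj (f (π x))‖ = 1 := by
    intro x
    rw [norm_mul, hφ.2, RCLike.norm_conj, hfn, one_mul]
  have hum : Measurable u := by
    refine measurable_ph.comp (hφ.1.mul ?_)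
    exact Complex.continuous_conj.measurable.comp (hf.1.comp hπm)
  have hu : ∀ x, ((ec (u x) : Circle) : ℂ) = φ x * conj (f (π x)) := fun x => ec_ph (hun x)
  let p : α → Fin (d + 1) → ℝ := fun x => (Fin.snoc (π x) (u x) : Fin (d + 1) → ℝ)
  have hpl : ∀ x, p x (Fin.last d) = u x := fun x => Fin.snoc_last (α := fun _ => ℝ) _ _
  have hpc : ∀ x (j : Fin d), p x (Fin.castSucc j) = π x j := fun x j =>
    Fin.snoc_castSucc (α := fun _ => ℝ) _ _ j
  let Φ : (Fin (d + 1) → ℝ) → ℂ := fun q => f (fun j => q (Fin.castSucc j)) * (ec (q (Fin.last d)) : ℂ)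
  have tr : ∀ {P : (Fin d → ℝ) → Prop}, (∀ᵐ z, P z) → ∀ᵐ x ∂μ, P (π x) := by
    intro P h
    rw [ae_iff] at h ⊢
    exact hπn _ h
  refine ⟨p, Φ, ?_, ?_, ?_, ?_, ?_⟩
  · rw [measurable_pi_iff]
    intro j
    refine Fin.lastCases ?_ (fun j => ?_) j
    · simp only [hpl]; exact hum
    · simp only [hpc]; exact (measurable_pi_apply j).comp hπm
  · intro x j
    refine Fin.lastCases ?_ (fun j => ?_) j
    · rw [hpl]; exact ph_mem _
    · rw [hpc]; exact hπb x j
  · refine (hf.1.comp ?_).mul (measurable_ec.comp (measurable_pi_apply _))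
    rw [measurable_pi_iff]
    intro j
    exact measurable_pi_apply _
  · intro x
    show φ x = f (fun j => p x (Fin.castSucc j)) * (ec (p x (Fin.last d)) : ℂ)
    have e1 : (fun j => p x (Fin.castSucc j)) = π x := by funext j; exact hpc x j
    rw [e1, hpl, hu]
    have := unit_conj (hfn (π x))
    linear_combination (-φ x) * this
  · intro t
    -- all integer translates at once
    have hall : ∀ᵐ z, ∀ n : Fin d → ℤ, f (A.mul z (fun j => (n j : ℝ)))
        = f z * (ec (-(c z (fun j => (n j : ℝ)))) : ℂ) := by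
      rw [ae_all_iff]
      intro n
      exact hfγ _ (fun j => ⟨n j, rfl⟩)
    have h1 : ∀ᵐ x ∂μ, ∀ n : Fin d → ℤ, f (A.mul (π (T t x)) (fun j => (n j : ℝ)))
        = f (π (T t x)) * (ec (-(c (π (T t x)) (fun j => (n j : ℝ)))) : ℂ) :=
      (hT t).quasiMeasurePreserving.ae (tr hall)
    filter_upwards [h1, tr (hρ t), hπT t, hφT t] with x hx1 hx2 hx3 hx4
    obtain ⟨γ, hγ, hx3⟩ := hx3
    choose n hn using hγ
    have hγn : γ = fun j => (n j : ℝ) := funext hn
    subst hγn
    have hx5 := hx1 n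
    rw [← hx3] at hx5
    -- compare the phases
    have hec : ((ec (u (T t x)) : Circle) : ℂ)
        = ec (u x + θ t + c (a t) (π x) - c (π (T t x)) (fun j => (n j : ℝ))) := by
      have e1 : ((ec (u x + θ t + c (a t) (π x) - c (π (T t x)) (fun j => (n j : ℝ))) : Circle) : ℂ)
          = (ec (u x) : ℂ) * (ec (θ t + c (a t) (π x)) : ℂ)
            * (ec (-(c (π (T t x)) (fun j => (n j : ℝ)))) : ℂ) := by
        rw [← ec_add, ← ec_add]; congr 2; ring
      rw [e1, hu, hu, hx4, hx2, hx5]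
      have hz' := unit_conj (hfn (π (T t x)))
      linear_combination ((ec (θ t + c (a t) (π x)) : ℂ)
        * (ec (-(c (π (T t x)) (fun j => (n j : ℝ)))) : ℂ) * conj (f (π x)) * φ x) * hz'
    obtain ⟨m, hm⟩ := ec_inj hec
    refine ⟨(Fin.snoc (fun j => (n j : ℝ)) (-(m : ℝ)) : Fin (d + 1) → ℝ), ?_, ?_⟩
    · intro j
      refine Fin.lastCases ?_ (fun j => ?_) j
      · exact ⟨-m, by rw [Fin.snoc_last]; push_cast; ring⟩
      · exact ⟨n j, by rw [Fin.snoc_castSucc]⟩
    · show A'.mul _ (Fin.snoc (π x) (u x) : Fin (d + 1) → ℝ)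
        = A'.mul (Fin.snoc (π (T t x)) (u (T t x)) : Fin (d + 1) → ℝ) _
      rw [hA', hA', hx3, hm]
      congr 1
      ring

end MPd26.HK
end
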