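import Pool.Agent.Lib.MP_d26cd8_an.D5.Spec
import Pool.Agent.Lib.MP_d26cd8_an.helper29.PolyEmb
import Pool.Agent.Lib.MP_d26cd8_an.D5.NilX

section
/-!
# MP_d26cd8_an, D5, module M5: continuous normalised cocycles are polynomial
-/
set_option autoImplicit false

namespace MPd26.HK

theorem specPolyLaw : SpecPolyLaw := by
  intro d A c hc
  exact MPd26.PolyLaw.polyLaw d A.mul A.P A.mul_eq
    (fun j i h => A.vars j (Sum.inl i) h) (fun j i h => A.vars j (Sum.inr i) h)
    A.assoc (fun x y i hx hy => A.second i x y hx hy) c hc.cont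
    (fun x y z => by rw [hc.coc x y z]; ring) (fun x y i hx hy => hc.nrm i x y hx hy)

end MPd26.HK
end

section
set_option autoImplicit false

open MeasureTheory Filter Topology
open scoped ComplexConjugate ENNReal

namespace MPd26.HK.CorA
open LiftGrp OnePar

variable {d : ℕ} {A : PG d}

lemma ec_coe_add (s t : ℝ) : ((ec (s + t) : Circle) : ℂ) = ec s * ec t := by
  rw [ec_add]; simp

lemma ec_coe_conj (t : ℝ) : conj ((ec t : Circle) : ℂ) = ec (-t) := by
  unfold ec
  rw [← Circle.coe_inv_eq_conj, ← Circle.exp_neg, mul_neg]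

/-- Right-invariant version with values of modulus one. -/
noncomputable def fix (A : PG d) (F0 : (Fin d → ℝ) → (Fin d → ℝ) → ℂ) :
    (Fin d → ℝ) → (Fin d → ℝ) → ℂ := fun x z =>
  open Classical in if ‖F0 x (A.rep z)‖ = 1 then F0 x (A.rep z) else 1

lemma fix_meas (F0 : (Fin d → ℝ) → (Fin d → ℝ) → ℂ)
    (h : Measurable fun q : (Fin d → ℝ) × (Fin d → ℝ) => F0 q.1 q.2) :
    Measurable fun q : (Fin d → ℝ) × (Fin d → ℝ) => fix A F0 q.1 q.2 := by
  have h1 : Measurable fun q : (Fin d → ℝ) × (Fin d → ℝ) => F0 q.1 (A.rep q.2) :=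
    h.comp (measurable_fst.prodMk ((specRep d A).comp measurable_snd))
  unfold fix
  exact Measurable.ite (h1.norm (measurableSet_singleton 1)) h1 measurable_const

lemma rep_mul (z γ : Fin d → ℝ) (hγ : IsInt γ) : A.rep (A.mul z γ) = A.rep z := by
  obtain ⟨h1, γ1, h2, h3⟩ := A.rep_spec z
  obtain ⟨h4, γ2, h5, h6⟩ := A.rep_spec (A.mul z γ)
  have h7 : A.mul (A.rep (A.mul z γ)) γ2 = A.mul (A.rep z) (A.mul γ1 γ) := by
    rw [h6, ← A.assoc, h3]
  exact (Vol.uniq A h4 h1 h5 (A.int _ _ h2 hγ) h7).1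

lemma rep_box {z : Fin d → ℝ} (hz : z ∈ box d) : A.rep z = z := by
  obtain ⟨h1, γ1, h2, h3⟩ := A.rep_spec z
  exact (A.rep_unique h1 hz h2 h3).1

lemma fix_rph (F0 : (Fin d → ℝ) → (Fin d → ℝ) → ℂ)
    (h : Measurable fun q : (Fin d → ℝ) × (Fin d → ℝ) => F0 q.1 q.2) (x : Fin d → ℝ) :
    A.RPh (fix A F0 x) := by
  refine ⟨⟨(fix_meas F0 h).comp (measurable_const.prodMk measurable_id), fun z => ?_⟩, ?_⟩
  · unfold fix
    split_ifs with h1
    · exact h1
    · simp
  · intro z γ hγ
    unfold fix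
    rw [rep_mul z γ hγ]

lemma fix_eq (F0 : (Fin d → ℝ) → (Fin d → ℝ) → ℂ)
    (h : Measurable fun q : (Fin d → ℝ) × (Fin d → ℝ) => F0 q.1 q.2) (x : Fin d → ℝ)
    {R : (Fin d → ℝ) → ℂ} (hR : A.RPh R) (hF : F0 x =ᵐ[volume.restrict (box d)] R) :
    fix A F0 x =ᵐ[volume] R := by
  refine ae_of_box specVol A (fix_rph F0 h x) hR ?_
  have hbox : ∀ᵐ z ∂(volume.restrict (box d)), z ∈ box d :=
    ae_restrict_mem (LiftGrp.measurableSet_box d)
  filter_upwards [hF, hbox] with z hz hzb
  unfold fix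
  rw [rep_box hzb, hz, if_pos (hR.1.2 z)]

end MPd26.HK.CorA

namespace MPd26.HK
open LiftGrp OnePar CorA

theorem specCore : SpecCore := by
  intro d A L hL a ρ ha hadd hLρ hρadd hρc
  have hV := specVol
  obtain ⟨E, iG, iT, iTG, iT2, K, R, hRL, hRmul, hRι, hRinj, hRsurj, hRcont, hRσ⟩ :=
    specLiftGrp specVol specPGBox specTrans d A L hL
  have hRph : ∀ l, A.RPh (R l) := fun l => hL.ph _ _ (hRL l)
  have hleft : ∀ (g : Fin d → ℝ) {P : (Fin d → ℝ) → Prop}, (∀ᵐ z, P z) →
      ∀ᵐ z, P (A.mul g z) := fun g P hP => (hV d A g).1.quasiMeasurePreserving.ae hP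
  -- lifts of the axes
  have hax : ∀ i, ∃ b : ℝ → E, Continuous b ∧ (∀ s t, b (s + t) = b s * b t) ∧
      ∀ t, K.p (b t) = A.ax i t := by
    intro i
    refine specOnePar d A E K (A.ax i) ?_ (A.ax_add i)
    exact continuous_pi fun j => by
      by_cases hj : j = i
      · subst hj
        have : (fun t : ℝ => (A.ax j t : Fin d → ℝ) j) = fun t => t := by
          funext t; simp [PG.ax]
        rw [this]
        exact continuous_id
      · have : (fun t : ℝ => (A.ax i t : Fin d → ℝ) j) = fun _ => 0 := by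
          funext t; simp [PG.ax, hj]
        rw [this]
        exact continuous_const
  choose b hbc hbh hbp using hax
  obtain ⟨hsc, hscp, c, hc, hmul⟩ := specSect d A E K b hbc hbh hbp
  -- the flow
  have hσ' : ∀ t, ∃ l, K.p l = a t ∧ R l =ᵐ[volume] ρ t := fun t => hRsurj _ _ (hLρ t)
  choose σ hσp hσR using hσ'
  have hσh : ∀ s t, σ (s + t) = σ s * σ t := by
    intro s t
    refine hRinj _ _ ?_ ?_
    · rw [map_mul, hσp, hσp, hσp, hadd]; rfl
    · filter_upwards [hσR (s + t), hρadd s t, hRmul (σ s) (σ t), hσR t,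
        hleft (a t) (hσR s)] with z h1 h2 h3 h4 h5
      rw [h1, h2, h3, h4, hσp, h5]
  have hσc : Continuous σ := by
    refine hRσ σ ?_ ?_
    · have : (fun t => K.p (σ t)) = fun t => (a t : A.Gp) := by funext t; exact hσp t
      rw [this]
      exact ha
    · intro t₀
      refine (hρc t₀).congr fun t => ?_
      unfold bd
      refine integral_congr_ae ?_
      filter_upwards [ae_restrict_of_ae (hσR t), ae_restrict_of_ae (hσR t₀)] with z h1 h2
      rw [h1, h2]
  obtain ⟨θ, hθc, hθ0, hθσ, hθadd⟩ := specFlowC d A E K (oprod b) c hsc hscp hc hmul σ hσc hσh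
  -- jointly measurable version
  have hfinbox : IsFiniteMeasure (volume.restrict (box d)) := inferInstance
  obtain ⟨F0, hF0m, hF0⟩ := specJM (Fin d → ℝ) (Fin d → ℝ) (volume.restrict (box d))
    (fun x => R (oprod b x)) (fun x => (hRph _).1.1) (fun x y => ((hRph _).1.2 y).le) (by
      intro w hw hw1
      have hcont : Continuous fun l : E => ∫ y in box d, ‖R l y - w y‖ := by
        rw [continuous_iff_continuousAt]
        intro l₀
        have h0 := hRcont l₀
        rw [ContinuousAt, tendsto_iff_dist_tendsto_zero]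
        refine squeeze_zero (fun l => dist_nonneg) (fun l => ?_) h0
        have i1 : ∀ l, Integrable (fun y => ‖R l y - w y‖) (volume.restrict (box d)) := by
          intro l
          refine Integrable.of_bound ((hRph l).1.1.sub hw).norm.aestronglyMeasurable 2
            (Eventually.of_forall fun z => ?_)
          rw [norm_norm]
          refine (norm_sub_le _ _).trans ?_
          rw [(hRph l).1.2 z]
          linarith [hw1 z]
        have i2 : Integrable (fun y => ‖R l y - R l₀ y‖) (volume.restrict (box d)) := by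
          refine Integrable.of_bound ((hRph l).1.1.sub (hRph l₀).1.1).norm.aestronglyMeasurable 2
            (Eventually.of_forall fun z => ?_)
          rw [norm_norm]
          refine (norm_sub_le _ _).trans ?_
          rw [(hRph l).1.2 z, (hRph l₀).1.2 z]
          norm_num
        rw [Real.dist_eq, ← integral_sub (i1 l) (i1 l₀)]
        refine (abs_integral_le_integral_abs).trans ?_
        refine integral_mono_of_nonneg (Eventually.of_forall fun z => abs_nonneg _) i2
          (Eventually.of_forall fun z => ?_)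
        show |‖R l z - w z‖ - ‖R l₀ z - w z‖| ≤ ‖R l z - R l₀ z‖
        refine (abs_norm_sub_norm_le _ _).trans ?_
        rw [sub_sub_sub_cancel_right]
      exact (hcont.comp hsc).measurable)
  let F : (Fin d → ℝ) → (Fin d → ℝ) → ℂ := fix A F0
  have hFR : ∀ x, F x =ᵐ[volume] R (oprod b x) := fun x => fix_eq F0 hF0m x (hRph _) (hF0 x)
  have hιR : ∀ (u : Circle) (l : E), ∀ᵐ z, R (K.ι u * l) z = u * R l z := by
    intro u l
    filter_upwards [hRmul (K.ι u) l, hleft (K.p l) (hRι u)] with z h1 h2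
    rw [h1, h2]
  obtain ⟨f, hf, hFf, hfχ⟩ := specFub specVol d A c hc F (fix_meas F0 hF0m)
    (fun x => fix_rph F0 hF0m x) (by
      intro g h
      filter_upwards [hleft h (hFR g), hFR h, hFR (A.mul g h), hRmul (oprod b g) (oprod b h),
        hιR (ec (c g h)) (oprod b (A.mul g h))] with z h1 h2 h3 h4 h5
      rw [h1, h2, h3, ← h5, ← hmul, h4, hscp])
  obtain ⟨r, hc', hint, hfγ⟩ := specNorm specVol d A c hc f hf hfχ
  let ℓ : (Fin d → ℝ) → ℝ := fun x => ∑ i, r i * x i
  have hℓ : Continuous ℓ := by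
    show Continuous fun x : Fin d → ℝ => ∑ i, r i * x i
    fun_prop
  have hℓ0 : ℓ 0 = 0 := by
    show ∑ i, r i * (0 : Fin d → ℝ) i = 0
    simp
  have a0 : a 0 = 0 := by
    have h1 := hadd 0 0
    rw [add_zero] at h1
    have h2 : A.mul (A.inv (a 0)) (a 0) = A.mul (A.inv (a 0)) (A.mul (a 0) (a 0)) := by
      rw [← h1]
    rw [← A.assoc, A.inv_mul, A.zero_mul] at h2
    exact h2.symm
  refine ⟨fun x y => c x y + ℓ x + ℓ y - ℓ (A.mul x y), fun z => f z * ec (ℓ z),
    fun t => θ t - ℓ (a t), hc', specPolyLaw d A _ hc', hint, ⟨?_, ?_⟩, ?_, ?_, ?_, ?_, ?_⟩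
  · have h1 : Measurable fun z : Fin d → ℝ => ((ec (ℓ z) : Circle) : ℂ) := by
      have h2 : Continuous fun z : Fin d → ℝ => ((ec (ℓ z) : Circle) : ℂ) :=
        continuous_subtype_val.comp (continuous_ec.comp hℓ)
      exact h2.measurable
    exact hf.1.mul h1
  · intro z
    rw [norm_mul, hf.2, Circle.norm_coe, mul_one]
  · exact hθc.sub (hℓ.comp ha)
  · show θ 0 - ℓ (a 0) = 0
    rw [hθ0, a0, hℓ0, sub_zero]
  · intro s t
    have h1 := hθadd s t
    rw [hσp, hσp] at h1
    have h2 : θ (s + t) = θ s + θ t + c (a s) (a t) := h1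
    show θ (s + t) - ℓ (a (s + t)) = θ s - ℓ (a s) + (θ t - ℓ (a t)) +
      (c (a s) (a t) + ℓ (a s) + ℓ (a t) - ℓ (A.mul (a s) (a t)))
    rw [h2, hadd]
    ring
  · exact hfγ
  · intro t
    filter_upwards [hσR t, hιR (ec (θ t)) (oprod b (a t)), hFR (a t), hFf (a t)]
      with z h1 h2 h3 h4
    have h5 : σ t = K.ι (ec (θ t)) * oprod b (a t) := by
      have h6 := hθσ t
      rw [hσp] at h6
      exact h6
    rw [← h1, h5, h2, ← h3, h4]
    show _ = ((ec (θ t - ℓ (a t) + (c (a t) z + ℓ (a t) + ℓ z - ℓ (A.mul (a t) z))) : Circle) : ℂ) *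
      (f (A.mul (a t) z) * ec (ℓ (A.mul (a t) z))) * conj (f z * ec (ℓ z))
    have e1 : θ t - ℓ (a t) + (c (a t) z + ℓ (a t) + ℓ z - ℓ (A.mul (a t) z)) =
        θ t + (c (a t) z + (ℓ z + -ℓ (A.mul (a t) z))) := by ring
    rw [e1, ec_coe_add, ec_coe_add, ec_coe_add, map_mul, ec_coe_conj]
    have e2 : ((ec (ℓ z) : Circle) : ℂ) * ec (-ℓ z) = 1 := by
      rw [← ec_coe_add, add_neg_cancel, ec_zero]; simp
    have e3 : ((ec (-ℓ (A.mul (a t) z)) : Circle) : ℂ) * ec (ℓ (A.mul (a t) z)) = 1 := by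
      rw [← ec_coe_add, neg_add_cancel, ec_zero]; simp
    calc ((ec (θ t) : Circle) : ℂ) * ((ec (c (a t) z) : Circle) * f (A.mul (a t) z) * conj (f z))
        = (ec (θ t) : Circle) * ((ec (c (a t) z) : Circle) * f (A.mul (a t) z) * conj (f z)) *
          (((ec (ℓ z) : Circle) : ℂ) * ec (-ℓ z)) *
          (((ec (-ℓ (A.mul (a t) z)) : Circle) : ℂ) * ec (ℓ (A.mul (a t) z))) := by
          rw [e2, e3]; ring
      _ = _ := by ring

end MPd26.HK
end
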