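import Pool.Agent.Lib.MP_d26cd8_an.HK.Defs
import Pool.Agent.Lib.MP_d26cd8_an.HK.PG

/-!
# MP_d26cd8_an, block D, section 5 (b)-(h): specification (helper51)

Lifting of a nilmanifold group to a circle extension, real central extension, polynomial law,
and the resulting nil-map.  Text with all proofs: /team-store/MP_d26cd8_an_D5_h51.md.
Functions on the nilmanifold `G/Γ`, `G = (ℝ^d, A.mul)`, `Γ = ℤ^d`, are functions on `ℝ^d` invariant
under right multiplication by integer points; integrals over `G/Γ` are integrals over the box.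
-/

set_option autoImplicit false

open MeasureTheory ProbabilityTheory Filter Topology
open scoped ComplexConjugate ENNReal

namespace MPd26.HK

/-- `e(t) = exp(2πit)`. -/
noncomputable def ec (t : ℝ) : Circle := Circle.exp (2 * Real.pi * t)

/-- Right `ℤ^d`-invariant phases: phases on the nilmanifold. -/
def PG.RPh {d : ℕ} (A : PG d) (F : (Fin d → ℝ) → ℂ) : Prop :=
  IsPhase F ∧ ∀ z γ, IsInt γ → F (A.mul z γ) = F z

/-- The `L¹`-distance on the nilmanifold. -/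
noncomputable def bd {d : ℕ} (F F' : (Fin d → ℝ) → ℂ) : ℝ := ∫ z in box d, ‖F z - F' z‖

/-! ## M1, M2: measure theory of `PG` -/

/-- Left and right translations preserve Lebesgue measure. -/
def SpecVol : Prop :=
  ∀ (d : ℕ) (A : PG d) (g : Fin d → ℝ),
    MeasurePreserving (A.mul g) volume volume ∧
    MeasurePreserving (fun x => A.mul x g) volume volume

/-- The representative map is measurable. -/
def SpecRep : Prop := ∀ (d : ℕ) (A : PG d), Measurable A.rep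

/-- Translations preserve the measure of the nilmanifold. -/
def SpecPGBox : Prop :=
  ∀ (d : ℕ) (A : PG d) (g : Fin d → ℝ) (F : (Fin d → ℝ) → ℝ≥0∞), Measurable F →
    (∀ z γ, IsInt γ → F (A.mul z γ) = F z) →
    ∫⁻ z in box d, F (A.mul g z) = ∫⁻ z in box d, F z

/-- Translation is continuous in `L¹`. -/
def SpecTrans : Prop :=
  ∀ (d : ℕ) (A : PG d) (F : (Fin d → ℝ) → ℂ), A.RPh F → ∀ h₀ : Fin d → ℝ,
    Tendsto (fun h => ∫ z in box d, ‖F (A.mul h z) - F (A.mul h₀ z)‖) (𝓝 h₀) (𝓝 0)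

/-! ## M3, M4: topological central extensions -/

/-- A topological group `E` over `A.Gp`, with a central circle, such that `p` is open at `1`,
the kernel of `p` is the circle near `1`, and there is a normalising function `I`. -/
structure CExt {d : ℕ} (A : PG d) (E : Type) [Group E] [TopologicalSpace E] where
  /-- the projection -/
  p : E →* A.Gp
  /-- the central circle -/
  ι : Circle →* E
  /-- the normalising function -/
  I : E → ℂ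
  p_cont : Continuous p
  ι_cont : Continuous ι
  I_cont : Continuous I
  central : ∀ (u : Circle) (l : E), ι u * l = l * ι u
  p_ι : ∀ u : Circle, p (ι u) = 1
  I_ι : ∀ (u : Circle) (l : E), I (ι u * l) = u * I l
  I_one : I 1 = 1
  isOpen : ∀ W ∈ 𝓝 (1 : E), p '' W ∈ 𝓝 (1 : A.Gp)
  sep : ∃ W ∈ 𝓝 (1 : E), ∀ l ∈ W, p l = 1 → ∃ u : Circle, ι u = l

/-- M3: one-parameter subgroups lift. -/
def SpecOnePar : Prop :=
  ∀ (d : ℕ) (A : PG d) (E : Type) [Group E] [TopologicalSpace E] [IsTopologicalGroup E]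
    [T2Space E] (K : CExt A E) (a : ℝ → A.Gp), Continuous a → (∀ s t, a (s + t) = a s * a t) →
    ∃ b : ℝ → E, Continuous b ∧ (∀ s t, b (s + t) = b s * b t) ∧ ∀ t, K.p (b t) = a t

/-- The ordered product of one-parameter subgroups. -/
def oprod {d : ℕ} {E : Type} [Monoid E] (b : Fin d → ℝ → E) (x : Fin d → ℝ) : E :=
  (List.ofFn fun i => b i (x i)).prod

/-- Continuous real cocycles, normalised for coordinates of the second kind. -/
structure PG.Coc {d : ℕ} (A : PG d) (c : (Fin d → ℝ) → (Fin d → ℝ) → ℝ) : Prop where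
  cont : Continuous fun q : (Fin d → ℝ) × (Fin d → ℝ) => c q.1 q.2
  coc : ∀ x y z, c x y + c (A.mul x y) z = c x (A.mul y z) + c y z
  zero : c 0 0 = 0
  nrm : ∀ (i : Fin d) (x y : Fin d → ℝ), (∀ j, i < j → x j = 0) → (∀ j, j < i → y j = 0) →
    c x y = 0

/-- M4: the section given by lifts of the coordinate axes, and its real cocycle. -/
def SpecSect : Prop :=
  ∀ (d : ℕ) (A : PG d) (E : Type) [Group E] [TopologicalSpace E] [IsTopologicalGroup E]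
    [T2Space E] (K : CExt A E) (b : Fin d → ℝ → E), (∀ i, Continuous (b i)) →
    (∀ i s t, b i (s + t) = b i s * b i t) → (∀ i t, K.p (b i t) = A.ax i t) →
    Continuous (oprod b) ∧ (∀ x : Fin d → ℝ, K.p (oprod b x) = x) ∧
    ∃ c : (Fin d → ℝ) → (Fin d → ℝ) → ℝ, A.Coc c ∧
      ∀ x y : Fin d → ℝ, oprod b x * oprod b y = K.ι (ec (c x y)) * oprod b (A.mul x y)

/-- M4: one-parameter subgroups in the coordinates of the section. -/
def SpecFlowC : Prop :=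
  ∀ (d : ℕ) (A : PG d) (E : Type) [Group E] [TopologicalSpace E] [IsTopologicalGroup E]
    [T2Space E] (K : CExt A E) (sc : (Fin d → ℝ) → E) (c : (Fin d → ℝ) → (Fin d → ℝ) → ℝ),
    Continuous sc → (∀ x : Fin d → ℝ, K.p (sc x) = x) → A.Coc c →
    (∀ x y : Fin d → ℝ, sc x * sc y = K.ι (ec (c x y)) * sc (A.mul x y)) →
    ∀ σ : ℝ → E, Continuous σ → (∀ s t, σ (s + t) = σ s * σ t) →
    ∃ θ : ℝ → ℝ, Continuous θ ∧ θ 0 = 0 ∧ (∀ t, σ t = K.ι (ec (θ t)) * sc (K.p (σ t))) ∧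
      ∀ s t, θ (s + t) = θ s + θ t + c (K.p (σ s)) (K.p (σ t))

/-! ## M5: polynomial law -/

/-- M5: continuous normalised cocycles are polynomial. -/
def SpecPolyLaw : Prop :=
  ∀ (d : ℕ) (A : PG d) (c : (Fin d → ℝ) → (Fin d → ℝ) → ℝ), A.Coc c →
    ∃ p : MvPolynomial (Fin d ⊕ Fin d) ℝ, ∀ x y, c x y = MvPolynomial.eval (Sum.elim x y) p

/-! ## M6: the group of lifts -/

/-- The group of lifts: pairs `(g, F)`, with composition `(g,F)(h,F') = (gh, (F∘h)F')`. -/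
structure LiftData {d : ℕ} (A : PG d) (L : (Fin d → ℝ) → ((Fin d → ℝ) → ℂ) → Prop) : Prop where
  ph : ∀ g F, L g F → A.RPh F
  ae : ∀ g F F', L g F → A.RPh F' → F =ᵐ[volume] F' → L g F'
  const : ∀ c : ℂ, ‖c‖ = 1 → L 0 (fun _ => c)
  mul : ∀ g h F F', L g F → L h F' → L (A.mul g h) (fun z => F (A.mul h z) * F' z)
  inv : ∀ g F, L g F → L (A.inv g) (fun z => conj (F (A.mul (A.inv g) z)))
  small : ∀ η : ℝ, 0 < η → ∃ U ∈ 𝓝 (0 : Fin d → ℝ), ∀ g ∈ U, ∃ F, L g F ∧ bd F (fun _ => 1) ≤ η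
  sep : ∃ η : ℝ, 0 < η ∧ ∀ P, L 0 P → bd P (fun _ => 1) ≤ η → ∃ c : ℂ, ∀ᵐ z, P z = c

/-- M6: the topological group of lifts.  `R l` is a representative of the phase of `l`. -/
def SpecLiftGrp : Prop :=
  ∀ (d : ℕ) (A : PG d) (L : (Fin d → ℝ) → ((Fin d → ℝ) → ℂ) → Prop), LiftData A L →
    ∃ (E : Type) (_ : Group E) (_ : TopologicalSpace E) (_ : IsTopologicalGroup E)
      (_ : T2Space E) (K : CExt A E) (R : E → (Fin d → ℝ) → ℂ),
      (∀ l, L (K.p l) (R l)) ∧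
      (∀ l l', ∀ᵐ z, R (l * l') z = R l (A.mul (K.p l') z) * R l' z) ∧
      (∀ u : Circle, ∀ᵐ z, R (K.ι u) z = u) ∧
      (∀ l l', K.p l = K.p l' → R l =ᵐ[volume] R l' → l = l') ∧
      (∀ g F, L g F → ∃ l, K.p l = g ∧ R l =ᵐ[volume] F) ∧
      (∀ l₀, Tendsto (fun l => bd (R l) (R l₀)) (𝓝 l₀) (𝓝 0)) ∧
      (∀ σ : ℝ → E, Continuous (fun t => K.p (σ t)) →
        (∀ t₀, Tendsto (fun t => bd (R (σ t)) (R (σ t₀))) (𝓝 t₀) (𝓝 0)) → Continuous σ)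

/-! ## M7: jointly measurable versions -/

/-- M7: a measurable family of classes has a jointly measurable version. -/
def SpecJM : Prop :=
  ∀ (α β : Type) [MeasurableSpace α] [MeasurableSpace β] [StandardBorelSpace β]
    (μ : Measure β) [IsFiniteMeasure μ] (R : α → β → ℂ), (∀ a, Measurable (R a)) →
    (∀ a y, ‖R a y‖ ≤ 1) →
    (∀ w : β → ℂ, Measurable w → (∀ y, ‖w y‖ ≤ 1) → Measurable fun a => ∫ y, ‖R a y - w y‖ ∂μ) →
    ∃ F : α → β → ℂ, Measurable (fun q : α × β => F q.1 q.2) ∧ ∀ a, F a =ᵐ[μ] R a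

/-! ## M8, M9: the function `f` -/

/-- M8: the multiplier is `e(c(g,z)) f(gz) / f(z)`. -/
def SpecFub : Prop :=
  ∀ (d : ℕ) (A : PG d) (c : (Fin d → ℝ) → (Fin d → ℝ) → ℝ), A.Coc c →
    ∀ F : (Fin d → ℝ) → (Fin d → ℝ) → ℂ, Measurable (fun q : (Fin d → ℝ) × (Fin d → ℝ) => F q.1 q.2) →
    (∀ g, A.RPh (F g)) →
    (∀ g h, ∀ᵐ z, F g (A.mul h z) * F h z = ec (c g h) * F (A.mul g h) z) →
    ∃ f : (Fin d → ℝ) → ℂ, IsPhase f ∧
      (∀ g, ∀ᵐ z, F g z = ec (c g z) * f (A.mul g z) * conj (f z)) ∧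
      ∀ γ, IsInt γ → ∃ χ : ℝ, ∀ᵐ z, f (A.mul z γ) = f z * ec (χ - c z γ)

/-- M9: normalisation of the lattice. -/
def SpecNorm : Prop :=
  ∀ (d : ℕ) (A : PG d) (c : (Fin d → ℝ) → (Fin d → ℝ) → ℝ), A.Coc c →
    ∀ f : (Fin d → ℝ) → ℂ, IsPhase f →
    (∀ γ, IsInt γ → ∃ χ : ℝ, ∀ᵐ z, f (A.mul z γ) = f z * ec (χ - c z γ)) →
    ∃ r : Fin d → ℝ,
      let ℓ : (Fin d → ℝ) → ℝ := fun x => ∑ i, r i * x i
      let c' : (Fin d → ℝ) → (Fin d → ℝ) → ℝ := fun x y => c x y + ℓ x + ℓ y - ℓ (A.mul x y)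
      A.Coc c' ∧ (∀ x y, IsInt x → IsInt y → ∃ n : ℤ, c' x y = n) ∧
      ∀ γ, IsInt γ → ∀ᵐ z, (f (A.mul z γ) * ec (ℓ (A.mul z γ)) : ℂ) =
        f z * ec (ℓ z) * ec (-(c' z γ))

/-! ## M10: the extended group -/

/-- M10: a polynomial integral cocycle gives a group in one more dimension. -/
def SpecExt : Prop :=
  ∀ (d : ℕ) (A : PG d) (c : (Fin d → ℝ) → (Fin d → ℝ) → ℝ), A.Coc c →
    (∃ p : MvPolynomial (Fin d ⊕ Fin d) ℝ, ∀ x y, c x y = MvPolynomial.eval (Sum.elim x y) p) →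
    (∀ x y, IsInt x → IsInt y → ∃ n : ℤ, c x y = n) →
    ∃ A' : PG (d + 1), ∀ (x y : Fin d → ℝ) (u v : ℝ),
      A'.mul (Fin.snoc x u : Fin (d + 1) → ℝ) (Fin.snoc y v : Fin (d + 1) → ℝ) =
        (Fin.snoc (A.mul x y) (u + v + c x y) : Fin (d + 1) → ℝ)

/-! ## Conclusion -/

/-- The core: from lifts to the function `f` and the polynomial cocycle `c`. -/
def SpecCore : Prop :=
  ∀ (d : ℕ) (A : PG d) (L : (Fin d → ℝ) → ((Fin d → ℝ) → ℂ) → Prop), LiftData A L →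
    ∀ (a : ℝ → Fin d → ℝ) (ρ : ℝ → (Fin d → ℝ) → ℂ), Continuous a →
    (∀ s t, a (s + t) = A.mul (a s) (a t)) → (∀ t, L (a t) (ρ t)) →
    (∀ s t, ∀ᵐ z, ρ (s + t) z = ρ s (A.mul (a t) z) * ρ t z) →
    (∀ t₀, Tendsto (fun t => bd (ρ t) (ρ t₀)) (𝓝 t₀) (𝓝 0)) →
    ∃ (c : (Fin d → ℝ) → (Fin d → ℝ) → ℝ) (f : (Fin d → ℝ) → ℂ) (θ : ℝ → ℝ), A.Coc c ∧
      (∃ p : MvPolynomial (Fin d ⊕ Fin d) ℝ, ∀ x y, c x y = MvPolynomial.eval (Sum.elim x y) p) ∧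
      (∀ x y, IsInt x → IsInt y → ∃ n : ℤ, c x y = n) ∧ IsPhase f ∧ Continuous θ ∧ θ 0 = 0 ∧
      (∀ s t, θ (s + t) = θ s + θ t + c (a s) (a t)) ∧
      (∀ γ, IsInt γ → ∀ᵐ z, f (A.mul z γ) = f z * ec (-(c z γ))) ∧
      ∀ t, ∀ᵐ z, ρ t z = ec (θ t + c (a t) z) * f (A.mul (a t) z) * conj (f z)

/-- M11: the nil-map in box coordinates. -/
def SpecNilX : Prop :=
  ∀ (d : ℕ) (A : PG d) (A' : PG (d + 1)) (c : (Fin d → ℝ) → (Fin d → ℝ) → ℝ)
    (f : (Fin d → ℝ) → ℂ) (θ : ℝ → ℝ) (a : ℝ → Fin d → ℝ) (ρ : ℝ → (Fin d → ℝ) → ℂ),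
    IsPhase f → (∀ s t, a (s + t) = A.mul (a s) (a t)) →
    (∀ s t, θ (s + t) = θ s + θ t + c (a s) (a t)) →
    (∀ (x y : Fin d → ℝ) (u v : ℝ), A'.mul (Fin.snoc x u : Fin (d + 1) → ℝ)
      (Fin.snoc y v : Fin (d + 1) → ℝ) = (Fin.snoc (A.mul x y) (u + v + c x y) : Fin (d + 1) → ℝ)) →
    (∀ γ, IsInt γ → ∀ᵐ z, f (A.mul z γ) = f z * ec (-(c z γ))) →
    (∀ t, ∀ᵐ z, ρ t z = ec (θ t + c (a t) z) * f (A.mul (a t) z) * conj (f z)) →
    (∀ t, A.RPh (ρ t)) →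
    ∀ (α : Type) [MeasurableSpace α] (μ : Measure α) (T : ℝ → α → α) (π : α → Fin d → ℝ)
      (φ : α → ℂ), (∀ t, MeasurePreserving (T t) μ μ) → Measurable π → (∀ x, π x ∈ box d) →
      (∀ s : Set (Fin d → ℝ), volume s = 0 → μ (π ⁻¹' s) = 0) → IsPhase φ →
      (∀ t, ∀ᵐ x ∂μ, ∃ γ, IsInt γ ∧ A.mul (a t) (π x) = A.mul (π (T t x)) γ) →
      (∀ t, ∀ᵐ x ∂μ, φ (T t x) = ρ t (π x) * φ x) →
      ∃ (p : α → Fin (d + 1) → ℝ) (Φ : (Fin (d + 1) → ℝ) → ℂ), Measurable p ∧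
        (∀ x, p x ∈ box (d + 1)) ∧ Measurable Φ ∧ (∀ x, φ x = Φ (p x)) ∧
        ∀ t, ∀ᵐ x ∂μ, ∃ γ, IsInt γ ∧
          A'.mul (Fin.snoc (a t) (θ t) : Fin (d + 1) → ℝ) (p x) = A'.mul (p (T t x)) γ

end MPd26.HK
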